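import Pool.Agent.P.MP_52ab5a_al.Defs

/-! Polynomial functions and constructible sets. -/

namespace Pool.Agent.P.MP_52ab5a_al

open MvPolynomial

variable {ι κ : Type}

/-- Polynomial functions. -/
def PolyFn (F : (ι → ℂ) → ℂ) : Prop := ∃ p : MvPolynomial ι ℂ, ∀ x, F x = eval x p

/-- Constructible sets. -/
def Con (S : Set (ι → ℂ)) : Prop := ∃ c, IsPres S c

namespace PolyFn

theorem const (a : ℂ) : PolyFn fun _ : ι → ℂ => a := ⟨C a, fun x => by simp⟩

theorem coord (s : ι) : PolyFn fun x : ι → ℂ => x s := ⟨X s, fun x => by simp⟩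

theorem eval (p : MvPolynomial ι ℂ) : PolyFn fun x : ι → ℂ => MvPolynomial.eval x p :=
  ⟨p, fun _ => rfl⟩

theorem add {F G : (ι → ℂ) → ℂ} (hF : PolyFn F) (hG : PolyFn G) : PolyFn fun x => F x + G x := by
  obtain ⟨p, hp⟩ := hF; obtain ⟨q, hq⟩ := hG
  exact ⟨p + q, fun x => by simp [hp, hq]⟩

theorem neg {F : (ι → ℂ) → ℂ} (hF : PolyFn F) : PolyFn fun x => -F x := by
  obtain ⟨p, hp⟩ := hF
  exact ⟨-p, fun x => by simp [hp]⟩

theorem sub {F G : (ι → ℂ) → ℂ} (hF : PolyFn F) (hG : PolyFn G) : PolyFn fun x => F x - G x := by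
  obtain ⟨p, hp⟩ := hF; obtain ⟨q, hq⟩ := hG
  exact ⟨p - q, fun x => by simp [hp, hq]⟩

theorem mul {F G : (ι → ℂ) → ℂ} (hF : PolyFn F) (hG : PolyFn G) : PolyFn fun x => F x * G x := by
  obtain ⟨p, hp⟩ := hF; obtain ⟨q, hq⟩ := hG
  exact ⟨p * q, fun x => by simp [hp, hq]⟩

theorem pow {F : (ι → ℂ) → ℂ} (hF : PolyFn F) (n : ℕ) : PolyFn fun x => F x ^ n := by
  obtain ⟨p, hp⟩ := hF
  exact ⟨p ^ n, fun x => by simp [hp]⟩

theorem sum {α : Type} (s : Finset α) {F : α → (ι → ℂ) → ℂ} (h : ∀ a ∈ s, PolyFn (F a)) :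
    PolyFn fun x => ∑ a ∈ s, F a x := by
  classical
  induction s using Finset.induction_on with
  | empty => simpa using const 0
  | insert a s ha ih =>
    simp only [Finset.sum_insert ha]
    exact (h a (by simp)).add (ih fun b hb => h b (by simp [hb]))

theorem prod {α : Type} (s : Finset α) {F : α → (ι → ℂ) → ℂ} (h : ∀ a ∈ s, PolyFn (F a)) :
    PolyFn fun x => ∏ a ∈ s, F a x := by
  classical
  induction s using Finset.induction_on with
  | empty => simpa using const 1
  | insert a s ha ih =>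
    simp only [Finset.prod_insert ha]
    exact (h a (by simp)).mul (ih fun b hb => h b (by simp [hb]))

theorem ite (p : Prop) [Decidable p] {F G : (ι → ℂ) → ℂ} (hF : PolyFn F) (hG : PolyFn G) :
    PolyFn fun x => if p then F x else G x := by
  by_cases h : p <;> simp only [h, if_true, if_false] <;> assumption

theorem dite (p : Prop) [Decidable p] {F : p → (ι → ℂ) → ℂ} {G : ¬p → (ι → ℂ) → ℂ}
    (hF : ∀ h, PolyFn (F h)) (hG : ∀ h, PolyFn (G h)) :
    PolyFn fun x => if h : p then F h x else G h x := by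
  by_cases h : p
  · simp only [h, dif_pos]; exact hF h
  · simp only [h, dif_neg, not_false_eq_true]; exact hG h

theorem comp {F : (ι → ℂ) → ℂ} (hF : PolyFn F) {G : (κ → ℂ) → ι → ℂ}
    (hG : ∀ s, PolyFn fun y => G y s) : PolyFn fun y => F (G y) := by
  obtain ⟨p, hp⟩ := hF
  choose q hq using hG
  refine ⟨bind₁ q p, fun y => ?_⟩
  have : G y = fun s => MvPolynomial.eval y (q s) := funext fun s => hq s y
  show F (G y) = _
  rw [hp, this]
  exact (aeval_bind₁ y q p).symm

theorem matMul {α β γ : Type} [Fintype β] {A : (ι → ℂ) → Matrix α β ℂ}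
    {B : (ι → ℂ) → Matrix β γ ℂ} (hA : ∀ a b, PolyFn fun x => A x a b)
    (hB : ∀ b c, PolyFn fun x => B x b c) (a : α) (c : γ) : PolyFn fun x => (A x * B x) a c := by
  simp only [Matrix.mul_apply]
  exact sum _ fun b _ => (hA a b).mul (hB b c)

theorem det {α : Type} [Fintype α] [DecidableEq α] {A : (ι → ℂ) → Matrix α α ℂ}
    (hA : ∀ a b, PolyFn fun x => A x a b) : PolyFn fun x => (A x).det := by
  simp only [Matrix.det_apply']
  exact sum _ fun π _ => (const _).mul (prod _ fun b _ => hA _ _)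

theorem adjugate {α : Type} [Fintype α] [DecidableEq α] {A : (ι → ℂ) → Matrix α α ℂ}
    (hA : ∀ a b, PolyFn fun x => A x a b) (a b : α) : PolyFn fun x => (A x).adjugate a b := by
  simp only [Matrix.adjugate_apply]
  refine det fun c d => ?_
  simp only [Matrix.updateRow_apply]
  exact ite _ (const _) (hA c d)

end PolyFn

open Classical in
/-- The function presented by `c`. -/
noncomputable def ev (c : MvPolynomial ι ℂ →₀ ℤ) (x : ι → ℂ) : ℤ :=
  c.sum fun f n => if eval x f = 0 then 0 else n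

theorem ev_add (c d : MvPolynomial ι ℂ →₀ ℤ) (x : ι → ℂ) : ev (c + d) x = ev c x + ev d x := by
  classical
  unfold ev
  rw [Finsupp.sum_add_index']
  · simp
  · intro f a b; split_ifs <;> simp

theorem ev_zero (x : ι → ℂ) : ev (0 : MvPolynomial ι ℂ →₀ ℤ) x = 0 := by simp [ev]

theorem ev_neg (c : MvPolynomial ι ℂ →₀ ℤ) (x : ι → ℂ) : ev (-c) x = -ev c x := by
  have := ev_add c (-c) x
  rw [add_neg_cancel, ev_zero] at this; omega

theorem ev_sub (c d : MvPolynomial ι ℂ →₀ ℤ) (x : ι → ℂ) : ev (c - d) x = ev c x - ev d x := by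
  rw [sub_eq_add_neg, ev_add, ev_neg]; ring

open Classical in
theorem ev_single (f : MvPolynomial ι ℂ) (n : ℤ) (x : ι → ℂ) :
    ev (Finsupp.single f n) x = if eval x f = 0 then 0 else n := by
  unfold ev
  rw [Finsupp.sum_single_index]; simp

open Classical in
theorem isPres_iff {S : Set (ι → ℂ)} {c : MvPolynomial ι ℂ →₀ ℤ} :
    IsPres S c ↔ ∀ x, ev c x = if x ∈ S then 1 else 0 := Iff.rfl

theorem exists_ev_map (c : MvPolynomial ι ℂ →₀ ℤ) (T : MvPolynomial ι ℂ → MvPolynomial κ ℂ) :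
    ∃ d : MvPolynomial κ ℂ →₀ ℤ, ∀ (x : ι → ℂ) (y : κ → ℂ) (p : Prop),
      (∀ f, eval y (T f) = 0 ↔ (p ∨ eval x f = 0)) → (p → ev d y = 0) ∧ (¬p → ev d y = ev c x) := by
  classical
  induction c using Finsupp.induction_linear with
  | zero => exact ⟨0, fun x y p _ => by simp [ev_zero]⟩
  | add c c' hc hc' =>
    obtain ⟨d, hd⟩ := hc; obtain ⟨d', hd'⟩ := hc'
    refine ⟨d + d', fun x y p h => ⟨fun hp => ?_, fun hp => ?_⟩⟩
    · rw [ev_add, (hd x y p h).1 hp, (hd' x y p h).1 hp]; rfl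
    · rw [ev_add, ev_add, (hd x y p h).2 hp, (hd' x y p h).2 hp]
  | single f n =>
    refine ⟨Finsupp.single (T f) n, fun x y p h => ⟨fun hp => ?_, fun hp => ?_⟩⟩
    · rw [ev_single, if_pos ((h f).2 (Or.inl hp))]
    · rw [ev_single, ev_single]; simp [h f, hp]

theorem exists_ev_mul (c d : MvPolynomial ι ℂ →₀ ℤ) :
    ∃ e : MvPolynomial ι ℂ →₀ ℤ, ∀ x, ev e x = ev c x * ev d x := by
  classical
  induction c using Finsupp.induction_linear with
  | zero => exact ⟨0, fun x => by simp [ev_zero]⟩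
  | add c c' hc hc' =>
    obtain ⟨e, he⟩ := hc; obtain ⟨e', he'⟩ := hc'
    exact ⟨e + e', fun x => by rw [ev_add, ev_add, he, he']; ring⟩
  | single f n =>
    obtain ⟨e, he⟩ := exists_ev_map d fun g => f * g
    have hs : ∀ (m : ℤ) (x : ι → ℂ), ev (m • e) x = m * ev e x := by
      intro m x
      induction m using Int.induction_on with
      | zero => simp [ev_zero]
      | succ k ih => rw [add_smul, one_smul, ev_add, ih]; ring
      | pred k ih => rw [sub_smul, one_smul, ev_sub, ih]; ring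
    refine ⟨n • e, fun x => ?_⟩
    have := he x x (eval x f = 0) fun g => by simp
    rw [hs, ev_single]
    split_ifs with h
    · simp [this.1 h]
    · rw [this.2 h]

namespace Con

theorem isPres {S : Set (ι → ℂ)} (h : Con S) : IsPres S (pres S) := Classical.epsilon_spec h

theorem empty : Con (∅ : Set (ι → ℂ)) := ⟨0, isPres_iff.2 fun x => by simp [ev_zero]⟩

theorem univ : Con (Set.univ : Set (ι → ℂ)) :=
  ⟨Finsupp.single 1 1, isPres_iff.2 fun x => by simp [ev_single]⟩

theorem ne_zero {F : (ι → ℂ) → ℂ} (hF : PolyFn F) : Con {x | F x ≠ 0} := by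
  obtain ⟨p, hp⟩ := hF
  refine ⟨Finsupp.single p 1, isPres_iff.2 fun x => ?_⟩
  rw [ev_single]; by_cases h : eval x p = 0 <;> simp [hp, h]

theorem compl {S : Set (ι → ℂ)} (h : Con S) : Con Sᶜ := by
  obtain ⟨c, hc⟩ := h
  refine ⟨Finsupp.single 1 1 - c, isPres_iff.2 fun x => ?_⟩
  rw [ev_sub, ev_single, isPres_iff.1 hc x]; by_cases h : x ∈ S <;> simp [h]

theorem inter {S T : Set (ι → ℂ)} (hS : Con S) (hT : Con T) : Con (S ∩ T) := by
  obtain ⟨c, hc⟩ := hS; obtain ⟨d, hd⟩ := hT
  obtain ⟨e, he⟩ := exists_ev_mul c d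
  refine ⟨e, isPres_iff.2 fun x => ?_⟩
  rw [he, isPres_iff.1 hc x, isPres_iff.1 hd x]
  by_cases h : x ∈ S <;> by_cases h' : x ∈ T <;> simp [h, h']

theorem union {S T : Set (ι → ℂ)} (hS : Con S) (hT : Con T) : Con (S ∪ T) := by
  have := (hS.compl.inter hT.compl).compl
  rwa [Set.compl_inter, compl_compl, compl_compl] at this

theorem diff {S T : Set (ι → ℂ)} (hS : Con S) (hT : Con T) : Con (S \ T) := hS.inter hT.compl

theorem not {p : (ι → ℂ) → Prop} (h : Con {x | p x}) : Con {x | ¬p x} := h.compl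

theorem and {p q : (ι → ℂ) → Prop} (hp : Con {x | p x}) (hq : Con {x | q x}) :
    Con {x | p x ∧ q x} := hp.inter hq

theorem or {p q : (ι → ℂ) → Prop} (hp : Con {x | p x}) (hq : Con {x | q x}) :
    Con {x | p x ∨ q x} := hp.union hq

theorem imp {p q : (ι → ℂ) → Prop} (hp : Con {x | p x}) (hq : Con {x | q x}) :
    Con {x | p x → q x} := by
  simp only [imp_iff_not_or]; exact hp.not.or hq

theorem const (p : Prop) : Con {_x : ι → ℂ | p} := by
  by_cases h : p
  · simpa [h] using univ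
  · simpa [h] using empty

theorem imp' {p : Prop} {q : (ι → ℂ) → Prop} (hq : p → Con {x | q x}) : Con {x | p → q x} := by
  by_cases h : p
  · simpa [h] using hq h
  · simpa [h] using univ

theorem eq_zero {F : (ι → ℂ) → ℂ} (hF : PolyFn F) : Con {x | F x = 0} := by
  simpa using (ne_zero hF).not

theorem eq {F G : (ι → ℂ) → ℂ} (hF : PolyFn F) (hG : PolyFn G) : Con {x | F x = G x} := by
  simpa [sub_eq_zero] using eq_zero (hF.sub hG)

theorem ne {F G : (ι → ℂ) → ℂ} (hF : PolyFn F) (hG : PolyFn G) : Con {x | F x ≠ G x} :=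
  (eq hF hG).not

theorem all {α : Type} [Finite α] {p : α → (ι → ℂ) → Prop} (h : ∀ a, Con {x | p a x}) :
    Con {x | ∀ a, p a x} := by
  classical
  have := Fintype.ofFinite α
  have key : ∀ s : Finset α, Con {x | ∀ a ∈ s, p a x} := by
    intro s
    induction s using Finset.induction_on with
    | empty => simpa using univ
    | insert a s _ ih => simpa using (h a).and ih
  simpa using key Finset.univ

theorem ex {α : Type} [Finite α] {p : α → (ι → ℂ) → Prop} (h : ∀ a, Con {x | p a x}) :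
    Con {x | ∃ a, p a x} := by
  simpa using (all fun a => (h a).not).not

theorem iUnion {α : Type} [Finite α] {S : α → Set (ι → ℂ)} (h : ∀ a, Con (S a)) :
    Con (⋃ a, S a) := by
  have := ex (p := fun a x => x ∈ S a) h
  have e : (⋃ a, S a) = {x | ∃ a, x ∈ S a} := by ext x; simp
  rwa [e]

theorem preimage {S : Set (ι → ℂ)} (h : Con S) {G : (κ → ℂ) → ι → ℂ}
    (hG : ∀ s, PolyFn fun y => G y s) : Con {y | G y ∈ S} := by
  obtain ⟨c, hc⟩ := h
  choose T hT using fun f : MvPolynomial ι ℂ => (PolyFn.eval f).comp hG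
  obtain ⟨d, hd⟩ := exists_ev_map c T
  refine ⟨d, isPres_iff.2 fun y => ?_⟩
  rw [(hd (G y) y False fun f => by simp [hT]).2 not_false, isPres_iff.1 hc]
  rfl

theorem comp {S : Set (ι → ℂ)} (h : Con S) (r : ι → κ) : Con {y : κ → ℂ | y ∘ r ∈ S} :=
  h.preimage fun s => PolyFn.coord (r s)

theorem matEq {α β : Type} [Finite α] [Finite β] {A B : (ι → ℂ) → Matrix α β ℂ}
    (hA : ∀ a b, PolyFn fun x => A x a b) (hB : ∀ a b, PolyFn fun x => B x a b) :
    Con {x | A x = B x} := by
  simp only [← Matrix.ext_iff]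
  exact all fun a => all fun b => eq (hA a b) (hB a b)

/-- Membership in a constructible set depends only on the vanishing of finitely many polynomials. -/
theorem pattern {S : Set (ι → ℂ)} (h : Con S) : ∃ F : Finset (MvPolynomial ι ℂ),
    ∀ x y : ι → ℂ, (∀ f ∈ F, eval x f = 0 ↔ eval y f = 0) → x ∈ S → y ∈ S := by
  classical
  obtain ⟨c, hc⟩ := h
  refine ⟨c.support, fun x y hxy hx => ?_⟩
  have h1 : ev c x = ev c y := by
    unfold ev Finsupp.sum
    exact Finset.sum_congr rfl fun f hf => by simp [hxy f hf]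
  rw [isPres_iff.1 hc x, isPres_iff.1 hc y, if_pos hx] at h1
  by_contra hy
  simp [hy] at h1

end Con

end Pool.Agent.P.MP_52ab5a_al
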