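import Pool.Agent.P.MP_52ab5a_al.A.Iface
import Pool.Agent.P.MP_52ab5a_al.K.Cons

/-! Classes of constructible sets: definitions and statements. -/

namespace Pool.Agent.P.MP_52ab5a_al

open MvPolynomial WM

/-- The value of `φ` on the class of the constructible set `S`. -/
noncomputable def cls {ι : Type} (φ : Fn ι) (S : Set (ι → ℂ)) : ℤ :=
  (pres S).sum fun f n => n * φ (reg f) ⊥ ⊤

/-- The value of `φ` on the direct image of `S`. -/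
noncomputable def intg {τ σ : Type} [Fintype τ] [Fintype σ] (φ : Fn σ) (S : Set (τ ⊕ σ → ℂ)) : ℤ :=
  cls (push Sum.inr φ) S

/-- Euler characteristic. -/
noncomputable def chi' {τ : Type} [Fintype τ] (S : Set (τ → ℂ)) : ℤ :=
  intg (σ := Empty) WM.dim {z | z ∘ Sum.inl ∈ S}

/-- The index of `D - 1` on a module on the line. -/
noncomputable def expFn : Fn Unit := fun N B Z =>
  iter WM.dim (N.res (Empty.elim : Empty → Unit)) [N.D () - 1] B Z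

/-- Euler characteristic with exponential. -/
noncomputable def ech {τ : Type} [Fintype τ] (S : Set (τ → ℂ)) (F : (τ → ℂ) → ℂ) : ℤ :=
  intg expFn {z : τ ⊕ Unit → ℂ | z ∘ Sum.inl ∈ S ∧ z (Sum.inr ()) = F (z ∘ Sum.inl)}

/-- The module given by a commutative algebra with derivations. -/
@[reducible] noncomputable def ofDer {ι : Type} (A : Type) [CommRing A] [Algebra ℂ A] (x : ι → A)
    (d : ι → Derivation ℂ A A) : WM ι where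
  V := A
  X s := LinearMap.mulLeft ℂ (x s)
  D s := (d s).toLinearMap

/-- The twist whose derivatives are the equations of the attracting Lagrangian of `Y`. -/
@[reducible] noncomputable def WM.kt {σ : Type} (N : WM σ) (w : σ → ℤ) (Y : σ ⊕ σ → ℂ) : WM σ :=
  N.ops (fun s => if w s ≤ 0 then -N.D s else N.X s)
    fun s => if w s ≤ 0 then N.X s - Y (Sum.inl s) • (1 : Module.End ℂ N.V)
      else N.D s - Y (Sum.inr s) • (1 : Module.End ℂ N.V)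

/-- The Euler characteristic of the Koszul complex of the attracting Lagrangian of `Y`. -/
noncomputable def kap {σ : Type} [Fintype σ] (w : σ → ℤ) (Y : σ ⊕ σ → ℂ) : Fn σ := fun N B Z =>
  push (Empty.elim : Empty → σ) WM.dim (N.kt w Y) B Z

-- deps:
def S_REG : Prop := ∀ (ι : Type) (f : MvPolynomial ι ℂ),
  (∃ d : ι → Derivation ℂ (Localization.Away f) (Localization.Away f),
    reg f = ofDer (Localization.Away f)
      (fun s => algebraMap (MvPolynomial ι ℂ) (Localization.Away f) (X s)) d ∧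
    ∀ s g, d s (algebraMap (MvPolynomial ι ℂ) (Localization.Away f) g) =
      algebraMap (MvPolynomial ι ℂ) (Localization.Away f) (pderiv s g)) ∧
  (reg f).IsW ∧
  ∀ (A : Type) [CommRing A] [Algebra ℂ A] (j : MvPolynomial ι ℂ →ₐ[ℂ] A)
    (d : ι → Derivation ℂ A A), IsUnit (j f) → (∀ a, ∃ k g, j f ^ k * a = j g) →
    (∀ g, j g = 0 → ∃ k, f ^ k * g = 0) → (∀ s, d s (j (X s)) = 1) →
    (∀ s t, s ≠ t → d s (j (X t)) = 0) →
    (ofDer A (fun s => j (X s)) d).IsW ∧ Iso (reg f) (ofDer A (fun s => j (X s)) d)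

-- deps: REG RK
def S_REGH : Prop := ∀ (ι : Type) [Finite ι] (f : MvPolynomial ι ℂ), (reg f).Holo

-- deps: PISO HSUB REG REGH
def S_CECH : Prop := ∀ (ι α : Type) [Finite ι] [Fintype α] (φ : Fn ι) (h : MvPolynomial ι ℂ)
  (f : α → MvPolynomial ι ℂ), Additive φ → (∀ x, eval x h ≠ 0 → ∃ a, eval x (f a) ≠ 0) →
    ∑ I : Finset α, (-1) ^ I.card * φ (reg (h * ∏ a ∈ I, f a)) ⊥ ⊤ = 0

-- deps: CECH
def S_WD : Prop := ∀ (ι : Type) [Finite ι] (φ : Fn ι) (c : MvPolynomial ι ℂ →₀ ℤ), Additive φ →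
  (∀ x, ev c x = 0) → (c.sum fun f n => n * φ (reg f) ⊥ ⊤) = 0

-- deps: WD REGH PUSH
def S_CLS : Prop := ∀ (ι : Type) [Finite ι],
  (∀ (φ : Fn ι) S c, Additive φ → IsPres S c → cls φ S = c.sum fun f n => n * φ (reg f) ⊥ ⊤) ∧
  (∀ φ : Fn ι, Additive φ → cls φ ∅ = 0) ∧
  (∀ (φ : Fn ι) S T, Additive φ → Con S → Con T → Disjoint S T →
    cls φ (S ∪ T) = cls φ S + cls φ T) ∧
  (∀ (φ : Fn ι) (α : Type) [Fintype α] (S : α → Set (ι → ℂ)), Additive φ → (∀ a, Con (S a)) →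
    Pairwise (fun a b => Disjoint (S a) (S b)) → cls φ (⋃ a, S a) = ∑ a, cls φ (S a)) ∧
  (∀ (φ ψ : Fn ι) S, (∀ N : WM ι, N.Holo → φ N ⊥ ⊤ = ψ N ⊥ ⊤) → cls φ S = cls ψ S) ∧
  (∀ S : Set (ι → ℂ), IsClass fun φ => cls φ S) ∧
  ∀ (τ : Type) [Fintype τ] [Fintype ι] (S : Set (τ ⊕ ι → ℂ)), IsClass fun φ : Fn ι => intg φ S

-- deps: REG REGH CLS AFFM RESM
def S_AFF : Prop := ∀ (ι σ : Type) [Fintype ι] [Fintype σ] [DecidableEq ι] [DecidableEq σ]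
  (φ : Fn σ) (S : Set (ι → ℂ)), Additive φ → Con S →
    (∀ (γ : Matrix σ ι ℂ) (δ : Matrix ι σ ℂ) (a : σ → ℂ), γ * δ = 1 → δ * γ = 1 →
      cls (fun N B Z => φ (N.aff γ δ a) B Z) S = cls φ {x | δ.mulVec (x - a) ∈ S}) ∧
    ∀ e : σ ≃ ι, cls (fun N B Z => φ (N.res e) B Z) S = cls φ {x | x ∘ e.symm ∈ S}

/-- The derivative of Laurent polynomials. -/
noncomputable def lder (A : Type) [AddCommGroup A] [Module ℂ A] : Module.End ℂ (ℤ →₀ A) :=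
  Finsupp.lsum ℂ fun k => (k : ℂ) • Finsupp.lsingle (k - 1)

/-- Laurent polynomials in `u = y - p` with coefficients in `A`. -/
@[reducible] noncomputable def laur {ι : Type} (A : Type) [CommRing A] [Algebra ℂ A] (x : ι → A)
    (d : ι → Derivation ℂ A A) (p : A) : WM (Option ι) where
  V := ℤ →₀ A
  X o := o.elim (Finsupp.lmapDomain A ℂ (· + 1) + Finsupp.mapRange.linearMap (LinearMap.mulLeft ℂ p))
    fun s => Finsupp.mapRange.linearMap (LinearMap.mulLeft ℂ (x s))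
  D o := o.elim (lder A) fun s => Finsupp.mapRange.linearMap (d s).toLinearMap -
    Finsupp.mapRange.linearMap (LinearMap.mulLeft ℂ (d s p)) * lder A

-- deps: PISO REG
def S_LAUR : Prop := ∀ (ι : Type) (f g h : MvPolynomial ι ℂ)
  (d : ι → Derivation ℂ (Localization.Away f) (Localization.Away f)) (p : Localization.Away f),
    (∀ s q, d s (algebraMap (MvPolynomial ι ℂ) (Localization.Away f) q) =
      algebraMap (MvPolynomial ι ℂ) (Localization.Away f) (pderiv s q)) →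
    IsUnit (algebraMap (MvPolynomial ι ℂ) (Localization.Away f) h) →
    algebraMap (MvPolynomial ι ℂ) (Localization.Away f) h * p =
      algebraMap (MvPolynomial ι ℂ) (Localization.Away f) g →
    let L := laur (Localization.Away f)
      (fun s => algebraMap (MvPolynomial ι ℂ) (Localization.Away f) (X s)) d p
    L.IsW ∧ Iso (reg (rename some f * (rename some h * X none - rename some g))) L ∧
      PIso Set.univ (reg (rename some f)) ⊥ ⊤ L ⊥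
        (Finsupp.supported (Localization.Away f) ℂ {k : ℤ | 0 ≤ k})

-- deps: PISO HSUB PUSH REG REGH CLS LAUR
def S_ONE : Prop := ∀ (ι : Type) [Fintype ι] (φ : Fn ι) (S : Set (ι → ℂ)), Additive φ → Con S →
  cls (push some φ) {z | z ∘ some ∈ S} = cls φ S ∧
  cls (fun N B Z => iter φ (N.res some) [N.D none - 1] B Z) {z | z ∘ some ∈ S} = 0 ∧
  cls (fun N B Z => iter φ (N.res some) [N.D none - 1] B Z) {z | z ∘ some ∈ S ∧ z none = 0} =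
    cls φ S

-- deps: PISO HSUB PUSH REG REGH CLS LAUR ONE
def S_GR : Prop := ∀ (ι : Type) [Fintype ι] (φ : Fn ι) (S : Set (ι → ℂ))
  (g h : MvPolynomial ι ℂ), Additive φ → Con S → (∀ x ∈ S, eval x h ≠ 0) →
    cls (push some φ) {z | z ∘ some ∈ S ∧ eval (z ∘ some) h * z none = eval (z ∘ some) g} = cls φ S

-- deps: PISO HSUB REG REGH CLS
def S_RES : Prop := ∀ (ι : Type) [Fintype ι] (φ : Fn ι) (S : Set (Option ι → ℂ)), Additive φ →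
  Con S → cls (fun N B Z => iter φ (N.res some) [N.X none] B Z) S =
    -cls φ {x | (fun o : Option ι => o.elim 0 x) ∈ S}

-- deps: HSUB PUSH REGH CLS AFF RESM RES
def S_RESN : Prop := ∀ (ν σ : Type) [Fintype ν] [Fintype σ] (φ : Fn σ) (S : Set (ν ⊕ σ → ℂ)),
  Additive φ → Con S → cls (fun N B Z => push Sum.inr φ N.fou B Z) S =
    (-1) ^ Fintype.card ν * cls φ {x | Sum.elim (0 : ν → ℂ) x ∈ S}

-- deps:
def S_GEN : Prop := ∀ (ι α : Type) [Finite ι] [Finite α] (P : Ideal (MvPolynomial ι ℂ))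
  (f : α → Polynomial (MvPolynomial ι ℂ)) (e : Polynomial (MvPolynomial ι ℂ)), P.IsPrime →
    (∀ x : ι → ℂ, (∀ q ∈ P, eval x q = 0) → {y : ℂ | (∀ a, ((f a).map (eval x)).eval y = 0) ∧
      (e.map (eval x)).eval y ≠ 0}.Subsingleton) →
    ∃ (g h : MvPolynomial ι ℂ) (b : Prop), h ∉ P ∧ ∀ x : ι → ℂ, (∀ q ∈ P, eval x q = 0) →
      eval x h ≠ 0 → ∀ y : ℂ, ((∀ a, ((f a).map (eval x)).eval y = 0) ∧
        (e.map (eval x)).eval y ≠ 0) ↔ b ∧ eval x h * y = eval x g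

-- deps: GEN
def S_BIJA : Prop := ∀ (ι : Type) [Finite ι] (Γ : Set (Option ι → ℂ)), Con Γ →
  Set.InjOn (fun z => z ∘ some) Γ →
    ∃ (m : ℕ) (S : Fin m → Set (ι → ℂ)) (g h : Fin m → MvPolynomial ι ℂ), (∀ j, Con (S j)) ∧
      Pairwise (fun j k => Disjoint (S j) (S k)) ∧ (∀ j, ∀ x ∈ S j, eval x (h j) ≠ 0) ∧
      Γ = ⋃ j, {z | z ∘ some ∈ S j ∧ eval (z ∘ some) (h j) * z none = eval (z ∘ some) (g j)}

-- deps: PUSH REGH CLS AFF GR BIJA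
def S_BIJ : Prop := ∀ (σ ι : Type) [Fintype ι] (r : σ → ι) (Γ : Set (ι → ℂ)),
  Function.Injective r → Con Γ → Set.InjOn (fun z => z ∘ r) Γ →
    Con ((fun z => z ∘ r) '' Γ) ∧
      ∀ φ : Fn σ, Additive φ → cls (push r φ) Γ = cls φ ((fun z => z ∘ r) '' Γ)

-- deps: PUSH REGH CLS BIJ
def S_TRANS : Prop := ∀ (τ τ' σ : Type) [Fintype τ] [Fintype τ'] [Fintype σ]
  (S : Set (τ ⊕ σ → ℂ)) (S' : Set (τ' ⊕ σ → ℂ)),
    (∀ R : (τ → ℂ) → (τ' → ℂ) → (σ → ℂ) → Prop,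
      Con {z : (τ ⊕ τ') ⊕ σ → ℂ | R (z ∘ Sum.inl ∘ Sum.inl) (z ∘ Sum.inl ∘ Sum.inr) (z ∘ Sum.inr)} →
      (∀ y y' x, R y y' x → Sum.elim y x ∈ S ∧ Sum.elim y' x ∈ S') →
      (∀ y x, Sum.elim y x ∈ S → ∃! y', R y y' x) → (∀ y' x, Sum.elim y' x ∈ S' → ∃! y, R y y' x) →
      Con S ∧ Con S' ∧ ∀ φ : Fn σ, Additive φ → intg φ S = intg φ S') ∧
    ∀ F : (τ' ⊕ σ → ℂ) → τ → ℂ, (∀ j, PolyFn fun z => F z j) → Con S' →
      Set.BijOn (fun z => Sum.elim (F z) (z ∘ Sum.inr)) S' S →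
      Con S ∧ ∀ φ : Fn σ, Additive φ → intg φ S = intg φ S'

-- deps: PUSH RESM REGH CLS AFF ONE
def S_LINE : Prop := ∀ (τ σ : Type) [Fintype τ] [Fintype σ] (φ : Fn σ) (S : Set (τ ⊕ σ → ℂ)),
  Additive φ → Con S →
    intg φ {z : (τ ⊕ Unit) ⊕ σ → ℂ | z ∘ Sum.map Sum.inl id ∈ S} = intg φ S

-- deps: PISO MULT DEC PUSH INT FOUR AFFM RESM REGH CLS AFF RESN TRANS
def S_LOCT : Prop := ∀ (τ σ : Type) [Fintype τ] [Fintype σ] (φ : Fn σ) (w : τ → ℤ)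
  (S : Set (τ ⊕ σ → ℂ)), Additive φ → Con S →
    (∀ u : ℂ, u ≠ 0 → ∀ z ∈ S, Sum.elim (fun j => u ^ w j * z (Sum.inl j)) (z ∘ Sum.inr) ∈ S) →
    intg φ S = intg φ (S ∩ {z | ∀ j, w j ≠ 0 → z (Sum.inl j) = 0})

-- deps: REG REGH CLS BOXH
def S_PROD : Prop := ∀ (ι σ : Type) [Finite ι] [Finite σ] (φ : Fn (ι ⊕ σ)) (φ₁ : Fn ι) (φ₂ : Fn σ)
  (S₁ : Set (ι → ℂ)) (S₂ : Set (σ → ℂ)), Additive φ → ProdType φ φ₁ φ₂ → Con S₁ → Con S₂ →
    cls φ {z | z ∘ Sum.inl ∈ S₁ ∧ z ∘ Sum.inr ∈ S₂} = cls φ₁ S₁ * cls φ₂ S₂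

-- deps: PUSH RESM REGH CLS AFF BOXP PROD
def S_PRODI : Prop := ∀ (τ₁ τ₂ σ₁ σ₂ : Type) [Fintype τ₁] [Fintype τ₂] [Fintype σ₁] [Fintype σ₂]
  (φ : Fn (σ₁ ⊕ σ₂)) (φ₁ : Fn σ₁) (φ₂ : Fn σ₂) (S₁ : Set (τ₁ ⊕ σ₁ → ℂ)) (S₂ : Set (τ₂ ⊕ σ₂ → ℂ)),
  Additive φ → Additive φ₁ → Additive φ₂ → ProdType φ φ₁ φ₂ → Con S₁ → Con S₂ →
    intg φ {z : (τ₁ ⊕ τ₂) ⊕ σ₁ ⊕ σ₂ → ℂ | z ∘ Sum.map Sum.inl Sum.inl ∈ S₁ ∧
      z ∘ Sum.map Sum.inr Sum.inr ∈ S₂} = intg φ₁ S₁ * intg φ₂ S₂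

-- deps: PUSH AFFM RESM REGH CLS AFF
def S_FUB : Prop := ∀ (τ σ : Type) [Fintype τ] [Fintype σ] (S : Set (τ ⊕ σ → ℂ)), Con S →
  (∀ (ν σ₀ : Type) [Fintype ν] [Fintype σ₀] (e : ν ⊕ σ₀ ≃ σ) (φ : Fn σ₀), Additive φ →
    intg (fun N B Z => push Sum.inr φ (N.res e) B Z) S =
      intg φ {z : (τ ⊕ ν) ⊕ σ₀ → ℂ | Sum.elim (z ∘ Sum.inl ∘ Sum.inl)
        (Sum.elim (z ∘ Sum.inl ∘ Sum.inr) (z ∘ Sum.inr) ∘ e.symm) ∈ S}) ∧
  ∀ [DecidableEq σ] (γ δ : Matrix σ σ ℂ) (φ : Fn σ), Additive φ → γ * δ = 1 → δ * γ = 1 →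
    intg (fun N B Z => φ (N.aff γ δ 0) B Z) S =
      intg φ {z | Sum.elim (z ∘ Sum.inl) (δ.mulVec (z ∘ Sum.inr)) ∈ S}

-- deps: DIM PUSH REG CLS TRANS LOCT
def S_CHI : Prop := ∀ (τ : Type) [Fintype τ],
  chi' (∅ : Set (τ → ℂ)) = 0 ∧ (∀ y : τ → ℂ, chi' {y} = 1) ∧
  (∀ S T : Set (τ → ℂ), Con S → Con T → Disjoint S T → chi' (S ∪ T) = chi' S + chi' T) ∧
  (∀ (α : Type) [Fintype α] (S : α → Set (τ → ℂ)), (∀ a, Con (S a)) →
    Pairwise (fun a b => Disjoint (S a) (S b)) → chi' (⋃ a, S a) = ∑ a, chi' (S a)) ∧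
  (∀ (τ' : Type) [Fintype τ'] (S : Set (τ → ℂ)) (S' : Set (τ' → ℂ))
    (R : (τ → ℂ) → (τ' → ℂ) → Prop), Con {z : τ ⊕ τ' → ℂ | R (z ∘ Sum.inl) (z ∘ Sum.inr)} →
      (∀ y y', R y y' → y ∈ S ∧ y' ∈ S') → (∀ y ∈ S, ∃! y', R y y') → (∀ y' ∈ S', ∃! y, R y y') →
      chi' S = chi' S') ∧
  (∀ (τ' : Type) [Fintype τ'] (S : Set (τ → ℂ)) (S' : Set (τ' → ℂ)) (F : (τ' → ℂ) → τ → ℂ),
    (∀ j, PolyFn fun z => F z j) → Con S' → Set.BijOn F S' S → chi' S = chi' S') ∧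
  ∀ (w : τ → ℤ) (S : Set (τ → ℂ)), Con S →
    (∀ u : ℂ, u ≠ 0 → ∀ z ∈ S, (fun j => u ^ w j * z j) ∈ S) →
    chi' S = chi' (S ∩ {z | ∀ j, w j ≠ 0 → z j = 0})

-- deps: HSUB DIM PUSH IPERM IADD RESM REGH CLS AFF ONE TRANS
def S_ECH : Prop := Additive expFn ∧ ∀ (τ : Type) [Fintype τ] (F : (τ → ℂ) → ℂ), PolyFn F →
  (∀ S T : Set (τ → ℂ), Con S → Con T → Disjoint S T → ech (S ∪ T) F = ech S F + ech T F) ∧
  (∀ (α : Type) [Fintype α] (S : α → Set (τ → ℂ)), (∀ a, Con (S a)) →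
    Pairwise (fun a b => Disjoint (S a) (S b)) → ech (⋃ a, S a) F = ∑ a, ech (S a) F) ∧
  (∀ S : Set (τ → ℂ), Con S → (∀ y ∈ S, F y = 0) → ech S F = chi' S) ∧
  ∀ (S : Set (τ → ℂ)) (v : (τ → ℂ) → τ → ℂ) (e : (τ → ℂ) → ℂ), Con S →
    (∀ j, PolyFn fun y => v y j) → PolyFn e →
    (∀ y ∈ S, e y ≠ 0 ∧ ∀ u : ℂ, y + u • v y ∈ S ∧ v (y + u • v y) = v y ∧
      e (y + u • v y) = e y ∧ F (y + u • v y) = F y + u * e y) → ech S F = 0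

-- deps: HSUB DIM PUSH IPERM IADD AFFM RESM REGH CLS AFF ONE
def S_EXPL : Prop := ∀ (τ : Type) [Fintype τ] (c : τ → ℂ) (S : Set (τ → ℂ)), Con S →
  cls (fun N B Z => push (Empty.elim : Empty → τ) WM.dim
    (N.ops N.X fun t => N.D t - c t • (1 : Module.End ℂ N.V)) B Z) S = ech S fun y => ∑ t, c t * y t

-- deps: PISO HSUB DIM PUSH RESM BOXH BOXP
def S_KAP : Prop := ∀ (σ : Type) [Fintype σ] (w : σ → ℤ) (Y : σ ⊕ σ → ℂ),
  (∀ N : WM σ, N.IsW → (N.kt w Y).IsW) ∧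
  (∀ (N : WM σ) B Z, Hol Set.univ N B Z → Hol Set.univ (N.kt w Y) B Z) ∧ Additive (kap w Y) ∧
  (∀ (σ' : Type) [Fintype σ'] (e : σ' ≃ σ) (N : WM σ), N.Holo →
    kap (w ∘ e) (Y ∘ Sum.map e e) (N.res e) ⊥ ⊤ = kap w Y N ⊥ ⊤) ∧
  ∀ (σ' : Type) [Fintype σ'] (w' : σ' → ℤ) (Y' : σ' ⊕ σ' → ℂ),
    ProdType (kap (Sum.elim w w') (Sum.elim (Sum.elim (Y ∘ Sum.inl) (Y' ∘ Sum.inl))
      (Sum.elim (Y ∘ Sum.inr) (Y' ∘ Sum.inr)))) (kap w Y) (kap w' Y')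

-- deps: HSUB DIM PUSH AFFM RESM REGH CLS AFF RESN TRANS ECH EXPL KAP
def S_ALINK : Prop := ∀ (τ σ : Type) [Fintype τ] [Fintype σ] (w : σ → ℤ) (Y : σ ⊕ σ → ℂ)
  (S : Set (τ ⊕ σ → ℂ)), Con S → intg (kap w Y) S =
    (-1) ^ (Finset.univ.filter fun s => w s ≤ 0).card *
      ech (S ∩ {z | ∀ s, w s ≤ 0 → z (Sum.inr s) = Y (Sum.inl s)})
        fun z => ∑ s, if w s ≤ 0 then 0 else Y (Sum.inr s) * z (Sum.inr s)

end Pool.Agent.P.MP_52ab5a_al
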