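import Pool.Agent.P.MP_52ab5a_al.K.Iface
import Pool.Agent.P.MP_52ab5a_al.A.Iface

/-! Step AFF of the open orbit project. -/

namespace Pool.Agent.P.MP_52ab5a_al

open MvPolynomial WM

namespace AffAux

variable {ι σ : Type} [Fintype ι] [Fintype σ] [DecidableEq ι] [DecidableEq σ]

/-- Pull back along `x ↦ δ (x - a)`. -/
noncomputable def tmap (δ : Matrix ι σ ℂ) (a : σ → ℂ) : MvPolynomial ι ℂ →ₐ[ℂ] MvPolynomial σ ℂ :=
  aeval fun t => ∑ s, δ t s • (X s - C (a s))

/-- Pull back along `y ↦ γ y + a`. -/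
noncomputable def umap (γ : Matrix σ ι ℂ) (a : σ → ℂ) : MvPolynomial σ ℂ →ₐ[ℂ] MvPolynomial ι ℂ :=
  aeval fun s => ∑ t, γ s t • X t + C (a s)

omit [DecidableEq σ] in
theorem umap_tmap (γ : Matrix σ ι ℂ) (δ : Matrix ι σ ℂ) (a : σ → ℂ) (h : δ * γ = 1)
    (f : MvPolynomial ι ℂ) : umap γ a (tmap δ a f) = f := by
  have : (umap γ a).comp (tmap δ a) = AlgHom.id ℂ _ := by
    refine MvPolynomial.algHom_ext fun t => ?_
    simp only [umap, tmap, AlgHom.comp_apply, aeval_X, map_sum, map_smul, map_sub, aeval_C,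
      algebraMap_eq, add_sub_cancel_right, AlgHom.id_apply, Finset.smul_sum, smul_smul]
    rw [Finset.sum_comm]
    simp only [← Finset.sum_smul, ← Matrix.mul_apply, h, Matrix.one_apply]
    simp
  exact DFunLike.congr_fun this f

omit [DecidableEq ι] in
theorem tmap_umap (γ : Matrix σ ι ℂ) (δ : Matrix ι σ ℂ) (a : σ → ℂ) (h : γ * δ = 1)
    (g : MvPolynomial σ ℂ) : tmap δ a (umap γ a g) = g := by
  have : (tmap δ a).comp (umap γ a) = AlgHom.id ℂ _ := by
    refine MvPolynomial.algHom_ext fun t => ?_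
    simp only [umap, tmap, AlgHom.comp_apply, aeval_X, map_sum, map_smul, map_add, aeval_C,
      algebraMap_eq, AlgHom.id_apply, Finset.smul_sum, smul_smul]
    rw [Finset.sum_comm]
    simp only [← Finset.sum_smul, ← Matrix.mul_apply, h, Matrix.one_apply]
    simp
  exact DFunLike.congr_fun this g

omit [Fintype ι] [DecidableEq ι] [DecidableEq σ] in
theorem eval_tmap (δ : Matrix ι σ ℂ) (a x : σ → ℂ) (f : MvPolynomial ι ℂ) :
    eval x (tmap δ a f) = eval (δ.mulVec (x - a)) f := by
  have : (aeval x : MvPolynomial σ ℂ →ₐ[ℂ] ℂ).comp (tmap δ a) = aeval (δ.mulVec (x - a)) := by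
    refine MvPolynomial.algHom_ext fun t => ?_
    simp [tmap, Matrix.mulVec, dotProduct]
  exact DFunLike.congr_fun this f

theorem one (hREG : S_REG) (hREGH : S_REGH) (φ : Fn σ) (hφ : Additive φ) (γ : Matrix σ ι ℂ)
    (δ : Matrix ι σ ℂ) (a : σ → ℂ) (h1 : γ * δ = 1) (h2 : δ * γ = 1) (f : MvPolynomial ι ℂ) :
    φ ((reg f).aff γ δ a) ⊥ ⊤ = φ (reg (tmap δ a f)) ⊥ ⊤ := by
  obtain ⟨⟨d, hd, hd'⟩, -, -⟩ := hREG ι f
  let j : MvPolynomial σ ℂ →ₐ[ℂ] Localization.Away f :=
    (IsScalarTower.toAlgHom ℂ (MvPolynomial ι ℂ) (Localization.Away f)).comp (umap γ a)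
  have hj : ∀ g, j g = algebraMap (MvPolynomial ι ℂ) (Localization.Away f) (umap γ a g) :=
    fun _ => rfl
  let d' : σ → Derivation ℂ (Localization.Away f) (Localization.Away f) := fun s => ∑ t, δ t s • d t
  have hd2 : ∀ s v, d' s v = ∑ t, δ t s • d t v := by
    intro s v
    have : ∀ A : Finset ι, (∑ t ∈ A, δ t s • d t) v = ∑ t ∈ A, δ t s • d t v := by
      intro A
      induction A using Finset.induction_on with
      | empty => simp
      | insert t A ht ih => rw [Finset.sum_insert ht, Finset.sum_insert ht, Derivation.add_apply, ih]; rfl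
    exact this Finset.univ
  have hdj : ∀ s s', d' s (j (X s')) = algebraMap ℂ _ ((γ * δ) s' s) := by
    intro s s'
    rw [hd2, hj, Matrix.mul_apply, map_sum]
    refine Finset.sum_congr rfl fun t _ => ?_
    rw [hd']
    have : pderiv t (umap γ a (X s')) = C (γ s' t) := by
      simp [umap, Pi.single_apply, smul_eq_C_mul]
    rw [this, mul_comm, map_mul, Algebra.smul_def]
    rfl
  obtain ⟨hW, hI⟩ := (hREG σ (tmap δ a f)).2.2 (Localization.Away f) j d'
    (by rw [hj, umap_tmap γ δ a h2]; exact IsLocalization.Away.algebraMap_isUnit f)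
    (fun z => by
      obtain ⟨k, g, hg⟩ := IsLocalization.Away.surj f z
      refine ⟨k, tmap δ a g, ?_⟩
      rw [hj, hj, umap_tmap γ δ a h2, umap_tmap γ δ a h2, mul_comm, hg])
    (fun g hg => by
      rw [hj] at hg
      obtain ⟨⟨_, k, rfl⟩, hk⟩ := (IsLocalization.map_eq_zero_iff (Submonoid.powers f) _ _).1 hg
      refine ⟨k, ?_⟩
      have := congrArg (tmap δ a) hk
      rwa [map_mul, map_pow, tmap_umap γ δ a h1, map_zero] at this)
    (fun s => by rw [hdj, h1]; simp)
    (fun s t hst => by rw [hdj, h1, Matrix.one_apply_ne hst.symm]; simp)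
  have e1 : (ofDer (Localization.Away f)
      (fun s => algebraMap (MvPolynomial ι ℂ) (Localization.Away f) (X s)) d).aff γ δ a =
      ofDer (Localization.Away f) (fun s => j (X s)) d' := by
    unfold WM.aff WM.ops ofDer
    congr 1
    · funext s
      refine LinearMap.ext fun v => ?_
      simp only [hj, umap, aeval_X, map_add, map_sum, LinearMap.add_apply, LinearMap.sum_apply,
        LinearMap.smul_apply, LinearMap.mulLeft_apply, Module.End.one_apply, add_mul,
        Finset.sum_mul]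
      congr 1
      · refine Finset.sum_congr rfl fun t _ => ?_
        rw [smul_eq_C_mul, map_mul, Algebra.smul_def, mul_assoc]
        rfl
      · rw [Algebra.smul_def]
        rfl
    · funext s
      refine LinearMap.ext fun v => ?_
      simp only [LinearMap.sum_apply, LinearMap.smul_apply]
      exact (hd2 s v).symm
  have e2 := congrArg (fun N : WM ι => φ (N.aff γ δ a) ⊥ ⊤) hd
  have e3 := congrArg (fun N : WM σ => φ N ⊥ ⊤) e1
  exact e2.trans (e3.trans (hφ.iso _ _ _ _ _ _ (hREGH σ _) hW hI).symm)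

theorem first (hREG : S_REG) (hREGH : S_REGH) (hCLS : S_CLS) (φ : Fn σ) (S : Set (ι → ℂ))
    (hφ : Additive φ) (hS : Con S) (γ : Matrix σ ι ℂ) (δ : Matrix ι σ ℂ) (a : σ → ℂ)
    (h1 : γ * δ = 1) (h2 : δ * γ = 1) :
    cls (fun N B Z => φ (N.aff γ δ a) B Z) S = cls φ {x | δ.mulVec (x - a) ∈ S} := by
  classical
  have hp : IsPres {x | δ.mulVec (x - a) ∈ S} (Finsupp.mapDomain (tmap δ a) (pres S)) := by
    refine isPres_iff.2 fun x => ?_
    have := isPres_iff.1 hS.isPres (δ.mulVec (x - a))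
    refine Eq.trans ?_ this
    unfold ev
    rw [Finsupp.sum_mapDomain_index (by simp) (by intro b m n; split_ifs <;> simp)]
    simp only [eval_tmap]
  rw [(hCLS σ).1 φ _ _ hφ hp,
    Finsupp.sum_mapDomain_index (by simp) (by intro b m n; ring)]
  unfold cls
  simp only [one hREG hREGH φ hφ γ δ a h1 h2]

end AffAux

open AffAux in
theorem p_AFF (hREG : S_REG) (hREGH : S_REGH) (hCLS : S_CLS) (hAFFM : S_AFFM) (hRESM : S_RESM) :
    S_AFF := by
  have _ := hAFFM
  have _ := hRESM
  intro ι σ _ _ _ _ φ S hφ hS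
  refine ⟨first hREG hREGH hCLS φ S hφ hS, fun e => ?_⟩
  let γ : Matrix σ ι ℂ := Matrix.of fun s t => if e s = t then 1 else 0
  let δ : Matrix ι σ ℂ := Matrix.of fun t s => if e s = t then 1 else 0
  have h1 : γ * δ = 1 := by
    ext s s'
    simp [γ, δ, Matrix.mul_apply, Matrix.one_apply, eq_comm]
  have h2 : δ * γ = 1 := by
    ext t t'
    simp only [γ, δ, Matrix.mul_apply, Matrix.of_apply, Matrix.one_apply]
    rw [Finset.sum_eq_single (e.symm t)]
    · simp
    · intro s _ hs
      rw [if_neg, zero_mul]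
      intro h
      exact hs (by rw [← h]; simp)
    · simp
  have h3 : ∀ N : WM ι, N.aff γ δ 0 = N.res e := by
    intro N
    unfold WM.aff WM.res
    congr 1
    · funext s
      simp [γ]
    · funext s
      simp [δ]
  have h4 : ∀ x : σ → ℂ, δ.mulVec (x - 0) = x ∘ e.symm := by
    intro x
    funext t
    simp only [δ, Matrix.mulVec, dotProduct, Matrix.of_apply, sub_zero, Function.comp]
    rw [Finset.sum_eq_single (e.symm t)]
    · simp
    · intro s _ hs
      rw [if_neg, zero_mul]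
      intro h
      exact hs (by rw [← h]; simp)
    · simp
  have := first hREG hREGH hCLS φ S hφ hS γ δ 0 h1 h2
  simp only [h4] at this
  rw [← this]
  unfold cls
  refine Finsupp.sum_congr fun f _ => ?_
  exact congrArg _ (congrArg (fun N : WM σ => φ N ⊥ ⊤) (h3 (reg f))).symm

end Pool.Agent.P.MP_52ab5a_al
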