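import Pool.Agent.P.MP_52ab5a_al.K.Iface
import Pool.Agent.P.MP_52ab5a_al.A.Iface

/-! Step ALINK of the open orbit project. -/

namespace Pool.Agent.P.MP_52ab5a_al

open MvPolynomial WM

namespace AlinkAux

theorem iter_append {ι σ₁ σ₂ : Type} (N : WM ι) (X₁ D₁ : σ₁ → Module.End ℂ N.V)
    (X₂ D₂ : σ₂ → Module.End ℂ N.V) (φ : Fn σ₁) (ψ : Fn σ₂) (l₂ : List (Module.End ℂ N.V))
    (h : ∀ B Z, ψ (N.ops X₂ D₂) B Z = iter φ (N.ops X₁ D₁) l₂ B Z) (l₁ : List (Module.End ℂ N.V)) :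
    ∀ B Z, iter ψ (N.ops X₂ D₂) l₁ B Z = iter φ (N.ops X₁ D₁) (l₁ ++ l₂) B Z := by
  induction l₁ with
  | nil => exact h
  | cons T l ih => intro B Z; simp only [List.cons_append, iter, ih]

theorem iter_dim {ι : Type} (N : WM ι) (X₁ D₁ X₂ D₂ : Empty → Module.End ℂ N.V)
    (l : List (Module.End ℂ N.V)) (B Z : Submodule ℂ N.V) :
    iter WM.dim (N.ops X₁ D₁) l B Z = iter WM.dim (N.ops X₂ D₂) l B Z := by
  rw [Subsingleton.elim X₁ X₂, Subsingleton.elim D₁ D₂]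

theorem push_dim {ι : Type} [Fintype ι] (N : WM ι) (X₁ D₁ X₂ D₂ : ι → Module.End ℂ N.V)
    (h : D₁ = D₂) (B Z : Submodule ℂ N.V) :
    push (Empty.elim : Empty → ι) WM.dim (N.ops X₁ D₁) B Z =
      push (Empty.elim : Empty → ι) WM.dim (N.ops X₂ D₂) B Z := by
  subst h
  exact iter_dim N _ _ _ _ _ B Z

theorem push_eq {σ ι : Type} [Fintype ι] (r : σ → ι) : ∃ L : List ι, L.Nodup ∧
    (∀ t, t ∈ L ↔ t ∉ Set.range r) ∧
    ∀ φ N B Z, push r φ N B Z = iter φ (N.res r) (L.map N.D) B Z := by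
  refine ⟨_, ?_, ?_, fun _ _ _ _ => rfl⟩
  exacts [Finset.nodup_toList _, fun t => by simp]

theorem push_kap (hDIM : S_DIM) (hPUSH : S_PUSH) {τ σ : Type} [Fintype τ] [Fintype σ]
    (w : σ → ℤ) (Y : σ ⊕ σ → ℂ) (N : WM (τ ⊕ σ)) (X₁ D₁ X₂ D₂ : τ ⊕ σ → Module.End ℂ N.V)
    (hol : (N.ops X₂ D₂).Holo) (h1 : ∀ t, D₁ (Sum.inl t) = D₂ (Sum.inl t))
    (h2 : ∀ s, (((N.ops X₁ D₁).res Sum.inr).kt w Y).D s = D₂ (Sum.inr s)) :
    push Sum.inr (kap w Y) (N.ops X₁ D₁) ⊥ ⊤ =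
      push (Empty.elim : Empty → τ ⊕ σ) WM.dim (N.ops X₂ D₂) ⊥ ⊤ := by
  obtain ⟨L₁, n₁, m₁, p₁⟩ := push_eq (Sum.inr : σ → τ ⊕ σ)
  obtain ⟨L₂, n₂, m₂, p₂⟩ := push_eq (Empty.elim : Empty → σ)
  have e₁ : L₁.map D₁ = L₁.map D₂ := List.map_congr_left fun t ht => by
    rcases t with t | t
    exacts [h1 t, absurd ⟨t, rfl⟩ ((m₁ _).1 ht)]
  rw [(hPUSH Empty (τ ⊕ σ) Empty.elim fun a => a.elim).2.1 WM.dim (L₁ ++ L₂.map Sum.inr)
    (hDIM Empty).1 ?_ ?_ _ _ _ hol, List.map_append, List.map_map, p₁]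
  · refine (congrArg (fun l => iter (kap w Y) ((N.ops X₁ D₁).res Sum.inr) l ⊥ ⊤) e₁).trans
      (iter_append N _ _ _ _ WM.dim (kap w Y) (L₂.map (D₂ ∘ Sum.inr)) (fun B Z => ?_) _ ⊥ ⊤)
    have e₂ : D₂ ∘ Sum.inr = (((N.ops X₁ D₁).res Sum.inr).kt w Y).D := funext fun s => (h2 s).symm
    rw [e₂]
    exact (p₂ _ _ _ _).trans (iter_dim N _ _ _ _ _ B Z)
  · refine List.nodup_append.2 ⟨n₁, n₂.map Sum.inr_injective, fun a ha b hb e => ?_⟩
    obtain ⟨s, -, rfl⟩ := List.mem_map.1 hb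
    exact (m₁ a).1 ha ⟨s, e.symm⟩
  · intro t
    refine iff_of_true (List.mem_append.2 ?_) (by simp)
    rcases t with t | t
    exacts [Or.inl ((m₁ _).2 (by simp)), Or.inr (List.mem_map_of_mem ((m₂ t).2 (by simp)))]

theorem main (hDIM : S_DIM) (hPUSH : S_PUSH) (hCLS : S_CLS) (hAFF : S_AFF) (hRESN : S_RESN)
    (hTRANS : S_TRANS) (hECH : S_ECH) (hEXPL : S_EXPL) (hKAP : S_KAP) {ι : Type} [Fintype ι]
    (w : ι → ℤ) (Y : ι ⊕ ι → ℂ) (S : Set (ι → ℂ)) (hS : Con S) : cls (kap w Y) S =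
    (-1) ^ (Finset.univ.filter fun s => w s ≤ 0).card *
      ech (S ∩ {z | ∀ s, w s ≤ 0 → z s = Y (Sum.inl s)})
        fun z => ∑ s, if w s ≤ 0 then 0 else Y (Sum.inr s) * z s := by
  classical
  let e : {s // w s ≤ 0} ⊕ {s // ¬w s ≤ 0} ≃ ι := Equiv.sumCompl fun s => w s ≤ 0
  let a : ι → ℂ := fun s => if w s ≤ 0 then -Y (Sum.inl s) else 0
  let Y₀ : ι ⊕ ι → ℂ := Sum.elim 0 (Y ∘ Sum.inr)
  let c : {s // ¬w s ≤ 0} → ℂ := fun r => Y (Sum.inr r.1)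
  let G : ({s // ¬w s ≤ 0} → ℂ) → ι → ℂ := fun y s =>
    if h : w s ≤ 0 then Y (Sum.inl s) else y ⟨s, h⟩
  have hG : ∀ s, PolyFn fun y => G y s := fun s =>
    PolyFn.dite _ (fun _ => PolyFn.const _) fun _ => PolyFn.coord _
  have s1 : kap w Y = fun N B Z => kap w Y₀ (N.aff 1 1 a) B Z := by
    funext N B Z
    refine push_dim N _ _ _ _ (funext fun s => ?_) B Z
    by_cases h : w s ≤ 0 <;> simp [h, a, Y₀, Matrix.one_apply, sub_eq_add_neg]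
  have c1 : Con {x : ι → ℂ | (1 : Matrix ι ι ℂ).mulVec (x - a) ∈ S} :=
    hS.preimage fun s => by
      simpa only [Matrix.one_mulVec, Pi.sub_apply] using (PolyFn.coord s).sub (PolyFn.const (a s))
  have c2 := c1.comp e.symm
  have e3 : ∀ y : {s // ¬w s ≤ 0} → ℂ, (1 : Matrix ι ι ℂ).mulVec
      (Sum.elim (0 : {s // w s ≤ 0} → ℂ) y ∘ e.symm - a) = G y := fun y => by
    funext s
    rw [Matrix.one_mulVec]
    by_cases h : w s ≤ 0
    · simp [e, a, G, h, Equiv.sumCompl_symm_apply_of_pos (p := fun s => w s ≤ 0) h]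
    · simp [e, a, G, h, Equiv.sumCompl_symm_apply_of_neg (p := fun s => w s ≤ 0) h]
  have s2 : (kap (fun _ => 1) (Sum.elim c c) : Fn {s // ¬w s ≤ 0}) = fun N B Z =>
      push (Empty.elim : Empty → _) WM.dim
        (N.ops N.X fun t => N.D t - c t • (1 : Module.End ℂ N.V)) B Z := by
    funext N B Z
    exact push_dim N _ _ _ _ (funext fun s => by simp) B Z
  rw [s1, (hAFF ι ι _ S (hKAP ι w Y₀).2.2.1 hS).1 1 1 a (one_mul _) (one_mul _),
    (hCLS ι).2.2.2.2.1 _ (fun N B Z => kap (w ∘ e) (Y₀ ∘ Sum.map e e) (N.res e) B Z) _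
      fun N hN => ((hKAP ι w Y₀).2.2.2.1 _ e N hN).symm,
    (hAFF ι _ _ _ (hKAP _ _ _).2.2.1 c1).2 e,
    (hCLS _).2.2.2.2.1 (kap (w ∘ e) (Y₀ ∘ Sum.map e e))
      (fun N B Z => push Sum.inr (kap (fun _ => 1) (Sum.elim c c)) N.fou B Z) _
      fun N hN => (push_kap hDIM hPUSH _ _ N _ _ _ _ ((hKAP _ _ _).2.1 N _ _ hN) (fun t => ?_)
        fun r => ?_).symm,
    hRESN _ _ _ _ (hKAP _ _ _).2.2.1 c2, Fintype.card_subtype, s2, hEXPL _ c _ ?_]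
  · congr 1
    simp only [Set.mem_ofPred_eq, e3]
    have sG : ∀ y, (∑ s, if w s ≤ 0 then 0 else Y (Sum.inr s) * G y s) = ∑ r, c r * y r := fun y => by
      rw [← e.sum_comp, Fintype.sum_sum_type]
      simp only [e, Equiv.sumCompl_apply_inl, Equiv.sumCompl_apply_inr]
      rw [Finset.sum_eq_zero fun j _ => if_pos j.2, zero_add]
      exact Finset.sum_congr rfl fun r _ => by simp only [G, c, if_neg r.2, dif_neg r.2]
    refine (((hTRANS ι {s // ¬w s ≤ 0} Unit _ _).2 (fun z => G (z ∘ Sum.inl))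
      (fun s => (hG s).comp fun _ => PolyFn.coord _) (Con.and ((hS.preimage hG).comp Sum.inl)
        (Con.eq (PolyFn.coord _) (PolyFn.sum _ fun r _ => (PolyFn.const _).mul (PolyFn.coord _))))
      ⟨?_, ?_, ?_⟩).2 expFn hECH.1).symm
    · rintro z ⟨h1, h2⟩
      exact ⟨⟨h1, fun s hs => dif_pos hs⟩, h2.trans (sG _).symm⟩
    · intro z _ z' _ h
      funext p
      rcases p with r | u
      · have := congrFun h (Sum.inl r.1)
        simpa only [Sum.elim_inl, G, dif_neg r.2, Function.comp_apply] using this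
      · exact congrFun h (Sum.inr u)
    · rintro y ⟨⟨h1, h2⟩, h3⟩
      have eG : G (fun r => y (Sum.inl r.1)) = y ∘ Sum.inl := funext fun s => by
        by_cases h : w s ≤ 0
        exacts [(dif_pos h).trans (h2 s h).symm, dif_neg h]
      refine ⟨Sum.elim (fun r => y (Sum.inl r.1)) (y ∘ Sum.inr), ⟨?_, ?_⟩, ?_⟩
      · change G (fun r => y (Sum.inl r.1)) ∈ S
        rw [eG]; exact h1
      · exact h3.trans (by rw [← eG]; exact sG fun r => y (Sum.inl r.1))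
      · funext p
        rcases p with s | u
        exacts [congrFun eG s, rfl]
  · simp only [Set.mem_ofPred_eq, e3]
    exact hS.preimage hG
  · simp [e, Y₀, t.2]
  · simp [e, Y₀, c, r.2]

end AlinkAux

open AlinkAux in
theorem p_ALINK (hHSUB : S_HSUB) (hDIM : S_DIM) (hPUSH : S_PUSH) (hAFFM : S_AFFM) (hRESM : S_RESM) (hREGH : S_REGH) (hCLS : S_CLS) (hAFF : S_AFF) (hRESN : S_RESN) (hTRANS : S_TRANS) (hECH : S_ECH) (hEXPL : S_EXPL) (hKAP : S_KAP) :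
    S_ALINK := by
  intro τ σ _ _ w Y S hS
  let Y' : (τ ⊕ σ) ⊕ τ ⊕ σ → ℂ := Sum.elim (Sum.elim 0 (Y ∘ Sum.inl)) (Sum.elim 0 (Y ∘ Sum.inr))
  rw [intg, (hCLS _).2.2.2.2.1 _ (kap (Sum.elim (fun _ => 1) w) Y') S fun N hN =>
    push_kap hDIM hPUSH w Y N N.X N.D _ _ ((hKAP _ _ _).2.1 N _ _ hN) (fun t => by simp [Y'])
      fun s => rfl, main hDIM hPUSH hCLS hAFF hRESN hTRANS hECH hEXPL hKAP _ _ S hS]
  congr 2
  · rw [Finset.card_filter, Finset.card_filter, Fintype.sum_sum_type,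
      Finset.sum_eq_zero fun t _ => if_neg (by simp), zero_add]
    rfl
  · ext z; simp [Y']
  · funext z; simp [Y', Fintype.sum_sum_type]

end Pool.Agent.P.MP_52ab5a_al
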