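import Pool.Agent.P.MP_52ab5a_al.K.Iface
import Pool.Agent.P.MP_52ab5a_al.A.Iface

/-! Step BIJ of the open orbit project. -/

namespace Pool.Agent.P.MP_52ab5a_al

open MvPolynomial WM

namespace BijAux

/-- The statement for one coordinate projection. -/
def Ok {σ ι : Type} [Fintype ι] (r : σ → ι) : Prop := ∀ Γ : Set (ι → ℂ), Con Γ →
  Set.InjOn (fun z => z ∘ r) Γ → Con ((fun z => z ∘ r) '' Γ) ∧
    ∀ φ : Fn σ, Additive φ → cls (push r φ) Γ = cls φ ((fun z => z ∘ r) '' Γ)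

theorem comp (hPUSH : S_PUSH) (hCLS : S_CLS) {σ ι ι' : Type} [Fintype ι] [Fintype ι'] {r : σ → ι}
    {r' : ι → ι'} (i : Function.Injective r) (i' : Function.Injective r') (h : Ok r) (h' : Ok r') :
    Ok (r' ∘ r) := by
  intro Γ hΓ hi
  obtain ⟨c1, e1⟩ := h' Γ hΓ fun a ha b hb e => hi ha hb (congrArg (· ∘ r) e)
  obtain ⟨c2, e2⟩ := h _ c1 (by
    rintro _ ⟨a, ha, rfl⟩ _ ⟨b, hb, rfl⟩ e
    rw [hi ha hb e])
  rw [Set.image_image] at c2 e2
  refine ⟨c2, fun φ hφ => ?_⟩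
  rw [(hCLS ι').2.2.2.2.1 _ _ Γ fun N hN => (hPUSH σ ι r i).2.2.1 φ ι' r' hφ i' N ⊥ ⊤ hN,
    e1 _ ((hPUSH σ ι r i).1 φ hφ), e2 φ hφ]
  rfl

theorem equiv (hPUSH : S_PUSH) (hCLS : S_CLS) (hAFF : S_AFF) {σ ι : Type} [Fintype ι] (e : σ ≃ ι) :
    Ok e := by
  classical
  intro Γ hΓ _
  have := Fintype.ofEquiv ι e.symm
  have h : (fun z => z ∘ e) '' Γ = {x | x ∘ e.symm ∈ Γ} := by
    ext x
    refine ⟨?_, fun hx => ⟨_, hx, by simp [Function.comp_def]⟩⟩
    rintro ⟨z, hz, rfl⟩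
    simpa [Function.comp_def] using hz
  rw [h]
  refine ⟨hΓ.comp _, fun φ hφ => ?_⟩
  rw [← (hAFF ι σ φ Γ hφ hΓ).2 e]
  exact (hCLS ι).2.2.2.2.1 _ _ Γ fun N _ => (hPUSH σ ι e e.injective).2.2.2.1 φ e.surjective N ⊥ ⊤

theorem one (hPUSH : S_PUSH) (hCLS : S_CLS) (hGR : S_GR) (hBIJA : S_BIJA) (ι : Type) [Fintype ι] :
    Ok (some : ι → Option ι) := by
  intro Γ hΓ hi
  obtain ⟨m, S, g, h, c, d, n, e⟩ := hBIJA ι Γ hΓ hi
  have im : (fun z => z ∘ some) '' Γ = ⋃ j, S j := by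
    ext x
    rw [e]
    simp only [Set.mem_image, Set.mem_iUnion, Set.mem_ofPred_eq]
    constructor
    · rintro ⟨z, ⟨j, hj, -⟩, rfl⟩
      exact ⟨j, hj⟩
    · rintro ⟨j, hj⟩
      exact ⟨fun o => o.elim (eval x (g j) / eval x (h j)) x,
        ⟨j, hj, mul_div_cancel₀ _ (n j x hj)⟩, rfl⟩
  have ev : ∀ p : MvPolynomial ι ℂ, PolyFn fun z : Option ι → ℂ => eval (z ∘ some) p := fun p =>
    (PolyFn.eval p).comp (G := fun z : Option ι → ℂ => z ∘ some) fun s => PolyFn.coord (some s)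
  rw [im]
  refine ⟨Con.iUnion c, fun φ hφ => ?_⟩
  rw [e, (hCLS ι).2.2.2.1 φ _ S hφ c d, (hCLS (Option ι)).2.2.2.1 _ _ _
    ((hPUSH ι _ some (Option.some_injective ι)).1 φ hφ)
    (fun j => ((c j).comp some).and (Con.eq ((ev _).mul (PolyFn.coord none)) (ev _)))
    fun j k hjk => Set.disjoint_left.2 fun z a b => Set.disjoint_left.1 (d hjk) a.1 b.1]
  exact Finset.sum_congr rfl fun j _ => hGR ι φ (S j) (g j) (h j) hφ (c j) (n j)

end BijAux

open BijAux in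
theorem p_BIJ (hPUSH : S_PUSH) (hREGH : S_REGH) (hCLS : S_CLS) (hAFF : S_AFF) (hGR : S_GR) (hBIJA : S_BIJA) :
    S_BIJ := by
  classical
  have key : ∀ (σ : Type) (n : ℕ) (ι : Type) [Fintype ι] (r : σ → ι), Fintype.card ι = n →
      Function.Injective r → Ok r := by
    intro σ n
    induction n using Nat.strong_induction_on with
    | _ n ih =>
      intro ι _ r hn hr
      by_cases hs : Function.Surjective r
      · exact equiv hPUSH hCLS hAFF (Equiv.ofBijective r ⟨hr, hs⟩)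
      · obtain ⟨t, ht⟩ : ∃ t, ∀ s, r s ≠ t := by simpa [Function.Surjective] using hs
        have i1 : Function.Injective fun s => (⟨r s, ht s⟩ : {u // u ≠ t}) := fun a b e =>
          hr (congrArg Subtype.val e)
        have i2 := Option.some_injective {u // u ≠ t}
        have h := comp hPUSH hCLS (i2.comp i1) (Equiv.optionSubtypeNe t).injective
          (comp hPUSH hCLS i1 i2 (ih _ (hn ▸ Fintype.card_subtype_lt (x := t) (by simp)) _ _ rfl i1)
            (one hPUSH hCLS hGR hBIJA _)) (equiv hPUSH hCLS hAFF _)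
        exact h
  exact fun σ ι _ r Γ hr => key σ _ ι r rfl hr Γ

end Pool.Agent.P.MP_52ab5a_al
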