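import Pool.Agent.P.MP_52ab5a_al.K.Iface

/-! Step BIJA of the open orbit project. -/

namespace Pool.Agent.P.MP_52ab5a_al

open MvPolynomial WM

namespace BijaAux

variable {ι : Type}

/-- The graph of a rational function over a set. -/
def piece (t : Set (ι → ℂ) × MvPolynomial ι ℂ × MvPolynomial ι ℂ) : Set (Option ι → ℂ) :=
  {z | z ∘ some ∈ t.1 ∧ eval (z ∘ some) t.2.2 * z none = eval (z ∘ some) t.2.1}

/-- Finite unions of graphs. -/
def Cov (Γ : Set (Option ι → ℂ)) : Prop :=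
  ∃ T : Set (Set (ι → ℂ) × MvPolynomial ι ℂ × MvPolynomial ι ℂ), T.Finite ∧
    (∀ t ∈ T, Con t.1 ∧ ∀ x ∈ t.1, eval x t.2.2 ≠ 0) ∧ Γ = ⋃ t ∈ T, piece t

theorem cov_empty : Cov (∅ : Set (Option ι → ℂ)) := ⟨∅, Set.finite_empty, by simp, by simp⟩

theorem Cov.union {A B : Set (Option ι → ℂ)} (hA : Cov A) (hB : Cov B) : Cov (A ∪ B) := by
  obtain ⟨T, h1, h2, rfl⟩ := hA
  obtain ⟨T', h1', h2', rfl⟩ := hB
  exact ⟨T ∪ T', h1.union h1', fun t ht => ht.elim (h2 t) (h2' t), (Set.biUnion_union _ _ _).symm⟩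

theorem cov_biUnion {α : Type} (s : Finset α) (A : α → Set (Option ι → ℂ))
    (h : ∀ a ∈ s, Cov (A a)) : Cov (⋃ a ∈ s, A a) := by
  classical
  induction s using Finset.induction_on with
  | empty => simpa using cov_empty
  | insert a s _ ih =>
    rw [Finset.set_biUnion_insert]
    exact (h a (by simp)).union (ih fun b hb => h b (by simp [hb]))

theorem con_zero [Finite ι] (I : Ideal (MvPolynomial ι ℂ)) :
    Con {x : ι → ℂ | ∀ q ∈ I, eval x q = 0} := by
  obtain ⟨s, rfl⟩ := (isNoetherianRing_iff_ideal_fg _).1 inferInstance I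
  have : {x : ι → ℂ | ∀ q ∈ Ideal.span (s : Set (MvPolynomial ι ℂ)), eval x q = 0} =
      {x | ∀ q : s, eval x q.1 = 0} := by
    ext x
    refine ⟨fun h q => h q.1 (Ideal.subset_span q.2), fun h => ?_⟩
    have : Ideal.span (s : Set (MvPolynomial ι ℂ)) ≤ RingHom.ker (eval x) :=
      Ideal.span_le.2 fun q hq => h ⟨q, hq⟩
    exact fun q hq => this hq
  rw [this]
  exact Con.all fun q => Con.eq_zero (PolyFn.eval q.1)

theorem zero_sup {x : ι → ℂ} {I : Ideal (MvPolynomial ι ℂ)} {a : MvPolynomial ι ℂ} :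
    (∀ q ∈ I ⊔ Ideal.span {a}, eval x q = 0) ↔ (∀ q ∈ I, eval x q = 0) ∧ eval x a = 0 := by
  refine ⟨fun h => ⟨fun q hq => h q (Ideal.mem_sup_left hq),
    h a (Ideal.mem_sup_right (Ideal.mem_span_singleton_self a))⟩, fun h => ?_⟩
  have : I ⊔ Ideal.span {a} ≤ RingHom.ker (eval x) :=
    sup_le (fun q hq => h.1 q hq) ((Ideal.span_singleton_le_iff_mem _).2 h.2)
  exact fun q hq => this hq

theorem lt_sup {I : Ideal (MvPolynomial ι ℂ)} {a : MvPolynomial ι ℂ} (ha : a ∉ I) :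
    I < I ⊔ Ideal.span {a} :=
  lt_of_le_of_ne le_sup_left fun e =>
    ha (e ▸ Ideal.mem_sup_right (Ideal.mem_span_singleton_self a))

theorem eval_opt (z : Option ι → ℂ) (f : MvPolynomial (Option ι) ℂ) :
    eval z f = ((optionEquivLeft ℂ ι f).map (eval (z ∘ some))).eval (z none) := by
  rw [← optionEquivLeft_elim_eval]
  congr 2
  funext x
  cases x <;> rfl

theorem cov_basic [Finite ι] (hGEN : S_GEN) {α : Type} [Finite α]
    (f : α → MvPolynomial (Option ι) ℂ) (e : MvPolynomial (Option ι) ℂ)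
    (hi : Set.InjOn (fun z : Option ι → ℂ => z ∘ some)
      {z | (∀ a, eval z (f a) = 0) ∧ eval z e ≠ 0}) (I : Ideal (MvPolynomial ι ℂ)) :
    Cov {z | ((∀ a, eval z (f a) = 0) ∧ eval z e ≠ 0) ∧ ∀ q ∈ I, eval (z ∘ some) q = 0} := by
  induction I using WellFoundedGT.induction with
  | ind I ih =>
  by_cases hp : I.IsPrime
  · obtain ⟨g, h, b, hh, hx⟩ := hGEN ι α I (fun a => optionEquivLeft ℂ ι (f a))
      (optionEquivLeft ℂ ι e) hp fun x _ y hy y' hy' => by
        have k : ∀ y : ℂ, y ∈ {y : ℂ | (∀ a, ((optionEquivLeft ℂ ι (f a)).map (eval x)).eval y = 0) ∧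
            ((optionEquivLeft ℂ ι e).map (eval x)).eval y ≠ 0} →
            (fun o : Option ι => o.elim y x) ∈
              {z : Option ι → ℂ | (∀ a, eval z (f a) = 0) ∧ eval z e ≠ 0} := fun y hy =>
          ⟨fun a => (optionEquivLeft_elim_eval ℂ ι x y (f a)).trans (hy.1 a),
            fun h0 => hy.2 ((optionEquivLeft_elim_eval ℂ ι x y e).symm.trans h0)⟩
        exact congrFun (hi (k y hy) (k y' hy') rfl) none
    have h1 : Cov (piece ({x | (∀ q ∈ I, eval x q = 0) ∧ eval x h ≠ 0 ∧ b}, g, h)) :=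
      ⟨{_}, Set.finite_singleton _, by
        rintro _ rfl
        exact ⟨(con_zero I).and ((Con.ne_zero (PolyFn.eval h)).and (Con.const b)),
          fun x hx => hx.2.1⟩, (Set.biUnion_singleton _ _).symm⟩
    convert h1.union (ih _ (lt_sup hh)) using 1
    ext z
    simp only [Set.mem_union, piece, Set.mem_ofPred_eq, zero_sup, eval_opt z]
    constructor
    · rintro ⟨h1, h2⟩
      by_cases h0 : eval (z ∘ some) h = 0
      · exact Or.inr ⟨h1, h2, h0⟩
      · have := (hx _ h2 h0 _).1 h1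
        exact Or.inl ⟨⟨h2, h0, this.1⟩, this.2⟩
    · rintro (⟨⟨h2, h0, hb⟩, h3⟩ | ⟨h1, h2, _⟩)
      · exact ⟨(hx _ h2 h0 _).2 ⟨hb, h3⟩, h2⟩
      · exact ⟨h1, h2⟩
  · rcases Ideal.not_isPrime_iff.1 hp with rfl | ⟨a, ha, b, hb, hab⟩
    · convert cov_empty (ι := ι) using 1
      ext z
      simp only [Set.mem_ofPred_eq, Set.mem_empty_iff_false, iff_false]
      intro h
      simpa using h.2 1 trivial
    · convert (ih _ (lt_sup ha)).union (ih _ (lt_sup hb)) using 1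
      ext z
      simp only [Set.mem_union, Set.mem_ofPred_eq, zero_sup]
      constructor
      · rintro ⟨h1, h2⟩
        have := h2 _ hab
        rw [map_mul, mul_eq_zero] at this
        exact this.imp (fun h => ⟨h1, h2, h⟩) fun h => ⟨h1, h2, h⟩
      · rintro (h | h) <;> exact ⟨h.1, h.2.1⟩

theorem cov_con [Finite ι] (hGEN : S_GEN) {Γ : Set (Option ι → ℂ)} (hΓ : Con Γ)
    (hi : Set.InjOn (fun z : Option ι → ℂ => z ∘ some) Γ) : Cov Γ := by
  classical
  obtain ⟨F, hF⟩ := hΓ.pattern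
  let A : Finset (MvPolynomial (Option ι) ℂ) → Set (Option ι → ℂ) := fun P =>
    {z | (∀ a : {f // f ∈ F \ P}, eval z a.1 = 0) ∧ eval z (∏ f ∈ P, f) ≠ 0}
  have := cov_biUnion (F.powerset.filter fun P => A P ⊆ Γ) A fun P hP => by
    have := cov_basic hGEN (fun a : {f // f ∈ F \ P} => a.1) (∏ f ∈ P, f)
      (hi.mono (Finset.mem_filter.1 hP).2) ⊥
    simpa [A] using this
  convert this using 1
  ext z
  simp only [Set.mem_iUnion, Finset.mem_filter, Finset.mem_powerset, exists_prop]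
  refine ⟨fun hz => ?_, fun ⟨P, hP, hz⟩ => hP.2 hz⟩
  have hA : ∀ y, y ∈ A (F.filter fun f => eval z f ≠ 0) ↔ ∀ f ∈ F, eval z f = 0 ↔ eval y f = 0 := by
    intro y
    simp only [A, Set.mem_ofPred_eq, map_prod, Finset.prod_ne_zero_iff, Subtype.forall,
      Finset.mem_sdiff, Finset.mem_filter]
    constructor
    · rintro ⟨h1, h2⟩ f hf
      exact ⟨fun h => h1 f ⟨hf, fun h' => h'.2 h⟩, fun h => by_contra fun h' => h2 f ⟨hf, h'⟩ h⟩
    · intro h
      exact ⟨fun f hf => (h f hf.1).1 (by_contra fun h' => hf.2 ⟨hf.1, h'⟩),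
        fun f hf h' => hf.2 ((h f hf.1).2 h')⟩
  exact ⟨_, ⟨Finset.filter_subset _ _, fun y hy => hF z y ((hA y).1 hy) hz⟩,
    (hA z).2 fun _ _ => Iff.rfl⟩

end BijaAux

open BijaAux in
theorem p_BIJA (hGEN : S_GEN) :
    S_BIJA := by
  intro ι _ Γ hΓ hi
  classical
  obtain ⟨T, hT, h2, hU⟩ := cov_con hGEN hΓ hi
  obtain ⟨m, u, hu⟩ := hT.fin_embedding
  have hm : ∀ j, u j ∈ T := fun j => hu ▸ Set.mem_range_self j
  refine ⟨m, fun j => {x | x ∈ (u j).1 ∧ ∀ k, k < j → x ∉ (u k).1}, fun j => (u j).2.1,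
    fun j => (u j).2.2, fun j => ?_, fun j k hjk => ?_, fun j x hx => (h2 _ (hm j)).2 x hx.1, ?_⟩
  · exact Con.and (h2 _ (hm j)).1 (Con.all fun k => Con.imp' fun _ => Con.not (h2 _ (hm k)).1)
  · refine Set.disjoint_left.2 fun x hx hx' => ?_
    rcases lt_or_gt_of_ne hjk with h | h
    exacts [hx'.2 j h hx.1, hx.2 k h hx'.1]
  · have hsub : ∀ j, piece (u j) ⊆ Γ := fun j => hU ▸ Set.subset_biUnion_of_mem (u := piece) (hm j)
    ext z
    simp only [Set.mem_iUnion, Set.mem_ofPred_eq]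
    refine ⟨fun hz => ?_, fun ⟨j, h1, h3⟩ => hsub j ⟨h1.1, h3⟩⟩
    have hne : (Finset.univ.filter fun j => z ∘ some ∈ (u j).1).Nonempty := by
      have hz' := hz
      rw [hU] at hz'
      obtain ⟨t, ht, hzt⟩ := Set.mem_iUnion₂.1 hz'
      rw [← hu] at ht
      obtain ⟨j, rfl⟩ := ht
      exact ⟨j, Finset.mem_filter.2 ⟨Finset.mem_univ _, hzt.1⟩⟩
    obtain ⟨j, hj, hmin⟩ := Finset.exists_min_image _ id hne
    have hj' := (Finset.mem_filter.1 hj).2
    refine ⟨j, ⟨hj', fun k hk hk' => ?_⟩, ?_⟩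
    · exact absurd (hmin k (Finset.mem_filter.2 ⟨Finset.mem_univ _, hk'⟩)) (not_le.2 hk)
    · have h0 := (h2 _ (hm j)).2 _ hj'
      have hz' : (fun o : Option ι => o.elim
          (eval (z ∘ some) (u j).2.1 / eval (z ∘ some) (u j).2.2) (z ∘ some)) ∈ piece (u j) :=
        ⟨hj', mul_div_cancel₀ _ h0⟩
      have := congrFun (hi hz (hsub j hz') rfl) none
      rw [this]
      exact mul_div_cancel₀ _ h0

end Pool.Agent.P.MP_52ab5a_al
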