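import Pool.Agent.P.MP_52ab5a_al.K.Iface
import Pool.Agent.P.MP_52ab5a_al.A.Iface

/-! Step CECH of the open orbit project. -/

namespace Pool.Agent.P.MP_52ab5a_al

open MvPolynomial WM

namespace CechAux

section sat

variable {R A : Type} [CommRing R] [CommRing A] [Algebra R A]

theorem up {B : Submodule R A} {g : R} {v : A} {k : ℕ} (h : g ^ k • v ∈ B) (m : ℕ) :
    g ^ (m + k) • v ∈ B := by
  rw [pow_add, mul_smul]; exact B.smul_mem _ h

/-- The saturation of a submodule. -/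
def sat (g : R) (B : Submodule R A) : Submodule R A where
  carrier := {v | ∃ k : ℕ, g ^ k • v ∈ B}
  add_mem' := by
    rintro v w ⟨k, hk⟩ ⟨m, hm⟩
    refine ⟨m + k, ?_⟩
    rw [smul_add]
    exact B.add_mem (up hk m) (by rw [add_comm]; exact up hm k)
  zero_mem' := ⟨0, by simp⟩
  smul_mem' := by
    rintro c v ⟨k, hk⟩
    exact ⟨k, by rw [smul_comm]; exact B.smul_mem c hk⟩

theorem le_sat (g : R) (B : Submodule R A) : B ≤ sat g B := fun v hv => ⟨0, by simpa using hv⟩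

theorem sat_mono (g : R) {B Z : Submodule R A} (h : B ≤ Z) : sat g B ≤ sat g Z :=
  fun _ ⟨k, hk⟩ => ⟨k, h hk⟩

theorem sat_inf (g : R) (B Z : Submodule R A) : sat g (B ⊓ Z) = sat g B ⊓ sat g Z := by
  refine le_antisymm (le_inf (sat_mono g inf_le_left) (sat_mono g inf_le_right)) ?_
  rintro v ⟨⟨k, hk⟩, ⟨m, hm⟩⟩
  exact ⟨m + k, up hk m, by rw [add_comm]; exact up hm k⟩

theorem sat_zero (B : Submodule R A) : sat (0 : R) B = ⊤ :=
  eq_top_iff.mpr fun v _ => ⟨1, by simp⟩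

theorem sat_sup {g : R} (hg : IsUnit (algebraMap R A g) ∨ g = 0) (B Z : Submodule R A) :
    sat g (B ⊔ Z) = sat g B ⊔ sat g Z := by
  refine le_antisymm ?_ (sup_le (sat_mono g le_sup_left) (sat_mono g le_sup_right))
  rcases hg with hg | rfl
  · rintro v ⟨k, hk⟩
    obtain ⟨b, hb, z, hz, e⟩ := Submodule.mem_sup.mp hk
    obtain ⟨u, hu⟩ := (hg.pow k).exists_right_inv
    have h1 : ∀ w, g ^ k • (u * w) = w := fun w => by
      rw [Algebra.smul_def, map_pow, ← mul_assoc, hu, one_mul]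
    refine Submodule.mem_sup.mpr ⟨u * b, ⟨k, by rwa [h1]⟩, u * z, ⟨k, by rwa [h1]⟩, ?_⟩
    rw [← mul_add, e, mul_smul_comm, h1]
  · simp [sat_zero]

theorem sat_sat (g g' : R) (B : Submodule R A) : sat g (sat g' B) = sat (g * g') B := by
  ext v
  constructor
  · rintro ⟨k, m, h⟩
    refine ⟨k + m, ?_⟩
    have e : (g * g') ^ (k + m) • v = (g ^ m * g' ^ k) • g' ^ m • g ^ k • v := by
      rw [smul_smul, smul_smul]; congr 1; ring
    rw [e]
    exact B.smul_mem _ h
  · rintro ⟨k, h⟩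
    exact ⟨k, k, by rwa [smul_smul, ← mul_pow, mul_comm]⟩

theorem sat_comm (g g' : R) (B : Submodule R A) : sat g (sat g' B) = sat g' (sat g B) := by
  rw [sat_sat, sat_sat, mul_comm]

theorem sat_base {α : Type} {h : R} {f : α → R} (hh : h ∈ (Ideal.span (Set.range f)).radical)
    {B Z : Submodule R A} (hle : B ≤ Z) (hZ : ∀ a, Z ≤ sat (f a) B) : sat h Z = sat h B := by
  refine le_antisymm ?_ (sat_mono h hle)
  have h1 : Z ≤ sat h B := fun v hv => by
    have h2 : Ideal.span (Set.range f) ≤ (B.colon {v}).radical := by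
      rw [Ideal.span_le]
      rintro _ ⟨a, rfl⟩
      obtain ⟨k, hk⟩ := hZ a hv
      exact ⟨k, Submodule.mem_colon_singleton.mpr hk⟩
    obtain ⟨k, hk⟩ := (Ideal.radical_le_radical_iff.mpr h2) hh
    exact ⟨k, Submodule.mem_colon_singleton.mp hk⟩
  rintro v ⟨k, hk⟩
  obtain ⟨m, hm⟩ := h1 hk
  exact ⟨m + k, by rwa [pow_add, mul_smul]⟩

theorem main {α : Type} {h : R} {f : α → R} (hh : h ∈ (Ideal.span (Set.range f)).radical)
    (hg : ∀ I : Finset α, IsUnit (algebraMap R A (h * ∏ a ∈ I, f a)) ∨ h * ∏ a ∈ I, f a = 0)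
    (P : Submodule R A → Prop) (ψ : Submodule R A → Submodule R A → ℤ)
    (p1 : ∀ B Z, P B → P Z → P (B ⊓ Z)) (p2 : ∀ B Z, P B → P Z → P (B ⊔ Z))
    (p3 : ∀ g B, P B → P (sat g B))
    (add : ∀ B Y Z, P B → P Y → P Z → B ≤ Y → Y ≤ Z → ψ B Z = ψ B Y + ψ Y Z)
    (iso : ∀ Y Z, P Y → P Z → ψ (Y ⊓ Z) Z = ψ Y (Y ⊔ Z)) (l : Finset α) :
    ∀ B Z, P B → P Z → B ≤ Z → (∀ a, a ∉ l → Z ≤ sat (f a) B) →
      ∑ I ∈ l.powerset, (-1) ^ I.card *
        ψ (sat (h * ∏ a ∈ I, f a) B) (sat (h * ∏ a ∈ I, f a) Z) = 0 := by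
  classical
  have key : ∀ g B Z, P B → P Z → B ≤ Z →
      ψ B Z - ψ (sat g B) (sat g Z) = ψ B (sat g B ⊓ Z) - ψ (sat g B ⊔ Z) (sat g Z) := by
    intro g B Z hB hZ hle
    rw [add B (sat g B ⊓ Z) Z hB (p1 _ _ (p3 g B hB) hZ) hZ (le_inf (le_sat g B) hle) inf_le_right,
      add (sat g B) (sat g B ⊔ Z) (sat g Z) (p3 g B hB) (p2 _ _ (p3 g B hB) hZ) (p3 g Z hZ)
        le_sup_left (sup_le (sat_mono g hle) (le_sat g Z)), iso _ _ (p3 g B hB) hZ]
    ring
  induction l using Finset.induction_on with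
  | empty =>
    intro B Z hB hZ hle H
    have h1 := add _ _ _ (p3 h B hB) (p3 h B hB) (p3 h B hB) le_rfl le_rfl
    simp only [Finset.powerset_empty, Finset.sum_singleton, Finset.prod_empty, mul_one,
      sat_base hh hle fun a => H a (by simp)]
    simp only [Finset.card_empty, pow_zero, one_mul]
    omega
  | insert a l ha ih =>
    intro B Z hB hZ hle H
    have h1 := ih B (sat (f a) B ⊓ Z) hB (p1 _ _ (p3 _ B hB) hZ) (le_inf (le_sat _ B) hle)
      fun b hb => by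
        by_cases e : b = a
        · rw [e]; exact inf_le_left
        · exact inf_le_right.trans (H b (by simp [e, hb]))
    have h2 := ih (sat (f a) B ⊔ Z) (sat (f a) Z) (p2 _ _ (p3 _ B hB) hZ) (p3 _ Z hZ)
      (sup_le (sat_mono _ hle) (le_sat _ Z)) fun b hb => by
        by_cases e : b = a
        · rw [e]; exact sat_mono _ le_sup_right
        · refine (sat_mono _ (H b (by simp [e, hb]))).trans ?_
          rw [sat_comm]
          exact sat_mono _ le_sup_left
    rw [Finset.sum_powerset_insert ha, ← Finset.sum_add_distrib, ← sub_eq_zero.mpr (h1.trans h2.symm),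
      ← Finset.sum_sub_distrib]
    refine Finset.sum_congr rfl fun I hI => ?_
    have hI' : a ∉ I := fun h => ha (Finset.mem_powerset.mp hI h)
    rw [Finset.card_insert_of_notMem hI', Finset.prod_insert hI', mul_left_comm h, ← sat_sat (f a),
      ← sat_sat (f a), sat_inf, sat_sup (hg I), sat_comm _ (f a) B, sat_comm _ (f a) Z, ← mul_sub,
      ← key _ _ _ (p3 _ B hB) (p3 _ Z hZ) (sat_mono _ hle)]
    ring

end sat

variable {ι A : Type} [CommRing A] [Algebra ℂ A] [Algebra (MvPolynomial ι ℂ) A]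
  {d : ι → Derivation ℂ A A}

/-- The derivations extend the derivatives of polynomials. -/
def Ext (d : ι → Derivation ℂ A A) : Prop :=
  ∀ s g, d s (algebraMap (MvPolynomial ι ℂ) A g) = algebraMap (MvPolynomial ι ℂ) A (pderiv s g)

/-- The module of the algebra `A`. -/
noncomputable abbrev MD (d : ι → Derivation ℂ A A) : WM ι :=
  ofDer A (fun s => algebraMap (MvPolynomial ι ℂ) A (X s)) d

/-- Stability under the derivations. -/
def DS (d : ι → Derivation ℂ A A) (B : Submodule (MvPolynomial ι ℂ) A) : Prop :=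
  ∀ s, ∀ v ∈ B, d s v ∈ B

theorem Ext.smul (hd : Ext d) (s : ι) (p : MvPolynomial ι ℂ) (v : A) :
    d s (p • v) = p • d s v + pderiv s p • v := by
  rw [Algebra.smul_def, Derivation.leibniz, hd, Algebra.smul_def p, Algebra.smul_def (pderiv s p),
    smul_eq_mul, smul_eq_mul, mul_comm v]

theorem DS.sat (hd : Ext d) (g : MvPolynomial ι ℂ) (B : Submodule (MvPolynomial ι ℂ) A)
    (h : DS d B) : DS d (sat g B) := by
  rintro s v ⟨k, hk⟩
  have h1 := h s _ (up hk 1)
  rw [hd.smul, add_comm 1 k, pderiv_pow, Nat.add_sub_cancel, mul_right_comm, mul_smul] at h1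
  exact ⟨k + 1, (B.add_mem_iff_left (B.smul_mem _ hk)).mp h1⟩

theorem DS.sup (B Z : Submodule (MvPolynomial ι ℂ) A) (h : DS d B) (h' : DS d Z) :
    DS d (B ⊔ Z) := by
  intro s v hv
  obtain ⟨b, hb, z, hz, rfl⟩ := Submodule.mem_sup.mp hv
  rw [map_add]
  exact Submodule.add_mem_sup (h s b hb) (h' s z hz)

theorem DS.one (hd : Ext d) : DS d 1 := by
  intro s v hv
  obtain ⟨p, rfl⟩ := Submodule.mem_one.mp hv
  exact Submodule.mem_one.mpr ⟨_, (hd s p).symm⟩

variable [IsScalarTower ℂ (MvPolynomial ι ℂ) A]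

theorem DS.st {B : Submodule (MvPolynomial ι ℂ) A} (h : DS d B) :
    StOn Set.univ (MD d) (B.restrictScalars ℂ) := fun s _ v hv =>
  ⟨by
    show algebraMap (MvPolynomial ι ℂ) A (X s) * v ∈ B
    rw [← Algebra.smul_def]; exact B.smul_mem _ hv, h s v hv⟩

theorem hol (hHSUB : S_HSUB) (hN : (MD d).Holo) {B Z : Submodule (MvPolynomial ι ℂ) A}
    (hB : DS d B) (hZ : DS d Z) (hle : B ≤ Z) :
    Hol Set.univ (MD d) (B.restrictScalars ℂ) (Z.restrictScalars ℂ) :=
  ((hHSUB ι _).1 _ _ _ _ ((hHSUB ι _).1 _ _ _ _ hN bot_le le_top hZ.st).1 bot_le hle hB.st).2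

theorem piso (hd : Ext d) (hi : Function.Injective (algebraMap (MvPolynomial ι ℂ) A))
    {g : MvPolynomial ι ℂ} (hg : IsUnit (algebraMap (MvPolynomial ι ℂ) A g))
    {d' : ι → Derivation ℂ (Localization.Away g) (Localization.Away g)} (hd' : Ext d') :
    PIso Set.univ (MD d') ⊥ ⊤ (MD d) ((sat g ⊥).restrictScalars ℂ)
      ((sat g 1).restrictScalars ℂ) := by
  let ψ : Localization.Away g →ₐ[MvPolynomial ι ℂ] A :=
    IsLocalization.Away.liftAlgHom (f := Algebra.ofId _ A) g hg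
  have can : ∀ (k : ℕ) (v w : A), g ^ k • v = g ^ k • w → v = w := fun k v w h => by
    rw [Algebra.smul_def, Algebra.smul_def, map_pow] at h
    exact (hg.pow k).mul_left_cancel h
  have sur : ∀ z : Localization.Away g, ∃ (k : ℕ) (p : MvPolynomial ι ℂ),
      g ^ k • z = algebraMap _ _ p := fun z => by
    obtain ⟨k, p, h⟩ := IsLocalization.Away.surj g z
    exact ⟨k, p, by rw [Algebra.smul_def, map_pow, mul_comm, h]⟩
  have hb : DS d (sat g ⊥) := DS.sat hd g _ fun s v hv => by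
    rw [Submodule.mem_bot] at hv ⊢; rw [hv, map_zero]
  refine ⟨ψ.toLinearMap.restrictScalars ℂ, bot_le, fun s _ v hv => ?_, fun _ _ _ _ => ⟨trivial, trivial⟩,
    sat_mono g bot_le, hb.st, (DS.sat hd g _ (DS.one hd)).st, fun z _ => ?_, fun z _ => ?_,
    fun v hv => ?_, fun s _ z _ => ⟨?_, ?_⟩⟩
  · rw [Submodule.mem_bot] at hv
    simp [hv]
  · obtain ⟨k, p, h⟩ := sur z
    refine ⟨k, Submodule.mem_one.mpr ⟨p, ?_⟩⟩
    show _ = g ^ k • ψ z
    rw [← map_smul, h, AlgHom.commutes]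
  · refine ⟨fun ⟨m, hm⟩ => ?_, fun h => by rw [(Submodule.mem_bot ℂ).mp h, map_zero]; exact zero_mem _⟩
    obtain ⟨k, p, h⟩ := sur z
    have h1 : ψ z = 0 := can m _ _ (by rw [smul_zero]; exact hm)
    have h2 := congrArg ψ h
    rw [map_smul, h1, smul_zero, AlgHom.commutes] at h2
    rw [hi (h2.symm.trans (map_zero _).symm), map_zero, Algebra.smul_def, map_pow] at h
    exact ((IsLocalization.Away.algebraMap_isUnit g).pow k).mul_right_eq_zero.mp h
  · obtain ⟨k, hk⟩ := hv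
    obtain ⟨p, hp⟩ := Submodule.mem_one.mp hk
    obtain ⟨u, hu⟩ := ((IsLocalization.Away.algebraMap_isUnit (S := Localization.Away g)
      g).pow k).exists_right_inv
    refine Submodule.mem_sup_left ⟨u * algebraMap _ _ p, trivial, can k _ _ ?_⟩
    show g ^ k • ψ _ = _
    rw [← map_smul, Algebra.smul_def, map_pow, ← mul_assoc, hu, one_mul, AlgHom.commutes, hp]
  · show ψ (algebraMap _ _ (X s) * z) - algebraMap _ _ (X s) * ψ z ∈ sat g ⊥
    rw [map_mul, AlgHom.commutes, sub_self]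
    exact zero_mem _
  · show ψ (d' s z) - d s (ψ z) ∈ sat g ⊥
    obtain ⟨k, p, h⟩ := sur z
    have h1 := congrArg ψ (hd'.smul s (g ^ k) z)
    have h2 := hd.smul s (g ^ k) (ψ z)
    rw [h, hd', AlgHom.commutes, map_add, map_smul, map_smul] at h1
    rw [← map_smul ψ, h, AlgHom.commutes, hd, h1] at h2
    rw [can k _ _ (add_right_cancel h2), sub_self]
    exact zero_mem _

end CechAux

open CechAux in
theorem p_CECH (hPISO : S_PISO) (hHSUB : S_HSUB) (hREG : S_REG) (hREGH : S_REGH) :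
    S_CECH := by
  classical
  intro ι α _ _ φ h f hφ hf
  have hh : h ∈ (Ideal.span (Set.range f)).radical := by
    rw [← vanishingIdeal_zeroLocus_eq_radical (K := ℂ)]
    intro x hx
    by_contra h0
    obtain ⟨a, ha⟩ := hf x h0
    exact ha (hx _ (Ideal.subset_span ⟨a, rfl⟩))
  obtain ⟨F, hF, hG⟩ : ∃ F : MvPolynomial ι ℂ, F ≠ 0 ∧
      ∀ I : Finset α, h * ∏ a ∈ I, f a ∣ F ∨ h * ∏ a ∈ I, f a = 0 :=
    ⟨∏ I ∈ Finset.univ.filter fun I : Finset α => h * ∏ a ∈ I, f a ≠ 0, h * ∏ a ∈ I, f a,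
      Finset.prod_ne_zero_iff.mpr fun I hI => (Finset.mem_filter.mp hI).2, fun I =>
        or_iff_not_imp_right.mpr fun hI => Finset.dvd_prod_of_mem
          (fun I : Finset α => h * ∏ a ∈ I, f a) (Finset.mem_filter.mpr ⟨Finset.mem_univ I, hI⟩)⟩
  obtain ⟨⟨d, e, hd⟩, -⟩ := hREG ι F
  have hN : (MD d).Holo := by have := hREGH ι F; rwa [e] at this
  have hg := fun I => (hG I).imp_left fun h1 => isUnit_of_dvd_unit
    (map_dvd (algebraMap _ (Localization.Away F)) h1) (IsLocalization.Away.algebraMap_isUnit F)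
  have hz : ∀ (N : WM ι) B, Hol Set.univ N B B → φ N B B = 0 := fun N B H => by
    have := hφ.add N B B B H le_rfl le_rfl ((stOn_univ _ _).mp H.2.2.1)
    omega
  have h0 : DS d ⊥ := fun s v hv => by rw [Submodule.mem_bot] at hv ⊢; rw [hv, map_zero]
  have key := main hh hg (DS d)
    (fun B Z => φ (MD d) (B.restrictScalars ℂ) (Z.restrictScalars ℂ))
    (fun B Z hB hZ s v hv => ⟨hB s v hv.1, hZ s v hv.2⟩) DS.sup (DS.sat hd)
    (fun B Y Z hB hY hZ h1 h2 => hφ.add _ _ _ _ (hol hHSUB hN hB hZ (h1.trans h2)) h1 h2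
      ((stOn_univ _ _).mp hY.st))
    (fun Y Z hY hZ => hφ.iso _ _ _ _ _ _ (hol hHSUB hN
      (fun s v hv => ⟨hY s v hv.1, hZ s v hv.2⟩) hZ inf_le_right) hN.1 (by
        rw [Submodule.restrictScalars_inf, Submodule.restrictScalars_sup]
        exact (hPISO ι _).2.2.2.1 _ _ _ hY.st hZ.st))
    Finset.univ ⊥ 1 h0 (DS.one hd) bot_le fun a ha => absurd (Finset.mem_univ a) ha
  rw [Finset.powerset_univ] at key
  rw [← key]
  refine Finset.sum_congr rfl fun I _ => congrArg _ ?_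
  have hH := hREGH ι (h * ∏ a ∈ I, f a)
  rcases hg I with h1 | h1
  · obtain ⟨⟨d', e', hd'⟩, -⟩ := hREG ι (h * ∏ a ∈ I, f a)
    rw [e'] at hH ⊢
    exact hφ.iso _ _ _ _ _ _ hH hN.1 (piso hd (IsLocalization.injective _
      (powers_le_nonZeroDivisors_of_noZeroDivisors hF)) h1 hd')
  · rw [h1] at hH ⊢
    have hs : Subsingleton (reg (0 : MvPolynomial ι ℂ)).V :=
      IsLocalization.subsingleton (M := Submonoid.powers (0 : MvPolynomial ι ℂ))
        (S := Localization.Away (0 : MvPolynomial ι ℂ)) (Submonoid.mem_powers _)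
    have h2 : (⊤ : Submodule ℂ (reg (0 : MvPolynomial ι ℂ)).V) = ⊥ := Subsingleton.elim _ _
    have h3 := DS.sat hd 0 _ h0
    rw [sat_zero 1, ← sat_zero ⊥, hz _ _ (hol hHSUB hN h3 h3 le_rfl), h2]
    exact hz _ _ (by have := hH; rwa [Holo, h2] at this)

end Pool.Agent.P.MP_52ab5a_al
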