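import Pool.Agent.P.MP_52ab5a_al.K.Iface
import Pool.Agent.P.MP_52ab5a_al.A.Iface

/-! Step CHI of the open orbit project. -/

namespace Pool.Agent.P.MP_52ab5a_al

open MvPolynomial WM

namespace ChiAux

theorem finrank_one {ι : Type} [IsEmpty ι] :
    Module.finrank ℂ (Localization.Away (1 : MvPolynomial ι ℂ)) = 1 := by
  have e1 : MvPolynomial ι ℂ ≃ₐ[MvPolynomial ι ℂ] Localization.Away (1 : MvPolynomial ι ℂ) :=
    IsLocalization.atOne (MvPolynomial ι ℂ) (Localization.Away (1 : MvPolynomial ι ℂ))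
  have e2 : MvPolynomial ι ℂ ≃ₐ[ℂ] ℂ := isEmptyAlgEquiv ℂ ι
  rw [← (e1.restrictScalars ℂ).toLinearEquiv.finrank_eq, e2.toLinearEquiv.finrank_eq]
  simp

theorem dim_top {σ : Type} (N : WM σ) : N.dim ⊥ ⊤ = (Module.finrank ℂ N.V : ℕ) := by
  unfold WM.dim
  rw [Submodule.map_top, Submodule.range_mkQ, finrank_top,
    (Submodule.quotEquivOfEqBot (⊥ : Submodule ℂ N.V) rfl).finrank_eq]

theorem bij (hDIM : S_DIM) (hTRANS : S_TRANS) (τ : Type) [Fintype τ] (τ' : Type) [Fintype τ']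
    (S : Set (τ → ℂ)) (S' : Set (τ' → ℂ)) (F : (τ' → ℂ) → τ → ℂ)
    (hF : ∀ j, PolyFn fun z => F z j) (hS' : Con S') (hb : Set.BijOn F S' S) :
    chi' S = chi' S' := by
  refine ((hTRANS τ τ' Empty {z | z ∘ Sum.inl ∈ S} {z | z ∘ Sum.inl ∈ S'}).2
    (fun z => F (z ∘ Sum.inl)) (fun j => (hF j).comp fun s => PolyFn.coord (Sum.inl s))
    (hS'.comp Sum.inl) ⟨fun z hz => hb.1 hz, fun z hz z' hz' h => ?_, fun z hz => ?_⟩).2 _
    (hDIM Empty).1
  · have h1 : F (z ∘ Sum.inl) = F (z' ∘ Sum.inl) := funext fun j => congrFun h (Sum.inl j)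
    have h2 := hb.2.1 hz hz' h1
    funext s
    rcases s with s | s
    · exact congrFun h2 s
    · exact s.elim
  · obtain ⟨y, hy, hy'⟩ := hb.2.2 hz
    refine ⟨Sum.elim y Empty.elim, hy, ?_⟩
    funext s
    rcases s with s | s
    · exact congrFun hy' s
    · exact s.elim

theorem point (hDIM : S_DIM) (hPUSH : S_PUSH) (hCLS : S_CLS) :
    chi' (Set.univ : Set (Empty → ℂ)) = 1 := by
  have hadd : Additive (push (Sum.inr : Empty → Empty ⊕ Empty) WM.dim) :=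
    (hPUSH Empty _ Sum.inr Sum.inr_injective).1 _ (hDIM Empty).1
  have hp : IsPres {z : Empty ⊕ Empty → ℂ | z ∘ Sum.inl ∈ (Set.univ : Set (Empty → ℂ))}
      (Finsupp.single 1 1) := isPres_iff.2 fun x => by simp [ev_single]
  have hs : Function.Surjective (Sum.inr : Empty → Empty ⊕ Empty) := by
    rintro (s | s) <;> exact s.elim
  unfold chi' intg
  rw [(hCLS (Empty ⊕ Empty)).1 _ _ _ hadd hp, Finsupp.sum_single_index (by simp),
    (hPUSH Empty _ Sum.inr Sum.inr_injective).2.2.2.1 _ hs, dim_top]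
  have : Module.finrank ℂ ((reg (1 : MvPolynomial (Empty ⊕ Empty) ℂ)).res
    (Sum.inr : Empty → Empty ⊕ Empty)).V = 1 := finrank_one
  rw [this]
  simp

end ChiAux

open ChiAux in
theorem p_CHI (hDIM : S_DIM) (hPUSH : S_PUSH) (hREG : S_REG) (hCLS : S_CLS) (hTRANS : S_TRANS) (hLOCT : S_LOCT) :
    S_CHI := by
  have _ := hREG
  intro τ _
  have hadd : Additive (push (Sum.inr : Empty → τ ⊕ Empty) WM.dim) :=
    (hPUSH Empty _ Sum.inr Sum.inr_injective).1 _ (hDIM Empty).1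
  refine ⟨(hCLS (τ ⊕ Empty)).2.1 _ hadd, fun y => ?_, fun S T hS hT hST => ?_,
    fun α _ S hS hd => ?_, fun τ' _ S S' R hR h1 h2 h3 => ?_, bij hDIM hTRANS τ,
    fun w S hS hinv => ?_⟩
  · rw [← point hDIM hPUSH hCLS]
    refine bij hDIM hTRANS τ Empty _ _ (fun _ => y) (fun j => PolyFn.const _) Con.univ
      ⟨fun _ _ => rfl, fun z _ z' _ _ => Subsingleton.elim _ _, fun z hz => ⟨Empty.elim, trivial, ?_⟩⟩
    exact (Set.mem_singleton_iff.1 hz).symm
  · exact (hCLS (τ ⊕ Empty)).2.2.1 _ {z | z ∘ Sum.inl ∈ S} {z | z ∘ Sum.inl ∈ T} hadd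
      (hS.comp _) (hT.comp _) (Set.disjoint_left.2 fun z hz hz' => Set.disjoint_left.1 hST hz hz')
  · have := (hCLS (τ ⊕ Empty)).2.2.2.1 _ α (fun a => {z | z ∘ Sum.inl ∈ S a}) hadd
      (fun a => (hS a).comp _) fun a b hab =>
        Set.disjoint_left.2 fun z hz hz' => Set.disjoint_left.1 (hd hab) hz hz'
    unfold chi' intg
    rw [← this]
    congr 1
    ext z
    simp
  · exact ((hTRANS τ τ' Empty {z | z ∘ Sum.inl ∈ S} {z | z ∘ Sum.inl ∈ S'}).1 (fun y y' _ => R y y')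
      (hR.comp Sum.inl) (fun y y' _ h => h1 y y' h) (fun y _ h => h2 y h)
      (fun y' _ h => h3 y' h)).2.2 _ (hDIM Empty).1
  · exact hLOCT τ Empty WM.dim w {z | z ∘ Sum.inl ∈ S} (hDIM Empty).1 (hS.comp _)
      fun u hu z hz => hinv u hu _ hz

end Pool.Agent.P.MP_52ab5a_al
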