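import Pool.Agent.P.MP_52ab5a_al.K.Iface
import Pool.Agent.P.MP_52ab5a_al.A.Iface

/-! Step CLS of the open orbit project. -/

namespace Pool.Agent.P.MP_52ab5a_al

open MvPolynomial WM

namespace ClsAux

variable {ι : Type}

theorem isClass_fintype {α : Type} [Fintype α] (M : α → WM ι) (B Z : ∀ a, Submodule ℂ (M a).V)
    (n : α → ℤ) (h : ∀ a, Hol Set.univ (M a) (B a) (Z a)) (T : Fn ι → ℤ)
    (hT : ∀ φ, T φ = ∑ a, n a * φ (M a) (B a) (Z a)) : IsClass T := by
  let e := (Fintype.equivFin α).symm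
  refine ⟨_, fun j => M (e j), fun j => B (e j), fun j => Z (e j), fun j => n (e j),
    fun j => h _, fun φ => ?_⟩
  rw [hT]
  exact (e.sum_comp fun a => n a * φ (M a) (B a) (Z a)).symm

theorem isClass_sum {α : Type} [Fintype α] (n : α → ℤ) (T : α → Fn ι → ℤ)
    (h : ∀ a, IsClass (T a)) : IsClass fun φ => ∑ a, n a * T a φ := by
  choose m M B Z k h1 h2 using h
  refine isClass_fintype (α := Σ a, Fin (m a)) (fun p => M p.1 p.2) (fun p => B p.1 p.2)
    (fun p => Z p.1 p.2) (fun p => n p.1 * k p.1 p.2) (fun p => h1 p.1 p.2) _ fun φ => ?_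
  rw [Fintype.sum_sigma]
  refine Finset.sum_congr rfl fun a _ => ?_
  rw [h2, Finset.mul_sum]
  exact Finset.sum_congr rfl fun j _ => (mul_assoc _ _ _).symm

theorem cls_eq [Finite ι] (hWD : S_WD) {φ : Fn ι} {S : Set (ι → ℂ)} {c : MvPolynomial ι ℂ →₀ ℤ}
    (hφ : Additive φ) (hc : IsPres S c) : cls φ S = c.sum fun f n => n * φ (reg f) ⊥ ⊤ := by
  have := hWD ι φ (pres S - c) hφ fun x => by
    rw [ev_sub, isPres_iff.1 hc x, isPres_iff.1 (Con.isPres ⟨c, hc⟩) x, sub_self]
  rw [Finsupp.sum_sub_index fun _ _ _ => sub_mul _ _ _] at this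
  exact sub_eq_zero.1 this

theorem cls_empty [Finite ι] (hWD : S_WD) {φ : Fn ι} (hφ : Additive φ) : cls φ ∅ = 0 := by
  rw [cls_eq hWD (c := 0) hφ (isPres_iff.2 fun x => by simp [ev_zero])]
  simp

theorem cls_union [Finite ι] (hWD : S_WD) {φ : Fn ι} {S T : Set (ι → ℂ)} (hφ : Additive φ)
    (hS : Con S) (hT : Con T) (h : Disjoint S T) : cls φ (S ∪ T) = cls φ S + cls φ T := by
  rw [cls_eq hWD (c := pres S + pres T) hφ (isPres_iff.2 fun x => ?_),
    Finsupp.sum_add_index' (fun _ => zero_mul _) fun _ _ _ => add_mul _ _ _]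
  · rfl
  · rw [ev_add, isPres_iff.1 hS.isPres x, isPres_iff.1 hT.isPres x]
    by_cases h1 : x ∈ S <;> by_cases h2 : x ∈ T
    · exact absurd h2 (Set.disjoint_left.1 h h1)
    all_goals simp [h1, h2]

end ClsAux

open ClsAux in
theorem p_CLS (hWD : S_WD) (hREGH : S_REGH) (hPUSH : S_PUSH) :
    S_CLS := by
  intro ι _
  refine ⟨fun φ S c hφ hc => cls_eq hWD hφ hc, fun φ hφ => cls_empty hWD hφ,
    fun φ S T hφ hS hT h => cls_union hWD hφ hS hT h, fun φ α _ S hφ hS hd => ?_,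
    fun φ ψ S h => ?_, fun S => ?_, fun τ _ _ S => ?_⟩
  · classical
    have key : ∀ s : Finset α, Con (⋃ a ∈ s, S a) ∧ cls φ (⋃ a ∈ s, S a) = ∑ a ∈ s, cls φ (S a) := by
      intro s
      induction s using Finset.induction_on with
      | empty => simpa using ⟨Con.empty, cls_empty hWD hφ⟩
      | insert a s ha ih =>
        rw [Finset.set_biUnion_insert, Finset.sum_insert ha, ← ih.2]
        refine ⟨(hS a).union ih.1, cls_union hWD hφ (hS a) ih.1 ?_⟩
        exact Set.disjoint_iUnion₂_right.2 fun b hb => hd fun e => ha (e ▸ hb)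
    simpa using (key Finset.univ).2
  · exact Finsupp.sum_congr fun f _ => by rw [h _ (hREGH ι f)]
  · refine isClass_fintype (α := (pres S).support) (fun f => reg f.1) (fun _ => ⊥) (fun _ => ⊤)
      (fun f => pres S f.1) (fun f => hREGH ι f.1) _ fun φ => ?_
    exact (Finset.sum_coe_sort _ fun f => pres S f * φ (reg f) ⊥ ⊤).symm
  · have := isClass_sum (α := (pres S).support) (fun f => pres S f.1)
      (fun f φ => push Sum.inr φ (reg f.1) ⊥ ⊤) fun f =>
        (hPUSH ι (τ ⊕ ι) Sum.inr Sum.inr_injective).2.2.2.2 _ _ _ (hREGH _ f.1)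
    convert this using 2 with φ
    exact (Finset.sum_coe_sort _ fun f => pres S f * push Sum.inr φ (reg f) ⊥ ⊤).symm

end Pool.Agent.P.MP_52ab5a_al
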