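import Pool.Agent.P.MP_52ab5a_al.K.Iface
import Pool.Agent.P.MP_52ab5a_al.A.Iface

/-! Step ECH of the open orbit project. -/

namespace Pool.Agent.P.MP_52ab5a_al

open MvPolynomial WM

namespace EchAux

/-- Iterated kernels and cokernels in a fixed space. -/
def it {V : Type} [AddCommGroup V] [Module ℂ V] (f : Submodule ℂ V → Submodule ℂ V → ℤ) :
    List (Module.End ℂ V) → Submodule ℂ V → Submodule ℂ V → ℤ
  | [], B, Z => f B Z
  | T :: l, B, Z => it f l B (Z ⊓ B.comap T) - it f l (B ⊔ Z.map T) Z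

theorem iter_eq {σ : Type} (φ : Fn σ) (M : WM σ) (l : List (Module.End ℂ M.V)) :
    iter φ M l = it (φ M) l := by
  induction l with
  | nil => rfl
  | cons T l ih => funext B Z; simp only [iter, it, ih]

theorem it_append {V : Type} [AddCommGroup V] [Module ℂ V]
    (f : Submodule ℂ V → Submodule ℂ V → ℤ) (l l' : List (Module.End ℂ V)) :
    it f (l ++ l') = it (it f l') l := by
  induction l with
  | nil => rfl
  | cons T l ih => funext B Z; simp only [List.cons_append, it, ih]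

open Classical in
theorem push_eq {σ ι : Type} [Fintype ι] (r : σ → ι) : ∃ l : List ι, l.Nodup ∧
    (∀ t, t ∈ l ↔ t ∉ Set.range r) ∧
    ∀ (φ : Fn σ) (N : WM ι), push r φ N = it (φ (N.res r)) (l.map N.D) :=
  ⟨(Finset.univ.filter fun t => t ∉ Set.range r).toList, Finset.nodup_toList _, fun t => by simp,
    fun φ N => iter_eq φ (N.res r) _⟩

theorem push_one {σ ι : Type} [Fintype ι] (r : σ → ι) (t₀ : ι)
    (h : ∀ t, t ∉ Set.range r ↔ t = t₀) (φ : Fn σ) (N : WM ι) (B Z : Submodule ℂ N.V) :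
    push r φ N B Z = iter φ (N.res r) [N.D t₀] B Z := by
  obtain ⟨l, h1, h2, h3⟩ := push_eq r
  have : l = [t₀] := List.perm_singleton.1 ((List.perm_ext_iff_of_nodup h1
    (List.nodup_singleton _)).2 fun t => by rw [h2, h, List.mem_singleton])
  rw [h3, this]
  rfl

theorem isW_tw {ι : Type} (N : WM ι) (c : ι → ℂ) (h : N.IsW) :
    (N.ops N.X fun t => N.D t - c t • (1 : Module.End ℂ N.V)).IsW := by
  refine ⟨h.1, fun s t => ?_, fun s => ?_, fun s t hst => ?_⟩
  · simp only [sub_mul, mul_sub, smul_mul_assoc, mul_smul_comm, one_mul, mul_one, h.2.1 s t,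
      smul_sub, smul_comm (c s) (c t)]
    abel
  · simp only [sub_mul, mul_sub, smul_mul_assoc, mul_smul_comm, one_mul, mul_one]
    rw [← h.2.2.1 s]
    abel
  · simp only [sub_mul, mul_sub, smul_mul_assoc, mul_smul_comm, one_mul, mul_one, h.2.2.2 s t hst]

theorem st_tw {ι : Type} (N : WM ι) (c : ι → ℂ) (B : Submodule ℂ N.V) (h : StOn Set.univ N B) :
    StOn Set.univ (N.ops N.X fun t => N.D t - c t • (1 : Module.End ℂ N.V)) B :=
  fun s hs v hv => ⟨(h s hs v hv).1, B.sub_mem (h s hs v hv).2 (B.smul_mem _ hv)⟩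

theorem hol_tw (hHSUB : S_HSUB) {ι : Type} (N : WM ι) (c : ι → ℂ) (D' : ι → Module.End ℂ N.V)
    (hD : ∀ t, D' t = N.D t - c t • (1 : Module.End ℂ N.V)) (B Z : Submodule ℂ N.V)
    (h : Hol Set.univ N B Z) : Hol Set.univ (N.ops N.X D') B Z := by
  obtain rfl : D' = fun t => N.D t - c t • (1 : Module.End ℂ N.V) := funext hD
  refine (hHSUB ι Set.univ).2.2.2.2.2 N _ _ B Z (isW_tw N c h.1) (fun s hs => ⟨?_, ?_⟩) h
  · exact Submodule.subset_span (Or.inr (Or.inl ⟨s, hs, rfl⟩))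
  · exact Submodule.sub_mem _ (Submodule.subset_span (Or.inr (Or.inr ⟨s, hs, rfl⟩)))
      (Submodule.smul_mem _ _ (Submodule.subset_span (Or.inl rfl)))

theorem add_tw' (hHSUB : S_HSUB) {ι : Type} (φ : Fn ι) (hφ : Additive φ) (c : ι → ℂ) :
    Additive fun N B Z => φ (N.ops N.X fun t => N.D t - c t • (1 : Module.End ℂ N.V)) B Z := by
  refine ⟨fun N B Y Z h h1 h2 h3 => ?_, fun N B Z N' B' Z' h h1 ⟨f, hf⟩ => ?_⟩
  · exact hφ.add (N.ops N.X fun t => N.D t - c t • (1 : Module.End ℂ N.V)) B Y Z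
      (hol_tw hHSUB N c _ (fun _ => rfl) B Z h) h1 h2
      fun s => st_tw N c Y ((stOn_univ _ _).2 h3) s trivial
  · refine hφ.iso (N.ops N.X fun t => N.D t - c t • (1 : Module.End ℂ N.V)) B Z
      (N'.ops N'.X fun t => N'.D t - c t • (1 : Module.End ℂ N'.V)) B' Z'
      (hol_tw hHSUB N c _ (fun _ => rfl) B Z h) (isW_tw N' c h1)
      ⟨f, hf.le, st_tw N c _ hf.stB, st_tw N c _ hf.stZ, hf.le', st_tw N' c _ hf.stB',
        st_tw N' c _ hf.stZ', hf.maps, hf.ker, hf.onto, fun s hs z hz => ⟨(hf.comm s hs z hz).1, ?_⟩⟩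
    have e : f ((N.D s - c s • (1 : Module.End ℂ N.V)) z) -
        (N'.D s - c s • (1 : Module.End ℂ N'.V)) (f z) = f (N.D s z) - N'.D s (f z) := by
      simp only [LinearMap.sub_apply, LinearMap.smul_apply, Module.End.one_apply, map_sub, map_smul]
      abel
    have := (hf.comm s hs z hz).2
    rw [← e] at this
    exact this

theorem add_tw (hHSUB : S_HSUB) {ι : Type} (φ : Fn ι) (hφ : Additive φ) (c : ι → ℂ)
    (D' : ∀ N : WM ι, ι → Module.End ℂ N.V)
    (hD : ∀ N t, D' N t = N.D t - c t • (1 : Module.End ℂ N.V)) :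
    Additive fun N B Z => φ (N.ops N.X (D' N)) B Z := by
  have e : @Eq (Fn ι) (fun N B Z => φ (N.ops N.X (D' N)) B Z) fun N B Z =>
      φ (N.ops N.X fun t => N.D t - c t • (1 : Module.End ℂ N.V)) B Z := by
    funext N B Z
    exact congrArg (fun D => φ (N.ops N.X D) B Z) (funext (hD N))
  exact e ▸ add_tw' hHSUB φ hφ c

/-- The last variable is the distinguished one. -/
def eq1 (τ : Type) : Option τ ≃ τ ⊕ Unit where
  toFun o := o.elim (Sum.inr ()) Sum.inl
  invFun s := s.elim some fun _ => none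
  left_inv o := by cases o <;> rfl
  right_inv s := by rcases s with s | s <;> rfl

/-- Adding an empty family of variables. -/
def eq0 (τ : Type) : τ ≃ τ ⊕ Empty where
  toFun := Sum.inl
  invFun s := s.elim id Empty.elim
  left_inv _ := rfl
  right_inv s := by rcases s with s | s; exacts [rfl, s.elim]

/-- The Euler characteristic of a module. -/
noncomputable def psi (τ : Type) [Fintype τ] : Fn τ := push (Empty.elim : Empty → τ) WM.dim

/-- The Euler characteristic with an exponential in the distinguished variable. -/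
noncomputable def Phi (τ : Type) [Fintype τ] : Fn (Option τ) := fun N B Z =>
  iter (psi τ) (N.res some) [N.D none - 1] B Z

theorem psi_eq (τ : Type) [Fintype τ] : ∃ l : List τ, l.Nodup ∧ (∀ t, t ∈ l) ∧
    ∀ N : WM τ, psi τ N = it (WM.dim N) (l.map N.D) := by
  obtain ⟨l, h1, h2, h3⟩ := push_eq (Empty.elim : Empty → τ)
  exact ⟨l, h1, fun t => (h2 t).2 fun ⟨a, _⟩ => a.elim, fun N => h3 WM.dim N⟩

theorem key (hHSUB : S_HSUB) (hDIM : S_DIM) (hPUSH : S_PUSH) (τ : Type) [Fintype τ]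
    (N : WM (τ ⊕ Unit)) (h : N.Holo) :
    push Sum.inr expFn N ⊥ ⊤ = Phi τ (N.res (eq1 τ)) ⊥ ⊤ := by
  obtain ⟨l, hl, hl', hp⟩ := psi_eq τ
  obtain ⟨L, hL, hL', hq⟩ := push_eq (Sum.inr : Unit → τ ⊕ Unit)
  let D' : τ ⊕ Unit → Module.End ℂ N.V :=
    Sum.elim (fun t => N.D (Sum.inl t)) fun _ => N.D (Sum.inr ()) - 1
  have hh : Hol Set.univ (N.ops N.X D') ⊥ ⊤ :=
    hol_tw hHSUB N (Sum.elim (fun _ => 0) fun _ => 1) D'
      (by rintro (t | t) <;> simp [D']) ⊥ ⊤ h
  have P := fun (l₀ : List (τ ⊕ Unit)) h1 h2 =>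
    (hPUSH Empty (τ ⊕ Unit) Empty.elim fun a => a.elim).2.1 WM.dim l₀ (hDIM Empty).1 h1 h2 _ ⊥ ⊤ hh
  have e1 := P (L ++ [Sum.inr ()])
    (List.nodup_append.2 ⟨hL, List.nodup_singleton _, fun a ha b hb hab => by
      rw [List.mem_singleton] at hb
      exact (hL' a).1 ha ⟨(), (hab.trans hb).symm⟩⟩)
    (by rintro (t | t) <;> simp [hL'])
  have e2 := P ([Sum.inr ()] ++ l.map Sum.inl)
    (List.nodup_append.2 ⟨List.nodup_singleton _, hl.map Sum.inl_injective, by simp⟩)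
    (by rintro (t | t) <;> simp [hl'])
  have m1 : L.map D' = L.map N.D := List.map_congr_left fun t ht => by
    rcases t with t | t
    · rfl
    · exact absurd ⟨t, rfl⟩ ((hL' _).1 ht)
  rw [iter_eq, List.map_append, it_append] at e1 e2
  rw [List.map_map] at e2
  change _ = it (it (WM.dim N) [N.D (Sum.inr ()) - 1]) (L.map D') ⊥ ⊤ at e1
  rw [m1] at e1
  have a1 : expFn (N.res Sum.inr) = it (WM.dim N) [N.D (Sum.inr ()) - 1] := rfl
  rw [hq, a1, ← e1, e2]
  unfold Phi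
  rw [iter_eq, hp]
  rfl

end EchAux

open EchAux in
theorem p_ECH (hHSUB : S_HSUB) (hDIM : S_DIM) (hPUSH : S_PUSH) (hIPERM : S_IPERM) (hIADD : S_IADD) (hRESM : S_RESM) (hREGH : S_REGH) (hCLS : S_CLS) (hAFF : S_AFF) (hONE : S_ONE) (hTRANS : S_TRANS) :
    S_ECH := by
  have hpsi : ∀ (τ : Type) [Fintype τ], Additive (psi τ) := fun τ _ =>
    (hPUSH Empty τ Empty.elim fun a => a.elim).1 _ (hDIM Empty).1
  have hexp : Additive expFn := by
    have e : expFn = fun N B Z => psi Unit (N.ops N.X fun _ => N.D () - 1) B Z := by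
      funext N B Z
      rw [psi, push_one _ () (fun t => by simp)]
      rfl
    rw [e]
    exact add_tw hHSUB _ (hpsi Unit) (fun _ => 1) _ fun N t => by simp
  refine ⟨hexp, fun τ _ F hF => ?_⟩
  classical
  have hA : Additive (push (Sum.inr : Unit → τ ⊕ Unit) expFn) :=
    (hPUSH _ _ _ Sum.inr_injective).1 _ hexp
  have hPhi : Additive (Phi τ) := by
    have e : Phi τ = fun N B Z => push some (psi τ)
        (N.ops N.X fun o => o.elim (N.D none - 1) fun t => N.D (some t)) B Z := by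
      funext N B Z
      rw [push_one _ none (fun t => by cases t <;> simp)]
      rfl
    rw [e]
    exact add_tw hHSUB _ ((hPUSH _ _ _ (Option.some_injective τ)).1 _ (hpsi τ))
      (fun o => o.elim 1 fun _ => 0) _ fun N t => by cases t <;> simp
  have hG : ∀ S : Set (τ → ℂ), Con S →
      Con {z : τ ⊕ Unit → ℂ | z ∘ Sum.inl ∈ S ∧ z (Sum.inr ()) = F (z ∘ Sum.inl)} := fun S hS =>
    (hS.comp Sum.inl).and (Con.eq (PolyFn.coord _) (hF.comp fun s => PolyFn.coord (Sum.inl s)))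
  have K : ∀ S : Set (τ ⊕ Unit → ℂ), Con S →
      intg expFn S = cls (Phi τ) {x | x ∘ (eq1 τ).symm ∈ S} := fun S hS => by
    rw [← (hAFF _ _ _ S hPhi hS).2 (eq1 τ)]
    exact (hCLS _).2.2.2.2.1 _ _ S (key hHSUB hDIM hPUSH τ)
  refine ⟨fun S T hS hT hd => ?_, fun α _ S hS hd => ?_, fun S hS h0 => ?_,
    fun S v e hS hv he h => ?_⟩
  · unfold ech intg
    rw [← (hCLS _).2.2.1 _ _ _ hA (hG S hS) (hG T hT)
      (Set.disjoint_left.2 fun z h1 h2 => Set.disjoint_left.1 hd h1.1 h2.1)]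
    congr 1
    ext z
    simp only [Set.mem_ofPred_eq, Set.mem_union, or_and_right]
  · unfold ech intg
    rw [← (hCLS _).2.2.2.1 _ α _ hA (fun a => hG _ (hS a))
      (fun a b hab => Set.disjoint_left.2 fun z h1 h2 => Set.disjoint_left.1 (hd hab) h1.1 h2.1)]
    congr 1
    ext z
    simp only [Set.mem_ofPred_eq, Set.mem_iUnion, exists_and_right]
  · have e1 : {x : Option τ → ℂ | x ∘ (eq1 τ).symm ∈
        {z : τ ⊕ Unit → ℂ | z ∘ Sum.inl ∈ S ∧ z (Sum.inr ()) = F (z ∘ Sum.inl)}} =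
        {z | z ∘ some ∈ S ∧ z none = 0} := by
      ext x
      exact and_congr_right fun hx => by rw [h0 _ hx]; rfl
    have e2 : chi' S = cls (psi τ) S := by
      obtain ⟨l, hl, hl', hp⟩ := psi_eq τ
      refine Eq.trans ?_ ((hAFF _ _ _ _ (hpsi τ) (hS.comp Sum.inl)).2 (eq0 τ))
      refine (hCLS _).2.2.2.2.1 _ _ _ fun N hN => ?_
      rw [(hPUSH Empty (τ ⊕ Empty) Sum.inr Sum.inr_injective).2.1 WM.dim (l.map Sum.inl)
        (hDIM Empty).1 (hl.map Sum.inl_injective)
        (by rintro (t | t); exacts [by simp [hl'], t.elim]) N ⊥ ⊤ hN, iter_eq, List.map_map, hp]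
      rfl
    rw [ech, K _ (hG S hS), e1, e2]
    exact (hONE τ _ S (hpsi τ) hS).2.2
  · have hS0 : Con {y | y ∈ S ∧ F y = 0} := Con.and hS (Con.eq_zero hF)
    have fw : ∀ y ∈ S, ∀ (y' : τ → ℂ) (x : ℂ), (∀ j, e y * (y' j - y j) = x * v y j) ↔
        y' = y + (x / e y) • v y := fun y hy y' x => by
      have := (h y hy).1
      rw [funext_iff]
      refine forall_congr' fun j => ?_
      rw [Pi.add_apply, Pi.smul_apply, smul_eq_mul]
      constructor
      · intro e1
        field_simp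
        linear_combination e1
      · intro e1
        rw [e1]
        field_simp
        ring
    have T := (hTRANS τ τ Unit
      {z : τ ⊕ Unit → ℂ | z ∘ Sum.inl ∈ S ∧ z (Sum.inr ()) = F (z ∘ Sum.inl)}
      {z : τ ⊕ Unit → ℂ | z ∘ Sum.inl ∈ {y | y ∈ S ∧ F y = 0}}).1
      (fun y y₀ x => (y ∈ S ∧ x () = F y) ∧ (y₀ ∈ S ∧ F y₀ = 0) ∧
        ∀ j, e y₀ * (y j - y₀ j) = x () * v y₀ j)
      (((hS.comp (Sum.inl ∘ Sum.inl)).and (Con.eq (PolyFn.coord _)
        (hF.comp fun s => PolyFn.coord (Sum.inl (Sum.inl s))))).and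
        ((hS0.comp (Sum.inl ∘ Sum.inr)).and (Con.all fun j => Con.eq
          ((he.comp fun s => PolyFn.coord (Sum.inl (Sum.inr s))).mul
            ((PolyFn.coord _).sub (PolyFn.coord _)))
          ((PolyFn.coord _).mul ((hv j).comp fun s => PolyFn.coord (Sum.inl (Sum.inr s)))))))
      (fun y y₀ x hR => ⟨hR.1, hR.2.1⟩)
      (fun y x hz => by
        have hy : y ∈ S := hz.1
        have hx : x () = F y := hz.2
        have he0 := (h y hy).1
        obtain ⟨a1, a2, a3, a4⟩ := (h y hy).2 (-(x () / e y))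
        refine ⟨y + (-(x () / e y)) • v y, ⟨⟨hy, hx⟩, ⟨a1, ?_⟩, ?_⟩, fun y₀ hR => ?_⟩
        · rw [a4, hx]; field_simp; ring
        · rw [fw _ a1, a2, a3, neg_smul, neg_add_cancel_right]
        · have b := (fw _ hR.2.1.1 _ _).1 hR.2.2
          obtain ⟨-, a2, a3, -⟩ := (h y₀ hR.2.1.1).2 (x () / e y₀)
          rw [← b] at a2 a3
          rw [a2, a3, neg_smul, b, add_neg_cancel_right])
      (fun y₀ x hz => by
        have hy : y₀ ∈ S := hz.1
        have hx : F y₀ = 0 := hz.2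
        have he0 := (h y₀ hy).1
        obtain ⟨a1, -, -, a4⟩ := (h y₀ hy).2 (x () / e y₀)
        refine ⟨y₀ + (x () / e y₀) • v y₀, ⟨⟨a1, ?_⟩, ⟨hy, hx⟩, (fw _ hy _ _).2 rfl⟩,
          fun y hR => (fw _ hy _ _).1 hR.2.2⟩
        rw [a4, hx]; field_simp; ring)
    rw [ech, T.2.2 _ hexp, K _ T.2.1]
    exact (hONE τ _ _ (hpsi τ) hS0).2.1

end Pool.Agent.P.MP_52ab5a_al
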