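import Pool.Agent.P.MP_52ab5a_al.K.Iface
import Pool.Agent.P.MP_52ab5a_al.A.Iface

/-! Step EXPL of the open orbit project. -/

namespace Pool.Agent.P.MP_52ab5a_al

open MvPolynomial WM

namespace ExplAux

section Itr

variable {V : Type} [AddCommGroup V] [Module ℂ V]

/-- Iterated kernels and cokernels at the level of operators. -/
def itr (g : Submodule ℂ V → Submodule ℂ V → ℤ) :
    List (Module.End ℂ V) → Submodule ℂ V → Submodule ℂ V → ℤ
  | [], B, Z => g B Z
  | T :: l, B, Z => itr g l B (Z ⊓ B.comap T) - itr g l (B ⊔ Z.map T) Z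

theorem itr_append (g : Submodule ℂ V → Submodule ℂ V → ℤ) (l l' : List (Module.End ℂ V))
    (B Z : Submodule ℂ V) : itr g (l ++ l') B Z = itr (itr g l') l B Z := by
  induction l generalizing B Z with
  | nil => rfl
  | cons T l ih => simp only [List.cons_append, itr, ih]

theorem itr_congr {α : Type} (g : Submodule ℂ V → Submodule ℂ V → ℤ) (l : List α)
    (T T' : α → Module.End ℂ V) (B Z : Submodule ℂ V) (h : ∀ a, ∀ z ∈ Z, T a z - T' a z ∈ B) :
    itr g (l.map T) B Z = itr g (l.map T') B Z := by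
  induction l generalizing B Z with
  | nil => rfl
  | cons a l ih =>
    have h1 : Z ⊓ B.comap (T a) = Z ⊓ B.comap (T' a) := by
      ext z
      simp only [Submodule.mem_inf, Submodule.mem_comap, and_congr_right_iff]
      intro hz
      constructor
      · intro h'
        simpa using B.sub_mem h' (h a z hz)
      · intro h'
        simpa using B.add_mem (h a z hz) h'
    have h2 : B ⊔ Z.map (T a) = B ⊔ Z.map (T' a) := by
      refine le_antisymm (sup_le le_sup_left ?_) (sup_le le_sup_left ?_)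
      · rintro _ ⟨z, hz, rfl⟩
        have := Submodule.add_mem_sup (h a z hz) (Submodule.mem_map_of_mem (f := T' a) hz)
        simpa using this
      · rintro _ ⟨z, hz, rfl⟩
        have := Submodule.add_mem_sup (B.neg_mem (h a z hz))
          (Submodule.mem_map_of_mem (f := T a) hz)
        simpa using this
    simp only [List.map_cons, itr]
    rw [h1, h2, ih B (Z ⊓ B.comap (T' a)) fun a z hz => h a z (Submodule.mem_inf.1 hz).1,
      ih (B ⊔ Z.map (T' a)) Z fun a z hz => Submodule.mem_sup_left (h a z hz)]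

/-- The dimension of a subquotient. -/
noncomputable def dm (B Z : Submodule ℂ V) : ℤ := (Module.finrank ℂ (Z.map B.mkQ) : ℕ)

end Itr

theorem iter_eq {σ : Type} (φ : Fn σ) (M : WM σ) (l : List (Module.End ℂ M.V))
    (B Z : Submodule ℂ M.V) : iter φ M l B Z = itr (φ M) l B Z := by
  induction l generalizing B Z with
  | nil => rfl
  | cons T l ih => simp only [iter, itr, ih]

variable {ι : Type}

/-- The twist by an exponential. -/
@[reducible] noncomputable def tw (N : WM ι) (c : ι → ℂ) : WM ι :=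
  N.ops N.X fun t => N.D t - c t • (1 : Module.End ℂ N.V)

theorem tw_isW (N : WM ι) (c : ι → ℂ) (h : N.IsW) : (tw N c).IsW := by
  obtain ⟨h1, h2, h3, h4⟩ := h
  refine ⟨h1, fun s t => ?_, fun s => ?_, fun s t hst => ?_⟩
  · show (N.D s - c s • 1) * (N.D t - c t • 1) = (N.D t - c t • 1) * (N.D s - c s • 1)
    simp only [sub_mul, mul_sub, smul_mul_assoc, mul_smul_comm, one_mul, mul_one, h2 s t,
      smul_sub, smul_smul, mul_comm (c s) (c t)]
    abel
  · show (N.D s - c s • 1) * N.X s - N.X s * (N.D s - c s • 1) = 1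
    simp only [sub_mul, mul_sub, smul_mul_assoc, mul_smul_comm, one_mul, mul_one]
    rw [← h3 s]
    abel
  · show (N.D s - c s • 1) * N.X t = N.X t * (N.D s - c s • 1)
    simp only [sub_mul, mul_sub, smul_mul_assoc, mul_smul_comm, one_mul, mul_one, h4 s t hst]

theorem tw_hol (hHSUB : S_HSUB) [Finite ι] (N : WM ι) (c : ι → ℂ) (B Z : Submodule ℂ N.V)
    (h : Hol Set.univ N B Z) : Hol Set.univ (tw N c) B Z := by
  refine (hHSUB ι Set.univ).2.2.2.2.1 ι N _ _ B Z le_rfl inferInstance (tw_isW N c h.1) ?_ h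
  intro s
  exact ⟨Submodule.subset_span (Or.inr (Or.inl ⟨s, rfl⟩)), Submodule.sub_mem _
    (Submodule.subset_span (Or.inr (Or.inr ⟨s, rfl⟩)))
    (Submodule.smul_mem _ _ (Submodule.subset_span (Or.inl rfl)))⟩

theorem tw_stOn (N : WM ι) (c : ι → ℂ) (Y : Submodule ℂ N.V) (h : StOn Set.univ N Y) :
    StOn Set.univ (tw N c) Y := fun s _ v hv =>
  ⟨(h s trivial v hv).1, Y.sub_mem (h s trivial v hv).2 (Y.smul_mem _ hv)⟩

theorem tw_piso (N : WM ι) (c : ι → ℂ) (B Z : Submodule ℂ N.V) (N' : WM ι)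
    (B' Z' : Submodule ℂ N'.V) (h : PIso Set.univ N B Z N' B' Z') :
    PIso Set.univ (tw N c) B Z (tw N' c) B' Z' := by
  obtain ⟨f, hf⟩ := h
  refine ⟨f, hf.le, tw_stOn _ _ _ hf.stB, tw_stOn _ _ _ hf.stZ, hf.le', tw_stOn _ _ _ hf.stB',
    tw_stOn _ _ _ hf.stZ', hf.maps, hf.ker, hf.onto, fun s _ z hz =>
      ⟨(hf.comm s trivial z hz).1, ?_⟩⟩
  have := (hf.comm s trivial z hz).2
  show f (N.D s z - c s • z) - (N'.D s (f z) - c s • f z) ∈ B'
  rwa [map_sub, map_smul, sub_sub_sub_cancel_right]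

theorem tw_add (hHSUB : S_HSUB) [Finite ι] (c : ι → ℂ) (ψ : Fn ι) (h : Additive ψ) :
    Additive fun (N : WM ι) B Z => ψ (tw N c) B Z := by
  refine ⟨fun N B Y Z hH hBY hYZ hY => ?_, fun N B Z N' B' Z' hH hW hI => ?_⟩
  · exact h.add (tw N c) B Y Z (tw_hol hHSUB N c B Z hH) hBY hYZ
      ((stOn_univ _ _).1 (tw_stOn N c Y ((stOn_univ _ _).2 hY)))
  · exact h.iso (tw N c) B Z (tw N' c) B' Z' (tw_hol hHSUB N c B Z hH) (tw_isW N' c hW)
      (tw_piso N c B Z N' B' Z' hI)

theorem push_eq (τ : Type) [Fintype τ] : ∃ l0 : List τ, l0.Nodup ∧ (∀ t, t ∈ l0) ∧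
    ∀ (M : WM τ) (B Z : Submodule ℂ M.V),
      push (Empty.elim : Empty → τ) WM.dim M B Z = itr (V := M.V) dm (l0.map M.D) B Z := by
  refine ⟨_, ?_, ?_, fun M B Z => iter_eq WM.dim (M.res Empty.elim) _ B Z⟩
  · exact Finset.nodup_toList _
  · intro t
    simp

variable {τ : Type} [Fintype τ] [DecidableEq τ]

/-- The shear. -/
def gm (c : τ → ℂ) : Matrix (τ ⊕ Unit) (Option τ) ℂ := fun s o =>
  Sum.elim (fun t => o.elim 0 fun t' => if t = t' then 1 else 0) (fun _ => o.elim 1 c) s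

/-- The inverse shear. -/
def dl (c : τ → ℂ) : Matrix (Option τ) (τ ⊕ Unit) ℂ := fun o s =>
  o.elim (Sum.elim (fun t => -c t) (fun _ => 1) s)
    fun t => Sum.elim (fun t' => if t = t' then 1 else 0) (fun _ => 0) s

theorem gm_dl (c : τ → ℂ) : gm c * dl c = 1 := by
  ext (s | s) (t | t) <;>
    simp [Matrix.mul_apply, gm, dl, Fintype.sum_option, Matrix.one_apply]

theorem dl_gm (c : τ → ℂ) : dl c * gm c = 1 := by
  ext (_ | s) (_ | t) <;>
    simp [Matrix.mul_apply, gm, dl, Fintype.sum_sum_type, Matrix.one_apply]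

theorem aff_inl (c : τ → ℂ) (N : WM (Option τ)) (t : τ) :
    (N.aff (gm c) (dl c) 0).D (Sum.inl t) = N.D (some t) - c t • N.D none := by
  show ∑ o, dl c o (Sum.inl t) • N.D o = _
  simp [Fintype.sum_option, dl, ite_smul, sub_eq_neg_add]

theorem aff_inr (c : τ → ℂ) (N : WM (Option τ)) :
    (N.aff (gm c) (dl c) 0).D (Sum.inr ()) = N.D none := by
  show ∑ o, dl c o (Sum.inr ()) • N.D o = _
  simp [Fintype.sum_option, dl]

theorem key (hHSUB : S_HSUB) (hDIM : S_DIM) (hPUSH : S_PUSH) (hIPERM : S_IPERM) (hAFFM : S_AFFM)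
    (hE : Additive expFn) (c : τ → ℂ) (N : WM (Option τ)) (hN : N.Holo) :
    push Sum.inr expFn (N.aff (gm c) (dl c) 0) ⊥ ⊤ =
      iter (fun M B Z => push (Empty.elim : Empty → τ) WM.dim (tw M c) B Z) (N.res some)
        [N.D none - 1] ⊥ ⊤ := by
  classical
  obtain ⟨l0, hnd, hmem, hl0⟩ := push_eq τ
  have hnd' : (l0.map (Sum.inl : τ → τ ⊕ Unit)).Nodup := hnd.map Sum.inl_injective
  set N' := N.aff (gm c) (dl c) 0 with hN'
  have a1 : N'.D (Sum.inr ()) = N.D none := aff_inr c N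
  have a2 : ∀ t, N'.D (Sum.inl t) = N.D (some t) - c t • N.D none := aff_inl c N
  have hH : Hol Set.univ N' ⊥ ⊤ :=
    (hAFFM _ _ (gm c) (dl c) 0 (gm_dl c) (dl_gm c)).2.2.2.1 N ⊥ ⊤ hN
  have h1 := (hPUSH Unit (τ ⊕ Unit) Sum.inr Sum.inr_injective).2.1 expFn (l0.map Sum.inl) hE hnd'
    (by rintro (t | t) <;> simp [hmem]) N' ⊥ ⊤ hH
  let e : τ ⊕ Unit → ℂ := Sum.elim 0 1
  have hH2 := tw_hol hHSUB N' e ⊥ ⊤ hH
  have h2 := hIPERM Empty (τ ⊕ Unit) Empty.elim WM.dim (fun a => a.elim) (hDIM Empty).1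
    (l0.map Sum.inl ++ [Sum.inr ()]) (Sum.inr () :: l0.map Sum.inl)
    (List.perm_append_singleton _ _) (by
      rw [List.nodup_append]
      exact ⟨hnd', List.nodup_singleton _, by simp⟩) (by simp) (tw N' e) ⊥ ⊤ (by
      have : (Set.range (Empty.elim : Empty → τ ⊕ Unit) ∪
          {t | t ∈ l0.map Sum.inl ++ [Sum.inr ()]}) = Set.univ := by
        ext (t | t) <;> simp [hmem]
      rw [this]
      exact hH2)
  have hu : (tw N' e).D (Sum.inr ()) = N.D none - 1 := by
    show N'.D (Sum.inr ()) - e (Sum.inr ()) • 1 = _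
    rw [a1]
    simp [e]
  have ht : (tw N' e).D ∘ Sum.inl = fun t => N.D (some t) - c t • N.D none := by
    funext t
    show N'.D (Sum.inl t) - e (Sum.inl t) • 1 = _
    rw [a2]
    simp [e]
  have ht' : N'.D ∘ Sum.inl = fun t => N.D (some t) - c t • N.D none :=
    funext a2
  rw [iter_eq, iter_eq, List.map_append, List.map_cons, List.map_cons, List.map_nil, List.map_map,
    hu, ht, itr_append] at h2
  rw [h1, iter_eq, List.map_map, ht']
  have h3 : expFn (N'.res Sum.inr) = itr (V := N.V) dm [N.D none - 1] := by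
    funext B Z
    show iter WM.dim _ [N'.D (Sum.inr ()) - 1] B Z = _
    rw [iter_eq, a1]
    rfl
  rw [h3]
  refine Eq.trans h2 ?_
  have h4 : ∀ B Z : Submodule ℂ N.V, (∀ z ∈ Z, (N.D none - 1) z ∈ B) →
      itr (V := N.V) dm (l0.map fun t => N.D (some t) - c t • N.D none) B Z =
        push (Empty.elim : Empty → τ) WM.dim (tw (N.res some) c) B Z := by
    intro B Z h
    refine Eq.trans (itr_congr dm l0 _ (fun t => N.D (some t) - c t • (1 : Module.End ℂ N.V)) B Z
      fun t z hz => ?_) ?_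
    · have := B.smul_mem (-c t) (h z hz)
      convert this using 1
      simp [smul_sub]
      abel
    · exact (hl0 (tw (N.res some) c) B Z).symm
  show itr (V := N.V) dm _ ⊥ (⊤ ⊓ Submodule.comap (N.D none - 1) ⊥) -
    itr (V := N.V) dm _ (⊥ ⊔ Submodule.map (N.D none - 1) ⊤) ⊤ = _
  rw [h4 ⊥ (⊤ ⊓ Submodule.comap (N.D none - 1) ⊥) fun z hz => (Submodule.mem_inf.1 hz).2,
    h4 (⊥ ⊔ Submodule.map (N.D none - 1) ⊤) ⊤
      fun z hz => Submodule.mem_sup_right (Submodule.mem_map_of_mem hz)]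
  rfl

end ExplAux

open ExplAux in
theorem p_EXPL (hHSUB : S_HSUB) (hDIM : S_DIM) (hPUSH : S_PUSH) (hIPERM : S_IPERM)
    (hAFFM : S_AFFM) (hCLS : S_CLS) (hAFF : S_AFF) (hONE : S_ONE) (hECH : S_ECH) :
    S_EXPL := by
  intro τ _ c S hS
  classical
  have hφ : Additive fun (M : WM τ) B Z =>
      push (Empty.elim : Empty → τ) WM.dim (tw M c) B Z :=
    tw_add hHSUB c _ ((hPUSH Empty τ Empty.elim fun a => a.elim).1 _ (hDIM Empty).1)
  have hψ : Additive (push (Sum.inr : Unit → τ ⊕ Unit) expFn) :=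
    (hPUSH Unit (τ ⊕ Unit) Sum.inr Sum.inr_injective).1 _ hECH.1
  have hS0 : Con {z : Option τ → ℂ | z ∘ some ∈ S ∧ z none = 0} :=
    (hS.comp some).and (Con.eq_zero (PolyFn.coord none))
  have h1 := (hONE τ _ S hφ hS).2.2
  have h2 := (hAFF (Option τ) (τ ⊕ Unit) _ _ hψ hS0).1 (gm c) (dl c) 0 (gm_dl c) (dl_gm c)
  have h3 := (hCLS (Option τ)).2.2.2.2.1 _ _ {z : Option τ → ℂ | z ∘ some ∈ S ∧ z none = 0}
    (key hHSUB hDIM hPUSH hIPERM hAFFM hECH.1 c)
  refine h1.symm.trans (h3.symm.trans (h2.trans ?_))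
  unfold ech intg
  congr 1
  ext x
  have h4 : (dl c).mulVec (x - 0) ∘ some = x ∘ Sum.inl := by
    funext t
    simp [Matrix.mulVec, dotProduct, dl, Fintype.sum_sum_type]
  have h5 : (dl c).mulVec (x - 0) none = x (Sum.inr ()) - ∑ t, c t * x (Sum.inl t) := by
    simp [Matrix.mulVec, dotProduct, dl, Fintype.sum_sum_type, sub_eq_neg_add]
  simp only [Set.mem_ofPred_eq, h4, h5, sub_eq_zero, Function.comp]

end Pool.Agent.P.MP_52ab5a_al
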