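import Pool.Agent.P.MP_52ab5a_al.K.Iface
import Pool.Agent.P.MP_52ab5a_al.A.Iface

/-! Step FUB of the open orbit project. -/

namespace Pool.Agent.P.MP_52ab5a_al

open MvPolynomial WM

namespace FubAux

theorem iter_aff {σ : Type} [Fintype σ] (φ : Fn σ) (M : WM σ) (γ δ : Matrix σ σ ℂ) (a : σ → ℂ)
    (L : List (Module.End ℂ M.V)) (B Z : Submodule ℂ M.V) :
    iter (fun N B Z => φ (N.aff γ δ a) B Z) M L B Z = iter φ (M.aff γ δ a) L B Z := by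
  induction L generalizing B Z with
  | nil => rfl
  | cons T l ih => simp only [iter, ih]

theorem iter_ops {ι σ : Type} (φ : Fn σ) (N : WM ι) {X' D' X'' D'' : σ → Module.End ℂ N.V}
    {L L' : List (Module.End ℂ N.V)} (hX : X' = X'') (hD : D' = D'') (hL : L = L')
    (B Z : Submodule ℂ N.V) : iter φ (N.ops X' D') L B Z = iter φ (N.ops X'' D'') L' B Z := by
  subst hX hD hL; rfl

theorem push_aff {τ σ : Type} [Fintype τ] [Fintype σ] [DecidableEq τ] (φ : Fn σ)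
    (γ δ : Matrix σ σ ℂ) (N : WM (τ ⊕ σ)) (B Z : Submodule ℂ N.V) :
    push Sum.inr (fun M B Z => φ (M.aff γ δ 0) B Z) N B Z =
      push Sum.inr φ (N.aff (Matrix.fromBlocks (1 : Matrix τ τ ℂ) 0 0 γ)
        (Matrix.fromBlocks (1 : Matrix τ τ ℂ) 0 0 δ) 0) B Z := by
  unfold push
  rw [iter_aff]
  refine iter_ops φ N (funext fun s => ?_) (funext fun s => ?_) (List.map_congr_left fun t ht => ?_) B Z
  · simp [Fintype.sum_sum_type]
  · simp [Fintype.sum_sum_type]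
  · rcases t with t | t
    · simp [Fintype.sum_sum_type, Matrix.one_apply]
    · simp at ht

end FubAux

open FubAux in
theorem p_FUB (hPUSH : S_PUSH) (hAFFM : S_AFFM) (hRESM : S_RESM) (hREGH : S_REGH) (hCLS : S_CLS) (hAFF : S_AFF) :
    S_FUB := by
  intro τ σ _ _ S hS
  refine ⟨fun ν σ₀ _ _ e φ hφ => ?_, fun γ δ φ hφ h1 h2 => ?_⟩
  · classical
    let e' : (τ ⊕ ν) ⊕ σ₀ ≃ τ ⊕ σ := (Equiv.sumAssoc τ ν σ₀).trans ((Equiv.refl τ).sumCongr e)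
    have a1 := (hPUSH σ₀ (ν ⊕ σ₀) Sum.inr Sum.inr_injective).1 φ hφ
    have a2 := (hPUSH σ₀ ((τ ⊕ ν) ⊕ σ₀) Sum.inr Sum.inr_injective).1 φ hφ
    have hset : {z : (τ ⊕ ν) ⊕ σ₀ → ℂ | Sum.elim (z ∘ Sum.inl ∘ Sum.inl)
        (Sum.elim (z ∘ Sum.inl ∘ Sum.inr) (z ∘ Sum.inr) ∘ e.symm) ∈ S} =
        {x | x ∘ e'.symm ∈ S} := by
      ext z
      have : Sum.elim (z ∘ Sum.inl ∘ Sum.inl)
          (Sum.elim (z ∘ Sum.inl ∘ Sum.inr) (z ∘ Sum.inr) ∘ e.symm) = z ∘ e'.symm := by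
        funext t
        rcases t with t | t
        · rfl
        · obtain ⟨u, rfl⟩ := e.surjective t
          have h : e'.symm (Sum.inr (e u)) = (Equiv.sumAssoc τ ν σ₀).symm (Sum.inr u) := by
            simp [e']
          simp only [Sum.elim_inr, Function.comp_apply, Equiv.symm_apply_apply, h]
          rcases u with u | u <;> rfl
      simp only [Set.mem_ofPred_eq, this]
    unfold intg
    rw [hset, ← (hAFF (τ ⊕ σ) ((τ ⊕ ν) ⊕ σ₀) (push Sum.inr φ) S a2 hS).2 e']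
    refine (hCLS (τ ⊕ σ)).2.2.2.2.1 _ _ S fun N hN => ?_
    have b1 : (fun (M : WM σ) B Z => push Sum.inr φ (M.res e) B Z) = push e (push Sum.inr φ) := by
      funext M B Z
      exact ((hPUSH (ν ⊕ σ₀) σ e e.injective).2.2.2.1 _ e.surjective M B Z).symm
    rw [b1, ← (hPUSH (ν ⊕ σ₀) σ e e.injective).2.2.1 _ (τ ⊕ σ) Sum.inr a1 Sum.inr_injective N _ _ hN,
      ← (hPUSH σ₀ (ν ⊕ σ₀) Sum.inr Sum.inr_injective).2.2.1 φ (τ ⊕ σ) (Sum.inr ∘ e) hφ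
        (Sum.inr_injective.comp e.injective) N _ _ hN,
      ← (hPUSH ((τ ⊕ ν) ⊕ σ₀) (τ ⊕ σ) e' e'.injective).2.2.2.1 (push Sum.inr φ)
        e'.surjective N,
      ← (hPUSH σ₀ ((τ ⊕ ν) ⊕ σ₀) Sum.inr Sum.inr_injective).2.2.1 φ (τ ⊕ σ) e' hφ
        e'.injective N _ _ hN]
    rfl
  · classical
    have a2 := (hPUSH σ (τ ⊕ σ) Sum.inr Sum.inr_injective).1 φ hφ
    have h := (hAFF (τ ⊕ σ) (τ ⊕ σ) (push Sum.inr φ) S a2 hS).1
      (Matrix.fromBlocks (1 : Matrix τ τ ℂ) 0 0 γ) (Matrix.fromBlocks (1 : Matrix τ τ ℂ) 0 0 δ) 0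
      (by simp [Matrix.fromBlocks_multiply, h1]) (by simp [Matrix.fromBlocks_multiply, h2])
    have hset : {z : τ ⊕ σ → ℂ | Sum.elim (z ∘ Sum.inl) (δ.mulVec (z ∘ Sum.inr)) ∈ S} =
        {x | (Matrix.fromBlocks (1 : Matrix τ τ ℂ) 0 0 δ).mulVec (x - 0) ∈ S} := by
      ext z
      simp [Matrix.fromBlocks_mulVec]
    unfold intg
    rw [hset, ← h]
    exact (hCLS (τ ⊕ σ)).2.2.2.2.1 _ _ S fun N _ => push_aff φ γ δ N _ _

end Pool.Agent.P.MP_52ab5a_al
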