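import Pool.Agent.P.MP_52ab5a_al.K.Iface

/-! Step GEN of the open orbit project. -/

namespace Pool.Agent.P.MP_52ab5a_al

namespace GenAux

open Polynomial

theorem strip {S : Type} [CommRing S] [IsDomain S] [IsPrincipalIdealRing S] {q : S} (hq : q ≠ 0)
    (e : S) : ∃ (r : S) (N : ℕ), r ∣ q ∧ q ∣ r * e ^ N ∧ IsCoprime r e := by
  obtain ⟨r, ⟨h1, N, h2⟩, h3⟩ := wellFounded_dvdNotUnit.has_min
    {r | r ∣ q ∧ ∃ N : ℕ, q ∣ r * e ^ N} ⟨q, dvd_rfl, 0, by simp⟩
  have hr : r ≠ 0 := ne_zero_of_dvd_ne_zero hq h1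
  refine ⟨r, N, h1, h2, isCoprime_of_dvd _ _ (fun h => hr h.1) ?_⟩
  rintro z hz - ⟨r₁, rfl⟩ ⟨e₁, rfl⟩
  exact h3 r₁ ⟨(dvd_mul_left r₁ z).trans h1, N + 1, h2.trans ⟨e₁, by ring⟩⟩
    ⟨right_ne_zero_of_mul hr, z, hz, mul_comm _ _⟩

theorem spread {R α : Type} [CommRing R] [Finite α] (M : Submonoid R) (S : Type) [CommRing S]
    [IsDomain S] [IsPrincipalIdealRing S] [Algebra R S] [IsLocalization M S] (f : α → R) (e : R)
    (h : ∃ a, algebraMap R S (f a) ≠ 0) :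
    ∃ r : R, r ≠ 0 ∧ ∃ m ∈ M, ∀ φ : R →+* ℂ, φ m ≠ 0 →
      ((∀ a, φ (f a) = 0) ∧ φ e ≠ 0 ↔ φ r = 0) := by
  have := Fintype.ofFinite α
  have cl : ∀ (T : Set R) (p : R), algebraMap R S p ∈ Ideal.span (algebraMap R S '' T) →
      ∃ m ∈ M, ∀ φ : R →+* ℂ, φ m ≠ 0 → (∀ t ∈ T, φ t = 0) → φ p = 0 := by
    intro T p hp
    rw [← Ideal.map_span, IsLocalization.algebraMap_mem_map_algebraMap_iff M] at hp
    obtain ⟨m, hm, h1⟩ := hp
    refine ⟨m, hm, fun φ h2 h3 => ?_⟩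
    have h4 : Ideal.span T ≤ RingHom.ker φ := Ideal.span_le.mpr h3
    have h5 : φ (m * p) = 0 := h4 h1
    rw [map_mul] at h5
    exact (mul_eq_zero.mp h5).resolve_left h2
  obtain ⟨q, hq⟩ := (IsPrincipalIdealRing.principal
    (Ideal.span (algebraMap R S '' Set.range f))).principal
  have hq1 : ∀ p, p ∈ Ideal.span (algebraMap R S '' Set.range f) ↔ q ∣ p := fun p => by
    rw [hq]; exact Ideal.mem_span_singleton
  have hq2 : ∀ a, q ∣ algebraMap R S (f a) := fun a =>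
    (hq1 _).mp (Ideal.subset_span ⟨_, ⟨a, rfl⟩, rfl⟩)
  obtain ⟨a₀, ha₀⟩ := h
  have hq0 : q ≠ 0 := ne_zero_of_dvd_ne_zero ha₀ (hq2 a₀)
  obtain ⟨r₀, N, h1, h2, h3⟩ := strip hq0 (algebraMap R S e)
  obtain ⟨⟨r, u⟩, hr⟩ := IsLocalization.surj M r₀
  have hu : Associated r₀ (algebraMap R S r) := by
    rw [← hr]; exact associated_mul_unit_right _ _ (IsLocalization.map_units S u)
  choose m₁ hm₁ e₁ using fun a => cl {r} (f a) (by
    rw [Set.image_singleton, Ideal.mem_span_singleton]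
    exact hu.symm.dvd.trans (h1.trans (hq2 a)))
  obtain ⟨m₂, hm₂, e₂⟩ := cl (Set.range f) (r * e ^ N) (by
    rw [hq1, map_mul, map_pow]
    exact h2.trans (mul_dvd_mul_right hu.dvd _))
  obtain ⟨m₃, hm₃, e₃⟩ := cl {r, e} 1 (by
    rw [Set.image_pair, map_one, Ideal.mem_span_pair]
    exact (h3.of_isCoprime_of_dvd_left hu.symm.dvd))
  refine ⟨r, fun h0 => ?_, (∏ a, m₁ a) * m₂ * m₃,
    mul_mem (mul_mem (prod_mem fun a _ => hm₁ a) hm₂) hm₃, fun φ hφ => ?_⟩
  · rw [h0, map_zero, associated_zero_iff_eq_zero] at hu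
    exact ne_zero_of_dvd_ne_zero hq0 h1 hu
  · rw [map_mul, map_mul, map_prod, mul_ne_zero_iff, mul_ne_zero_iff, Finset.prod_ne_zero_iff] at hφ
    refine ⟨fun h4 => ?_, fun h4 => ⟨fun a => e₁ a φ (hφ.1.1 a (Finset.mem_univ a))
      (by simpa using h4), fun h5 => ?_⟩⟩
    · have h5 := e₂ φ hφ.1.2 (by rintro _ ⟨a, rfl⟩; exact h4.1 a)
      rw [map_mul, map_pow] at h5
      exact (mul_eq_zero.mp h5).resolve_right (pow_ne_zero _ h4.2)
    · simpa using e₃ φ hφ.2 (by simp [h4, h5])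

attribute [local instance] Polynomial.algebra in
theorem spread' {D α : Type} [CommRing D] [IsDomain D] [Finite α] (f : α → D[X]) (e : D[X])
    (h : ∃ a, f a ≠ 0) :
    ∃ (r : D[X]) (c : D), r ≠ 0 ∧ c ≠ 0 ∧ ∀ φ : D[X] →+* ℂ, φ (C c) ≠ 0 →
      ((∀ a, φ (f a) = 0) ∧ φ e ≠ 0 ↔ φ r = 0) := by
  have := Polynomial.isLocalization (nonZeroDivisors D) (FractionRing D)
  obtain ⟨r, hr, _, ⟨c, hc, rfl⟩, H⟩ := spread ((nonZeroDivisors D).map C) (FractionRing D)[X] f e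
    (h.imp fun a ha => (Polynomial.map_ne_zero_iff (IsFractionRing.injective D _)).mpr ha)
  exact ⟨r, c, hr, nonZeroDivisors.ne_zero hc, H⟩

theorem root_iff {p : ℂ[X]} (hp : p ≠ 0) (h : {y | p.eval y = 0}.Subsingleton) (y : ℂ) :
    p.eval y = 0 ↔
      0 < p.natDegree ∧ p.leadingCoeff * y = -((p.natDegree : ℂ)⁻¹ * p.nextCoeff) := by
  have key : ∀ y, p.eval y = 0 →
      0 < p.natDegree ∧ p.leadingCoeff * y = -((p.natDegree : ℂ)⁻¹ * p.nextCoeff) := by
    intro y hy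
    have h1 : p.roots = Multiset.replicate p.natDegree y := Multiset.eq_replicate.mpr
      ⟨IsAlgClosed.card_roots_eq_natDegree, fun b hb => h ((mem_roots hp).mp hb) hy⟩
    have h2 : 0 < p.natDegree := by
      rw [← IsAlgClosed.card_roots_eq_natDegree]
      exact Multiset.card_pos_iff_exists_mem.mpr ⟨y, (mem_roots hp).mpr hy⟩
    have h3 : (p.natDegree : ℂ) ≠ 0 := Nat.cast_ne_zero.mpr h2.ne'
    refine ⟨h2, ?_⟩
    rw [(IsAlgClosed.splits p).nextCoeff_eq_neg_sum_roots_mul_leadingCoeff, h1,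
      Multiset.sum_replicate, nsmul_eq_mul]
    field_simp
  refine ⟨key y, fun ⟨h1, h2⟩ => ?_⟩
  obtain ⟨z, hz⟩ := IsAlgClosed.exists_root p (natDegree_pos_iff_degree_pos.mp h1).ne'
  rw [mul_left_cancel₀ (leadingCoeff_ne_zero.mpr hp) (h2.trans (key z hz).2.symm)]
  exact hz

end GenAux

open MvPolynomial WM

open GenAux in
theorem p_GEN :
    S_GEN := by
  intro ι α _ _ P f e hP H
  have hev : ∀ (x : ι → ℂ) (hx : ∀ q ∈ P, eval x q = 0) (y : ℂ) (p : Polynomial (MvPolynomial ι ℂ)),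
      Polynomial.eval₂RingHom (Ideal.Quotient.lift P (eval x) hx) y
        (p.map (Ideal.Quotient.mk P)) = (p.map (eval x)).eval y := fun x hx y p => by
    rw [Polynomial.coe_eval₂RingHom, Polynomial.eval₂_map, Polynomial.eval_map,
      Ideal.Quotient.lift_comp_mk]
  by_cases h : ∃ a, (f a).map (Ideal.Quotient.mk P) ≠ 0
  · obtain ⟨r, c, hr, hc, K⟩ := spread' _ (e.map (Ideal.Quotient.mk P)) h
    obtain ⟨c', hc'⟩ := Ideal.Quotient.mk_surjective c
    obtain ⟨l', hl'⟩ := Ideal.Quotient.mk_surjective r.leadingCoeff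
    obtain ⟨n', hn'⟩ := Ideal.Quotient.mk_surjective r.nextCoeff
    refine ⟨c' * -(C (r.natDegree : ℂ)⁻¹ * n'), c' * l', 0 < r.natDegree, fun h0 => ?_,
      fun x hx h0 y => ?_⟩
    · rw [← Ideal.Quotient.eq_zero_iff_mem, map_mul, hc', hl'] at h0
      exact mul_ne_zero hc (Polynomial.leadingCoeff_ne_zero.mpr hr) h0
    · rw [map_mul, mul_ne_zero_iff] at h0
      have h1 : ∀ y, ((∀ a, ((f a).map (eval x)).eval y = 0) ∧ (e.map (eval x)).eval y ≠ 0) ↔
          (r.map (Ideal.Quotient.lift P (eval x) hx)).eval y = 0 := fun y => by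
        have h2 := K (Polynomial.eval₂RingHom (Ideal.Quotient.lift P (eval x) hx) y) (by
          rw [Polynomial.coe_eval₂RingHom, Polynomial.eval₂_C, ← hc', Ideal.Quotient.lift_mk]
          exact h0.1)
        simp only [hev] at h2
        rw [h2, Polynomial.coe_eval₂RingHom, Polynomial.eval_map]
      have h2 : Ideal.Quotient.lift P (eval x) hx r.leadingCoeff ≠ 0 := by
        rw [← hl', Ideal.Quotient.lift_mk]; exact h0.2
      have h3 := Polynomial.leadingCoeff_map_of_leadingCoeff_ne_zero _ h2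
      have h4 := H x hx
      simp only [h1] at h4
      rw [h1, root_iff (Polynomial.leadingCoeff_ne_zero.mp (h3 ▸ h2)) h4, h3,
        Polynomial.natDegree_map_of_leadingCoeff_ne_zero _ h2,
        Polynomial.nextCoeff_map_of_leadingCoeff_ne_zero _ h2, ← hl', ← hn',
        Ideal.Quotient.lift_mk, Ideal.Quotient.lift_mk, map_mul, map_mul, mul_assoc,
        mul_right_inj' h0.1, map_neg, map_mul, eval_C]
  · refine ⟨0, 1, False, (Ideal.ne_top_iff_one P).mp hP.ne_top, fun x hx _ y => ?_⟩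
    simp only [false_and, iff_false]
    rintro ⟨-, h1⟩
    have h2 : ∀ a y, ((f a).map (eval x)).eval y = 0 := fun a y => by
      rw [← hev x hx, not_not.mp (not_exists.mp h a), map_zero]
    have h3 := H x hx
    simp only [h2, implies_true, true_and] at h3
    rw [Polynomial.eq_zero_of_infinite_isRoot (e.map (eval x))
      (Set.infinite_of_finite_compl h3.finite), Polynomial.eval_zero] at h1
    exact h1 rfl

end Pool.Agent.P.MP_52ab5a_al
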