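import Pool.Agent.P.MP_52ab5a_al.K.Iface
import Pool.Agent.P.MP_52ab5a_al.A.Iface

/-! Step KAP of the open orbit project. -/

namespace Pool.Agent.P.MP_52ab5a_al

open MvPolynomial WM

namespace KapAux

variable {σ : Type} {w : σ → ℤ} {Y : σ ⊕ σ → ℂ}

theorem comm {N : WM σ} {P : Module.End ℂ N.V} {t : σ} (h1 : Commute P (N.X t))
    (h2 : Commute P (N.D t)) : Commute P ((N.kt w Y).X t) ∧ Commute P ((N.kt w Y).D t) := by
  dsimp only
  split_ifs
  · exact ⟨h2.neg_right, h1.sub_right ((Commute.one_right P).smul_right _)⟩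
  · exact ⟨h1, h2.sub_right ((Commute.one_right P).smul_right _)⟩

theorem isW {N : WM σ} (h : N.IsW) : (N.kt w Y).IsW := by
  have c : ∀ s t, s ≠ t → (Commute ((N.kt w Y).X s) ((N.kt w Y).X t) ∧
      Commute ((N.kt w Y).X s) ((N.kt w Y).D t)) ∧ Commute ((N.kt w Y).D s) ((N.kt w Y).X t) ∧
      Commute ((N.kt w Y).D s) ((N.kt w Y).D t) := fun s t hst => by
    have a1 := comm (w := w) (Y := Y) (h.1 t s) (h.2.2.2 s t hst).symm
    have a2 := comm (w := w) (Y := Y) (h.2.2.2 t s hst.symm) (h.2.1 t s)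
    exact ⟨comm a1.1.symm a2.1.symm, comm a1.2.symm a2.2.symm⟩
  refine ⟨fun s t => ?_, fun s t => ?_, fun s => ?_, fun s t hst => (c s t hst).2.1⟩
  · by_cases hst : s = t
    · rw [hst]
    · exact (c s t hst).1.1
  · by_cases hst : s = t
    · rw [hst]
    · exact (c s t hst).2.2
  · refine Eq.trans ?_ (h.2.2.1 s)
    dsimp only
    split_ifs
    · simp only [mul_sub, sub_mul, mul_neg, neg_mul, smul_mul_assoc, mul_smul_comm, one_mul,
        mul_one, smul_neg]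
      abel
    · simp only [mul_sub, sub_mul, smul_mul_assoc, mul_smul_comm, one_mul, mul_one]
      abel

theorem st {N : WM σ} {B : Submodule ℂ N.V} (h : StOn Set.univ N B) :
    StOn Set.univ (N.kt w Y) B := fun s hs v hv => by
  obtain ⟨h1, h2⟩ := h s hs v hv
  dsimp only
  split_ifs
  · exact ⟨B.neg_mem h2, B.sub_mem h1 (B.smul_mem _ hv)⟩
  · exact ⟨h1, B.sub_mem h2 (B.smul_mem _ hv)⟩

theorem piso {N N' : WM σ} {B Z : Submodule ℂ N.V} {B' Z' : Submodule ℂ N'.V}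
    (h : PIso Set.univ N B Z N' B' Z') : PIso Set.univ (N.kt w Y) B Z (N'.kt w Y) B' Z' := by
  obtain ⟨f, h⟩ := h
  refine ⟨f, h.le, st h.stB, st h.stZ, h.le', st h.stB', st h.stZ', h.maps, h.ker, h.onto,
    fun s hs z hz => ?_⟩
  obtain ⟨h1, h2⟩ := h.comm s hs z hz
  dsimp only
  split_ifs
  · simp only [LinearMap.neg_apply, LinearMap.sub_apply, LinearMap.smul_apply,
      Module.End.one_apply, map_neg, map_sub, map_smul, sub_sub_sub_cancel_right, neg_sub_neg]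
    exact ⟨sub_mem_comm_iff.1 h2, h1⟩
  · simp only [LinearMap.sub_apply, LinearMap.smul_apply,
      Module.End.one_apply, map_sub, map_smul, sub_sub_sub_cancel_right]
    exact ⟨h1, h2⟩

theorem box {σ' : Type} {w' : σ' → ℤ} {Y' : σ' ⊕ σ' → ℂ} (M : WM σ) (N : WM σ') :
    (M.box N).kt (Sum.elim w w') (Sum.elim (Sum.elim (Y ∘ Sum.inl) (Y' ∘ Sum.inl))
      (Sum.elim (Y ∘ Sum.inr) (Y' ∘ Sum.inr))) = (M.kt w Y).box (N.kt w' Y') := by
  unfold WM.kt WM.ops WM.box
  congr 1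
  · funext s
    rcases s with s | s <;> simp only [Sum.elim_inl, Sum.elim_inr] <;> split_ifs <;>
      simp only [LinearMap.rTensor_neg, LinearMap.lTensor_neg]
  · funext s
    rcases s with s | s <;> simp only [Sum.elim_inl, Sum.elim_inr, Function.comp_apply] <;>
      split_ifs <;>
      simp only [LinearMap.rTensor_sub, LinearMap.lTensor_sub, LinearMap.rTensor_smul,
        LinearMap.lTensor_smul, Module.End.one_eq_id, LinearMap.rTensor_id, LinearMap.lTensor_id]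

end KapAux

theorem p_KAP (hPISO : S_PISO) (hHSUB : S_HSUB) (hDIM : S_DIM) (hPUSH : S_PUSH) (hRESM : S_RESM) (hBOXH : S_BOXH) (hBOXP : S_BOXP) :
    S_KAP := by
  have inj : ∀ σ : Type, Function.Injective (Empty.elim : Empty → σ) := fun _ a => a.elim
  have hol : ∀ (σ : Type) [Fintype σ] (w : σ → ℤ) (Y : σ ⊕ σ → ℂ) (N : WM σ) B Z,
      Hol Set.univ N B Z → Hol Set.univ (N.kt w Y) B Z := fun σ _ w Y N B Z h => by
    refine (hHSUB σ Set.univ).2.2.2.2.1 σ N _ _ B Z le_rfl inferInstance (KapAux.isW h.1)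
      (fun s => ?_) h
    have a0 := Submodule.subset_span (R := ℂ)
      (Set.mem_insert 1 (Set.range N.X ∪ Set.range N.D))
    have a1 := Submodule.subset_span (R := ℂ) (Set.mem_insert_of_mem 1
      (Set.mem_union_left (Set.range N.D) (Set.mem_range_self (f := N.X) s)))
    have a2 := Submodule.subset_span (R := ℂ) (Set.mem_insert_of_mem 1
      (Set.mem_union_right (Set.range N.X) (Set.mem_range_self (f := N.D) s)))
    split_ifs
    · exact ⟨neg_mem a2, sub_mem a1 (Submodule.smul_mem _ _ a0)⟩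
    · exact ⟨a1, sub_mem a2 (Submodule.smul_mem _ _ a0)⟩
  have hd := (hDIM Empty).1
  intro σ _ w Y
  have ha := (hPUSH Empty σ _ (inj σ)).1 _ hd
  refine ⟨fun N => KapAux.isW, hol σ w Y, ⟨fun N B Y' Z h h1 h2 h3 => ?_,
    fun N B Z N' B' Z' h h1 h2 => ?_⟩, fun σ' _ e N h => ?_, fun σ' _ w' Y' M N hM hN => ?_⟩
  · exact ha.add (N.kt w Y) B Y' Z (hol σ w Y N B Z h) h1 h2
      ((stOn_univ _ _).1 (KapAux.st ((stOn_univ _ _).2 h3)))
  · exact ha.iso (N.kt w Y) B Z (N'.kt w Y) B' Z' (hol σ w Y N B Z h) (KapAux.isW h1)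
      (KapAux.piso h2)
  · have a1 := (hPUSH Empty σ' _ (inj σ')).2.2.1 _ σ e hd e.injective _ ⊥ ⊤ (hol σ w Y N ⊥ ⊤ h)
    rw [(hPUSH σ' σ e e.injective).2.2.2.1 _ e.surjective,
      Subsingleton.elim (e ∘ Empty.elim) Empty.elim] at a1
    exact a1.symm
  · let e : Empty ≃ Empty ⊕ Empty := Equiv.equivOfIsEmpty _ _
    have hM' := hol σ w Y M ⊥ ⊤ hM
    have hN' := hol σ' w' Y' N ⊥ ⊤ hN
    have a1 := hBOXP Empty Empty σ σ' _ _ _ _ _ (inj σ) (inj σ')
      ((hRESM _ _ e).2.2.2.2.2.2 _ hd) hd hd ((hDIM Empty).2.2.2 Empty Empty e) _ _ hM' hN'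
    have a2 := (hPUSH Empty _ e e.injective).2.2.1 _ (σ ⊕ σ') _ hd ((inj σ).sumMap (inj σ')) _ ⊥ ⊤
      ((hBOXH σ σ' _ _).2.1 hM' hN')
    have a3 : push e WM.dim = fun N B Z => WM.dim (N.res e) B Z := by
      funext N B Z
      exact (hPUSH Empty _ e e.injective).2.2.2.1 _ e.surjective N B Z
    rw [a3, Subsingleton.elim (Sum.map Empty.elim Empty.elim ∘ e) Empty.elim] at a2
    exact (congrArg (fun L : WM (σ ⊕ σ') => push Empty.elim WM.dim L ⊥ ⊤)
      (KapAux.box M N)).trans (a2.trans a1)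

end Pool.Agent.P.MP_52ab5a_al
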