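import Pool.Agent.P.MP_52ab5a_al.K.Iface
import Pool.Agent.P.MP_52ab5a_al.A.Iface

/-! Step LAUR of the open orbit project. -/

namespace Pool.Agent.P.MP_52ab5a_al

open MvPolynomial WM

namespace LaurAux

theorem isW_of {ι : Type} (N L : WM ι) (e : N.V →ₗ[ℂ] L.V) (he : Function.Surjective e)
    (hX : ∀ s v, e (N.X s v) = L.X s (e v)) (hD : ∀ s v, e (N.D s v) = L.D s (e v))
    (h : N.IsW) : L.IsW := by
  obtain ⟨h1, h2, h3, h4⟩ := h
  refine ⟨fun s t => LinearMap.ext fun w => ?_, fun s t => LinearMap.ext fun w => ?_,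
    fun s => LinearMap.ext fun w => ?_, fun s t hst => LinearMap.ext fun w => ?_⟩
  all_goals obtain ⟨v, rfl⟩ := he w
  · have := congrArg e (LinearMap.congr_fun (h1 s t) v)
    simpa only [Module.End.mul_apply, hX] using this
  · have := congrArg e (LinearMap.congr_fun (h2 s t) v)
    simpa only [Module.End.mul_apply, hD] using this
  · have := congrArg e (LinearMap.congr_fun (h3 s) v)
    simpa only [Module.End.mul_apply, hD, hX, LinearMap.sub_apply, map_sub,
      Module.End.one_apply] using this
  · have := congrArg e (LinearMap.congr_fun (h4 s t hst) v)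
    simpa only [Module.End.mul_apply, hD, hX] using this

theorem piso_of {ι : Type} (N L : WM ι) (e : N.V →ₗ[ℂ] L.V) (he : Function.Injective e)
    (Z : Submodule ℂ L.V) (hZ : ∀ w, w ∈ Z ↔ ∃ v, e v = w)
    (hX : ∀ s v, e (N.X s v) = L.X s (e v)) (hD : ∀ s v, e (N.D s v) = L.D s (e v)) :
    PIso Set.univ N ⊥ ⊤ L ⊥ Z := by
  refine ⟨e, bot_le, fun s _ v hv => ?_, fun s _ v _ => ⟨trivial, trivial⟩, bot_le,
    fun s _ v hv => ?_, fun s _ w hw => ?_, fun z _ => (hZ _).2 ⟨z, rfl⟩, fun z _ => ?_,
    fun w hw => ?_, fun s _ z _ => ?_⟩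
  · rw [Submodule.mem_bot] at hv; subst hv; simp
  · rw [Submodule.mem_bot] at hv; subst hv; simp
  · obtain ⟨v, rfl⟩ := (hZ w).1 hw
    exact ⟨(hZ _).2 ⟨_, hX s v⟩, (hZ _).2 ⟨_, hD s v⟩⟩
  · simp only [Submodule.mem_bot]
    exact map_eq_zero_iff e he
  · obtain ⟨v, rfl⟩ := (hZ w).1 hw
    exact Submodule.mem_sup_left ⟨v, trivial, rfl⟩
  · simp [hX, hD]

variable {A : Type} [CommRing A] [Algebra ℂ A]

/-- The coefficients of a Laurent polynomial. -/
noncomputable def E (A : Type) [CommRing A] [Algebra ℂ A] :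
    LaurentPolynomial A ≃ₗ[ℂ] (ℤ →₀ A) := AddMonoidAlgebra.coeffLinearEquiv ℂ

theorem E_single (k : ℤ) (a : A) : E A (AddMonoidAlgebra.single k a) = Finsupp.single k a := rfl

theorem E_symm_single (k : ℤ) (a : A) :
    (E A).symm (Finsupp.single k a) = AddMonoidAlgebra.single k a := rfl

theorem leib (δ : LaurentPolynomial A →ₗ[ℂ] LaurentPolynomial A)
    (h : ∀ k a l b, δ (AddMonoidAlgebra.single k a * AddMonoidAlgebra.single l b) =
      (AddMonoidAlgebra.single k a : LaurentPolynomial A) * δ (AddMonoidAlgebra.single l b) +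
        AddMonoidAlgebra.single l b * δ (AddMonoidAlgebra.single k a))
    (x y : LaurentPolynomial A) : δ (x * y) = x • δ y + y • δ x := by
  simp only [smul_eq_mul]
  induction x using AddMonoidAlgebra.induction_linear with
  | zero => simp
  | add x x' hx hx' => rw [add_mul, map_add, hx, hx', map_add]; ring
  | single k a =>
    induction y using AddMonoidAlgebra.induction_linear with
    | zero => simp
    | add y y' hy hy' => rw [mul_add, map_add, hy, hy', map_add]; ring
    | single l b => exact h k a l b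

theorem lder_single (k : ℤ) (a : A) :
    lder A (Finsupp.single k a) = Finsupp.single (k - 1) ((k : A) * a) := by
  simp only [lder, Finsupp.lsum_single, LinearMap.smul_apply, Finsupp.lsingle_apply,
    Finsupp.smul_single]
  rw [Algebra.smul_def, map_intCast]

/-- The derivative in the variable. -/
noncomputable def dT (A : Type) [CommRing A] [Algebra ℂ A] :
    Derivation ℂ (LaurentPolynomial A) (LaurentPolynomial A) :=
  Derivation.mk' ((E A).symm.toLinearMap ∘ₗ lder A ∘ₗ (E A).toLinearMap) (leib _ fun k a l b => by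
    simp only [AddMonoidAlgebra.single_mul_single, LinearMap.comp_apply, LinearEquiv.coe_coe,
      E_single, lder_single, E_symm_single]
    rw [show k + (l - 1) = k + l - 1 by ring, show l + (k - 1) = k + l - 1 by ring,
      ← AddMonoidAlgebra.single_add]
    congr 1
    push_cast; ring)

/-- A derivation acting on the coefficients. -/
noncomputable def cw (d : Derivation ℂ A A) :
    Derivation ℂ (LaurentPolynomial A) (LaurentPolynomial A) :=
  Derivation.mk' ((E A).symm.toLinearMap ∘ₗ Finsupp.mapRange.linearMap d.toLinearMap ∘ₗ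
    (E A).toLinearMap) (leib _ fun k a l b => by
    simp only [AddMonoidAlgebra.single_mul_single, LinearMap.comp_apply, LinearEquiv.coe_coe,
      E_single, Finsupp.mapRange.linearMap_apply, Finsupp.mapRange_single, E_symm_single]
    rw [add_comm l k, ← AddMonoidAlgebra.single_add]
    congr 1
    exact d.leibniz a b)

theorem E_dT (v : LaurentPolynomial A) : E A (dT A v) = lder A (E A v) :=
  (E A).apply_symm_apply _

theorem E_cw (d : Derivation ℂ A A) (v : LaurentPolynomial A) :
    E A (cw d v) = Finsupp.mapRange.linearMap d.toLinearMap (E A v) :=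
  (E A).apply_symm_apply _

theorem E_C (c : A) (v : LaurentPolynomial A) : E A (LaurentPolynomial.C c * v) =
    Finsupp.mapRange.linearMap (LinearMap.mulLeft ℂ c) (E A v) := by
  induction v using AddMonoidAlgebra.induction_linear with
  | zero => simp
  | add x y hx hy => rw [mul_add, map_add, hx, hy, map_add, map_add]
  | single k a =>
    rw [← LaurentPolynomial.single_eq_C, AddMonoidAlgebra.single_mul_single, E_single, E_single]
    simp

theorem E_T (v : LaurentPolynomial A) : E A (LaurentPolynomial.T 1 * v) =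
    Finsupp.lmapDomain A ℂ (· + 1) (E A v) := by
  induction v using AddMonoidAlgebra.induction_linear with
  | zero => simp
  | add x y hx hy => rw [mul_add, map_add, hx, hy, map_add, map_add]
  | single k a =>
    rw [LaurentPolynomial.T, AddMonoidAlgebra.single_mul_single, E_single, E_single]
    simp [add_comm]

theorem dT_single (k : ℤ) (a : A) : dT A (AddMonoidAlgebra.single k a) =
    AddMonoidAlgebra.single (k - 1) ((k : A) * a) :=
  (E A).injective (by rw [E_dT, E_single, lder_single, E_single])

theorem cw_single (d : Derivation ℂ A A) (k : ℤ) (a : A) :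
    cw d (AddMonoidAlgebra.single k a) = AddMonoidAlgebra.single k (d a) :=
  (E A).injective (by rw [E_cw, E_single, E_single]; simp)

theorem dT_C (a : A) : dT A (LaurentPolynomial.C a) = 0 := by
  rw [← LaurentPolynomial.single_eq_C, dT_single]; simp

theorem dT_T : dT A (LaurentPolynomial.T 1) = 1 := by
  rw [LaurentPolynomial.T, dT_single]; simp

theorem cw_C (d : Derivation ℂ A A) (a : A) :
    cw d (LaurentPolynomial.C a) = LaurentPolynomial.C (d a) := by
  rw [← LaurentPolynomial.single_eq_C, cw_single]; rfl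

theorem cw_T (d : Derivation ℂ A A) : cw d (LaurentPolynomial.T 1) = 0 := by
  rw [LaurentPolynomial.T, cw_single]; simp

/-- The derivations of the ring of Laurent polynomials in `y - p`. -/
noncomputable def dd {ι : Type} (d : ι → Derivation ℂ A A) (p : A) (o : Option ι) :
    Derivation ℂ (LaurentPolynomial A) (LaurentPolynomial A) :=
  o.elim (dT A) fun s => cw (d s) - LaurentPolynomial.C (d s p) • dT A

/-- Polynomials among Laurent polynomials. -/
noncomputable def pol (A : Type) [CommRing A] [Algebra ℂ A] :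
    Subalgebra ℂ (LaurentPolynomial A) :=
  ((Polynomial.toLaurentAlg (R := A)).restrictScalars ℂ).range

theorem pol_C (a : A) : LaurentPolynomial.C a ∈ pol A :=
  ⟨Polynomial.C a, Polynomial.toLaurent_C a⟩

theorem pol_T : LaurentPolynomial.T 1 ∈ pol A := ⟨Polynomial.X, Polynomial.toLaurent_X⟩

theorem pol_ind {P : LaurentPolynomial A → Prop} (hC : ∀ a, P (LaurentPolynomial.C a))
    (hT : P (LaurentPolynomial.T 1)) (hadd : ∀ x y, x ∈ pol A → y ∈ pol A → P x → P y → P (x + y))
    (hmul : ∀ x y, x ∈ pol A → y ∈ pol A → P x → P y → P (x * y)) :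
    ∀ x ∈ pol A, P x := by
  rintro _ ⟨q, rfl⟩
  change P (Polynomial.toLaurent q)
  induction q using Polynomial.induction_on with
  | C a => rw [Polynomial.toLaurent_C]; exact hC a
  | add x y hx hy => rw [map_add]; exact hadd _ _ ⟨x, rfl⟩ ⟨y, rfl⟩ hx hy
  | monomial n a ih =>
    rw [pow_succ, ← mul_assoc, map_mul, Polynomial.toLaurent_X]
    exact hmul _ _ ⟨_, rfl⟩ pol_T ih hT

theorem der_pol (δ : Derivation ℂ (LaurentPolynomial A) (LaurentPolynomial A))
    (hC : ∀ a, δ (LaurentPolynomial.C a) ∈ pol A) (hT : δ (LaurentPolynomial.T 1) ∈ pol A) :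
    ∀ x ∈ pol A, δ x ∈ pol A :=
  pol_ind hC hT (fun x y _ _ hx hy => by rw [map_add]; exact add_mem hx hy)
    fun x y hx hy hx' hy' => by
      rw [δ.leibniz]; exact add_mem (mul_mem hx hy') (mul_mem hy hx')

theorem dd_pol {ι : Type} (d : ι → Derivation ℂ A A) (p : A) (o : Option ι) :
    ∀ x ∈ pol A, dd d p o x ∈ pol A := by
  refine der_pol _ (fun a => ?_) ?_ <;> cases o <;>
    simp only [dd, Option.elim, Derivation.sub_apply, Derivation.smul_apply, dT_C, dT_T, cw_C,
      cw_T, sub_zero, zero_sub, smul_eq_mul, mul_one, mul_zero]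
  exacts [zero_mem _, pol_C _, one_mem _, neg_mem (pol_C _)]

theorem mem_pol (v : LaurentPolynomial A) :
    v ∈ pol A ↔ E A v ∈ Finsupp.supported A ℂ {k : ℤ | 0 ≤ k} := by
  constructor
  · rintro ⟨q, rfl⟩
    change E A (Polynomial.toLaurent q) ∈ _
    induction q using Polynomial.induction_on' with
    | add x y hx hy => rw [map_add, map_add]; exact add_mem hx hy
    | monomial n a =>
      rw [Polynomial.toLaurent_C_mul_T, ← LaurentPolynomial.single_eq_C_mul_T, E_single]
      exact Finsupp.single_mem_supported ℂ a (Int.natCast_nonneg n)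
  · intro hv
    rw [← (E A).symm_apply_apply v, ← (E A v).sum_single, Finsupp.sum, map_sum]
    refine sum_mem fun k hk => ?_
    obtain ⟨n, rfl⟩ := Int.eq_ofNat_of_zero_le (show 0 ≤ k from hv hk)
    rw [E_symm_single, LaurentPolynomial.single_eq_C_mul_T]
    exact ⟨Polynomial.monomial n _, Polynomial.toLaurent_C_mul_T _ _⟩

/-- The restriction of a derivation to the polynomials. -/
noncomputable def resD (δ : Derivation ℂ (LaurentPolynomial A) (LaurentPolynomial A))
    (h : ∀ x ∈ pol A, δ x ∈ pol A) : Derivation ℂ (pol A) (pol A) :=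
  Derivation.mk'
    { toFun := fun x => ⟨δ x, h x x.2⟩
      map_add' := fun x y => Subtype.ext (map_add δ x.1 y.1)
      map_smul' := fun c x => Subtype.ext (δ.map_smul c x.1) }
    fun x y => Subtype.ext (δ.leibniz x.1 y.1)

/-- The map from polynomials in one more variable. -/
noncomputable def jj {ι : Type} (a : MvPolynomial ι ℂ →ₐ[ℂ] A) (p : A) :
    MvPolynomial (Option ι) ℂ →ₐ[ℂ] LaurentPolynomial A :=
  (((Polynomial.toLaurentAlg (R := A)).restrictScalars ℂ).comp
    (((Polynomial.algEquivAevalXAddC p).toAlgHom.restrictScalars ℂ).comp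
      (Polynomial.mapAlgHom a))).comp (optionEquivLeft ℂ ι).toAlgHom

theorem jj_none {ι : Type} (a : MvPolynomial ι ℂ →ₐ[ℂ] A) (p : A) :
    jj a p (X none) = LaurentPolynomial.T 1 + LaurentPolynomial.C p := by
  simp [jj, Polynomial.algEquivAevalXAddC]

theorem jj_rename {ι : Type} (a : MvPolynomial ι ℂ →ₐ[ℂ] A) (p : A) (q : MvPolynomial ι ℂ) :
    jj a p (rename some q) = LaurentPolynomial.C (a q) := by
  have h : optionEquivLeft ℂ ι (rename some q) = Polynomial.C q := by
    induction q using MvPolynomial.induction_on with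
    | C c => simp
    | add x y hx hy => rw [map_add, map_add, hx, hy, map_add]
    | mul_X x s hx => rw [map_mul, map_mul, hx, rename_X, optionEquivLeft_X_some, map_mul]
  simp [jj, h, Polynomial.algEquivAevalXAddC]

theorem jj_some {ι : Type} (a : MvPolynomial ι ℂ →ₐ[ℂ] A) (p : A) (s : ι) :
    jj a p (X (some s)) = LaurentPolynomial.C (a (X s)) := by
  rw [← jj_rename a p, rename_X]

theorem jj_pol {ι : Type} (a : MvPolynomial ι ℂ →ₐ[ℂ] A) (p : A) (q : MvPolynomial (Option ι) ℂ) :
    jj a p q ∈ pol A := ⟨_, rfl⟩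

theorem jj_inj {ι : Type} (a : MvPolynomial ι ℂ →ₐ[ℂ] A) (p : A) (ha : Function.Injective a) :
    Function.Injective (jj a p) :=
  ((Polynomial.toLaurent_injective.comp ((Polynomial.algEquivAevalXAddC p).injective.comp
    (Polynomial.map_injective (a : MvPolynomial ι ℂ →+* A) ha))).comp
      (optionEquivLeft ℂ ι).injective :)

end LaurAux

open LaurAux in
theorem p_LAUR (hPISO : S_PISO) (hREG : S_REG) :
    S_LAUR := by
  classical
  intro ι f g h d p hd hh hp L
  let a : MvPolynomial ι ℂ →ₐ[ℂ] (Localization.Away f) := IsScalarTower.toAlgHom ℂ _ _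
  have ha : ∀ q, a q = algebraMap _ (Localization.Away f) q := fun _ => rfl
  have hf : IsUnit (a f) := IsLocalization.Away.algebraMap_isUnit f
  have hker : ∀ q, jj a p q = 0 → ∃ k, rename some f ^ k * q = 0 := by
    intro q hq
    by_cases h0 : f = 0
    · exact ⟨1, by simp [h0]⟩
    · have hi : Function.Injective a :=
        IsLocalization.injective (Localization.Away f) (powers_le_nonZeroDivisors_of_noZeroDivisors h0)
      exact ⟨0, by rw [(map_eq_zero_iff _ (jj_inj a p hi)).1 hq, mul_zero]⟩
  have hC : ∀ c : (Localization.Away f), ∃ k q, jj a p (rename some f) ^ k * LaurentPolynomial.C c = jj a p q := by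
    intro c
    obtain ⟨⟨q, _, k, rfl⟩, hq⟩ := IsLocalization.surj (Submonoid.powers f) c
    refine ⟨k, rename some q, ?_⟩
    rw [jj_rename, jj_rename, ← map_pow, ← map_mul, ha q, ← hq, ha, map_pow, mul_comm]
  have hadd : ∀ x y : LaurentPolynomial (Localization.Away f), (∃ k q, jj a p (rename some f) ^ k * x = jj a p q) →
      (∃ k q, jj a p (rename some f) ^ k * y = jj a p q) →
      ∃ k q, jj a p (rename some f) ^ k * (x + y) = jj a p q := by
    rintro x y ⟨k, q, hq⟩ ⟨l, r, hr⟩
    refine ⟨k + l, rename some f ^ l * q + rename some f ^ k * r, ?_⟩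
    rw [map_add, map_mul, map_mul, map_pow, map_pow, ← hq, ← hr]; ring
  have hsurj : ∀ x ∈ pol (Localization.Away f), ∃ k q, jj a p (rename some f) ^ k * x = jj a p q := by
    refine pol_ind hC ?_ (fun x y _ _ => hadd x y) ?_
    · have := hadd _ _ ⟨0, X none, by rw [pow_zero, one_mul]⟩ (hC (-p))
      rwa [jj_none, map_neg, add_neg_cancel_right] at this
    · rintro x y - - ⟨k, q, hq⟩ ⟨l, r, hr⟩
      exact ⟨k + l, q * r, by rw [map_mul, ← hq, ← hr]; ring⟩
  have h1 : ∀ o, dd d p o (jj a p (X o)) = 1 := by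
    rintro (_ | s)
    · simp [dd, jj_none, dT_T, dT_C]
    · simp [dd, jj_some, cw_C, dT_C, ha, hd]
  have h2 : ∀ o o', o ≠ o' → dd d p o (jj a p (X o')) = 0 := by
    rintro (_ | s) (_ | t) hst
    · exact absurd rfl hst
    · simp [dd, jj_some, dT_C]
    · simp [dd, jj_none, cw_C, cw_T, dT_C, dT_T]
    · have : t ≠ s := fun e => hst (by rw [e])
      simp [dd, jj_some, cw_C, dT_C, ha, hd, pderiv_X, this]
  have hX : ∀ o v, E (Localization.Away f) (jj a p (X o) * v) = L.X o (E (Localization.Away f) v) := by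
    rintro (_ | s) v
    · rw [jj_none, add_mul, map_add, E_T, E_C]; rfl
    · rw [jj_some, E_C]; rfl
  have hD : ∀ o v, E (Localization.Away f) (dd d p o v) = L.D o (E (Localization.Away f) v) := by
    rintro (_ | s) v
    · exact E_dT v
    · simp only [dd, Option.elim, Derivation.sub_apply, Derivation.smul_apply, smul_eq_mul, map_sub,
        E_cw, E_C, E_dT]
      rfl
  have hG : jj a p (rename some h * X none - rename some g) =
      LaurentPolynomial.C (a h) * LaurentPolynomial.T 1 := by
    rw [map_sub, map_mul, jj_rename, jj_rename, jj_none, ha g, ← hp, map_mul, ← ha h]; ring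
  obtain ⟨hW, hI⟩ := (hREG _ (rename some f * (rename some h * X none - rename some g))).2.2
    (LaurentPolynomial (Localization.Away f)) (jj a p) (dd d p)
    (by
      rw [map_mul, hG, jj_rename]
      exact (hf.map _).mul ((hh.map LaurentPolynomial.C).mul (LaurentPolynomial.isUnit_T 1)))
    (by
      intro x
      obtain ⟨n, q, hq⟩ := LaurentPolynomial.exists_T_pow x
      obtain ⟨k, r, hr⟩ := hsurj (LaurentPolynomial.C (a h) ^ n * Polynomial.toLaurent q)
        (mul_mem (pow_mem (pol_C _) n) ⟨q, rfl⟩)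
      refine ⟨k + n, rename some f ^ n * (rename some h * X none - rename some g) ^ k * r, ?_⟩
      have hT : (LaurentPolynomial.T n : LaurentPolynomial (Localization.Away f)) = LaurentPolynomial.T 1 ^ n := by
        rw [LaurentPolynomial.T_pow, mul_one]
      simp only [map_mul, map_pow]
      rw [← hr, hG, hq, hT]; ring)
    (fun q hq => by
      obtain ⟨k, hk⟩ := hker q hq
      exact ⟨k, by rw [mul_pow, mul_right_comm, hk, zero_mul]⟩) h1 h2
  obtain ⟨-, hJ⟩ := (hREG _ (rename some f)).2.2 (pol (Localization.Away f)) ((jj a p).codRestrict _ (jj_pol a p))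
    (fun o => resD _ (dd_pol d p o))
    (by
      obtain ⟨u, hu⟩ := hf.exists_right_inv
      refine IsUnit.of_mul_eq_one ⟨LaurentPolynomial.C u, pol_C u⟩ (Subtype.ext ?_)
      change jj a p _ * LaurentPolynomial.C u = 1
      rw [jj_rename, ← map_mul, hu, map_one])
    (fun x => by
      obtain ⟨k, q, hq⟩ := hsurj x.1 x.2
      exact ⟨k, q, Subtype.ext hq⟩)
    (fun q hq => hker q (congrArg Subtype.val hq))
    (fun o => Subtype.ext (h1 o)) fun o o' ho => Subtype.ext (h2 o o' ho)
  refine ⟨isW_of _ L (E (Localization.Away f)).toLinearMap (E (Localization.Away f)).surjective hX hD hW,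
    (hPISO _ _).2.2.1 _ _ _ _ _ _ _ _ _ hI (piso_of _ L (E (Localization.Away f)).toLinearMap (E (Localization.Away f)).injective ⊤
      (fun w => ⟨fun _ => (E (Localization.Away f)).surjective w, fun _ => trivial⟩) hX hD),
    (hPISO _ _).2.2.1 _ _ _ _ _ _ _ _ _ hJ (piso_of _ L
      ((E (Localization.Away f)).toLinearMap ∘ₗ (pol (Localization.Away f)).val.toLinearMap)
      ((E (Localization.Away f)).injective.comp Subtype.val_injective) _ (fun w => ⟨fun hw => ?_, ?_⟩)
      (fun o v => hX o v.1) fun o v => hD o v.1)⟩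
  · refine ⟨⟨(E (Localization.Away f)).symm w, (mem_pol _).2 ?_⟩, (E (Localization.Away f)).apply_symm_apply w⟩
    rwa [LinearEquiv.apply_symm_apply]
  · rintro ⟨v, rfl⟩
    exact (mem_pol _).1 v.2

end Pool.Agent.P.MP_52ab5a_al
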