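import Pool.Agent.P.MP_52ab5a_al.K.Iface
import Pool.Agent.P.MP_52ab5a_al.A.Iface

/-! Step LINE of the open orbit project. -/

namespace Pool.Agent.P.MP_52ab5a_al

open MvPolynomial WM

theorem p_LINE (hPUSH : S_PUSH) (hRESM : S_RESM) (hREGH : S_REGH) (hCLS : S_CLS) (hAFF : S_AFF) (hONE : S_ONE) :
    S_LINE := by
  intro τ σ _ _ φ S hφ hS
  classical
  let e : Option (τ ⊕ σ) ≃ (τ ⊕ Unit) ⊕ σ :=
    { toFun := fun o => o.elim (Sum.inl (Sum.inr ())) (Sum.map Sum.inl id)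
      invFun := Sum.elim (Sum.elim (fun j => some (Sum.inl j)) fun _ => none) fun s => some (Sum.inr s)
      left_inv := by rintro (_ | _ | _) <;> rfl
      right_inv := by rintro ((_ | _) | _) <;> rfl }
  have h1 : Additive (push (Sum.inr : σ → τ ⊕ σ) φ) := (hPUSH _ _ _ Sum.inr_injective).1 φ hφ
  have h2 : Additive (push (some : τ ⊕ σ → Option (τ ⊕ σ)) (push Sum.inr φ)) :=
    (hPUSH _ _ _ (Option.some_injective _)).1 _ h1
  have hC : Con {z : (τ ⊕ Unit) ⊕ σ → ℂ | z ∘ Sum.map Sum.inl id ∈ S} := hS.comp _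
  unfold intg
  rw [← (hONE _ _ S h1 hS).1]
  have h3 := (hAFF _ _ _ _ h2 hC).2 e
  refine Eq.trans ((hCLS _).2.2.2.2.1 _ _ _ fun N hN => ?_) (h3.trans ?_)
  · have e1 : (Sum.inr : σ → (τ ⊕ Unit) ⊕ σ) = e ∘ (some ∘ Sum.inr) := rfl
    have hi : Function.Injective (some ∘ (Sum.inr : σ → τ ⊕ σ)) :=
      (Option.some_injective _).comp Sum.inr_injective
    rw [e1, (hPUSH _ _ _ hi).2.2.1 φ _ e hφ e.injective N ⊥ ⊤ hN,
      (hPUSH _ _ e e.injective).2.2.2.1 _ e.surjective,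
      (hPUSH _ _ _ Sum.inr_injective).2.2.1 φ _ some hφ (Option.some_injective _) _ ⊥ ⊤
        ((hRESM _ _ e).2.2.2.1 N ⊥ ⊤ hN)]
  · congr 1
    ext x
    have : (x ∘ e.symm) ∘ Sum.map Sum.inl id = x ∘ some := by
      funext j; rcases j with j | j <;> rfl
    simp only [Set.mem_setOf_eq, this]

end Pool.Agent.P.MP_52ab5a_al
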