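import Pool.Agent.P.MP_52ab5a_al.K.Iface
import Pool.Agent.P.MP_52ab5a_al.A.Iface

/-! Step LOCT of the open orbit project. -/

namespace Pool.Agent.P.MP_52ab5a_al

open MvPolynomial WM

namespace LoctAux

variable {ν σ : Type}

theorem fou_isW (N : WM (ν ⊕ σ)) (h : N.IsW) : N.fou.IsW := by
  obtain ⟨hXX, hDD, hDX, hne⟩ := h
  refine ⟨?_, ?_, ?_, ?_⟩
  · rintro (s | s) (t | t)
    · show (-N.D (Sum.inl s)) * (-N.D (Sum.inl t)) = (-N.D (Sum.inl t)) * (-N.D (Sum.inl s))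
      rw [neg_mul_neg, neg_mul_neg, hDD]
    · show (-N.D (Sum.inl s)) * N.X (Sum.inr t) = N.X (Sum.inr t) * (-N.D (Sum.inl s))
      rw [neg_mul, mul_neg, hne _ _ Sum.inl_ne_inr]
    · show N.X (Sum.inr s) * (-N.D (Sum.inl t)) = (-N.D (Sum.inl t)) * N.X (Sum.inr s)
      rw [neg_mul, mul_neg, hne _ _ Sum.inl_ne_inr]
    · exact hXX _ _
  · rintro (s | s) (t | t)
    · exact hXX _ _
    · show N.X (Sum.inl s) * N.D (Sum.inr t) = N.D (Sum.inr t) * N.X (Sum.inl s)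
      rw [hne _ _ Sum.inr_ne_inl]
    · show N.D (Sum.inr s) * N.X (Sum.inl t) = N.X (Sum.inl t) * N.D (Sum.inr s)
      rw [hne _ _ Sum.inr_ne_inl]
    · exact hDD _ _
  · rintro (s | s)
    · show N.X (Sum.inl s) * (-N.D (Sum.inl s)) - (-N.D (Sum.inl s)) * N.X (Sum.inl s) = 1
      rw [← hDX (Sum.inl s), neg_mul, mul_neg]; abel
    · exact hDX _
  · rintro (s | s) (t | t) hst
    · show N.X (Sum.inl s) * (-N.D (Sum.inl t)) = (-N.D (Sum.inl t)) * N.X (Sum.inl s)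
      rw [neg_mul, mul_neg, hne _ _ hst.symm]
    · exact hXX _ _
    · show N.D (Sum.inr s) * (-N.D (Sum.inl t)) = (-N.D (Sum.inl t)) * N.D (Sum.inr s)
      rw [neg_mul, mul_neg, hDD]
    · exact hne _ _ hst

theorem fou_stable (N : WM (ν ⊕ σ)) (B : Submodule ℂ N.V) (h : N.Stable B) : N.fou.Stable B := by
  rintro (s | s) v hv
  · exact ⟨B.neg_mem (h (Sum.inl s) v hv).2, (h (Sum.inl s) v hv).1⟩
  · exact h (Sum.inr s) v hv

theorem fou_hol (hHSUB : S_HSUB) [Finite ν] [Finite σ] (N : WM (ν ⊕ σ)) (B Z : Submodule ℂ N.V)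
    (h : Hol Set.univ N B Z) : Hol Set.univ N.fou B Z := by
  refine (hHSUB (ν ⊕ σ) Set.univ).2.2.2.2.1 (ν ⊕ σ) N _ _ B Z le_rfl inferInstance
    (fou_isW N h.1) ?_ h
  have hX : ∀ s, N.X s ∈ Submodule.span ℂ (insert 1 (Set.range N.X ∪ Set.range N.D)) := fun s =>
    Submodule.subset_span (Or.inr (Or.inl ⟨s, rfl⟩))
  have hD : ∀ s, N.D s ∈ Submodule.span ℂ (insert 1 (Set.range N.X ∪ Set.range N.D)) := fun s =>
    Submodule.subset_span (Or.inr (Or.inr ⟨s, rfl⟩))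
  rintro (s | s)
  · exact ⟨Submodule.neg_mem _ (hD _), hX _⟩
  · exact ⟨hX _, hD _⟩

theorem fou_piso (N : WM (ν ⊕ σ)) (B Z : Submodule ℂ N.V) (N' : WM (ν ⊕ σ))
    (B' Z' : Submodule ℂ N'.V) (h : PIso Set.univ N B Z N' B' Z') :
    PIso Set.univ N.fou B Z N'.fou B' Z' := by
  obtain ⟨f, hf⟩ := h
  refine ⟨f, hf.le, (stOn_univ _ _).2 (fou_stable N B ((stOn_univ _ _).1 hf.stB)),
    (stOn_univ _ _).2 (fou_stable N Z ((stOn_univ _ _).1 hf.stZ)), hf.le',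
    (stOn_univ _ _).2 (fou_stable N' B' ((stOn_univ _ _).1 hf.stB')),
    (stOn_univ _ _).2 (fou_stable N' Z' ((stOn_univ _ _).1 hf.stZ')), hf.maps, hf.ker, hf.onto, ?_⟩
  rintro (s | s) - z hz
  · refine ⟨?_, (hf.comm (Sum.inl s) trivial z hz).1⟩
    have := B'.neg_mem (hf.comm (Sum.inl s) trivial z hz).2
    show f ((-N.D (Sum.inl s)) z) - (-N'.D (Sum.inl s)) (f z) ∈ B'
    rw [LinearMap.neg_apply, LinearMap.neg_apply, map_neg]
    convert this using 1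
    abel
  · exact hf.comm (Sum.inr s) trivial z hz

theorem fou_add (hHSUB : S_HSUB) [Finite ν] [Finite σ] (ψ : Fn (ν ⊕ σ)) (h : Additive ψ) :
    Additive fun (N : WM (ν ⊕ σ)) B Z => ψ N.fou B Z :=
  ⟨fun N B Y Z hH hBY hYZ hY => h.add N.fou B Y Z (fou_hol hHSUB N B Z hH) hBY hYZ
      (fou_stable N Y hY),
    fun N B Z N' B' Z' hH hW hP => h.iso N.fou B Z N'.fou B' Z' (fou_hol hHSUB N B Z hH)
      (fou_isW N' hW) (fou_piso N B Z N' B' Z' hP)⟩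

theorem scale_eq {ι : Type} [Fintype ι] [DecidableEq ι] (L : WM ι) (W : ι → ℤ) (u : ℂ) :
    L.scale W u = L.aff (Matrix.diagonal fun s => u ^ W s) (Matrix.diagonal fun s => u ^ (-W s)) 0 := by
  unfold WM.scale WM.aff
  congr 1
  · funext s
    simp [Matrix.diagonal_apply]
  · funext s
    simp [Matrix.diagonal_apply]

theorem main (hHSUB : S_HSUB) (hMULT : S_MULT) (hDEC : S_DEC) (hPUSH : S_PUSH) (hINT : S_INT)
    (hFOUR : S_FOUR) (hAFFM : S_AFFM) (hCLS : S_CLS) (hAFF : S_AFF) (hRESN : S_RESN)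
    [Fintype ν] [Fintype σ] (φ : Fn σ) (w : ν → ℤ) (hw : ∀ j, w j ≠ 0) (S : Set (ν ⊕ σ → ℂ))
    (hφ : Additive φ) (hS : Con S)
    (hinv : ∀ u : ℂ, u ≠ 0 → ∀ z ∈ S, Sum.elim (fun j => u ^ w j * z (Sum.inl j)) (z ∘ Sum.inr) ∈ S) :
    cls (push Sum.inr φ) S = cls φ {x | Sum.elim (0 : ν → ℂ) x ∈ S} := by
  classical
  obtain ⟨m, L, hL, -, hsum, hex⟩ := (hDEC (ν ⊕ σ)).1 _ ((hCLS (ν ⊕ σ)).2.2.2.2.2.1 S)
  have hpush : Additive (push (Sum.inr : σ → ν ⊕ σ) φ) :=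
    (hPUSH σ (ν ⊕ σ) Sum.inr Sum.inr_injective).1 φ hφ
  have hdiag : ∀ j, cls (L j).mult S ≠ 0 → Diag ((L j).eu (Sum.elim w 0)) := by
    intro j hj
    refine hINT (ν ⊕ σ) (L j) (Sum.elim w 0) (hL j).1 (hL j).2 m L fun u hu => ?_
    rw [scale_eq]
    set W : ν ⊕ σ → ℤ := Sum.elim w 0 with hW
    have h1 : (Matrix.diagonal fun s => u ^ W s) * (Matrix.diagonal fun s => u ^ (-W s)) = 1 := by
      rw [Matrix.diagonal_mul_diagonal, ← Matrix.diagonal_one]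
      congr 1; funext s
      rw [← zpow_add₀ hu]; simp
    have h2 : (Matrix.diagonal fun s => u ^ (-W s)) * (Matrix.diagonal fun s => u ^ W s) = 1 := by
      rw [Matrix.diagonal_mul_diagonal, ← Matrix.diagonal_one]
      congr 1; funext s
      rw [← zpow_add₀ hu]; simp
    obtain ⟨-, -, hsimp, -, -, hmult, -, -⟩ := hAFFM (ν ⊕ σ) (ν ⊕ σ) _ _ 0 h1 h2
    have hs := hsimp (L j) (hL j).1
    refine hex _ hs ?_
    have ha := (hAFF (ν ⊕ σ) (ν ⊕ σ) _ S (hMULT (ν ⊕ σ) _ hs).1 hS).1 _ _ 0 h1 h2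
    have hset : {x : ν ⊕ σ → ℂ | (Matrix.diagonal fun s => u ^ (-W s)).mulVec (x - 0) ∈ S} = S := by
      ext x
      have hx : (Matrix.diagonal fun s => u ^ (-W s)).mulVec (x - 0) =
          Sum.elim (fun j => u⁻¹ ^ w j * x (Sum.inl j)) (x ∘ Sum.inr) := by
        funext s
        rw [Matrix.mulVec_diagonal]
        rcases s with s | s
        · simp [hW]
        · simp [hW]
      rw [Set.mem_ofPred_eq, hx]
      refine ⟨fun h => ?_, fun h => hinv u⁻¹ (inv_ne_zero hu) x h⟩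
      have := hinv u hu _ h
      convert this using 1
      funext s
      rcases s with s | s
      · have : u ^ w s ≠ 0 := zpow_ne_zero _ hu
        simp only [Sum.elim_inl, inv_zpow]
        field_simp
      · simp
    rw [hset] at ha
    have hfun : (fun (N : WM (ν ⊕ σ)) B Z =>
        ((L j).aff (Matrix.diagonal fun s => u ^ W s) (Matrix.diagonal fun s => u ^ (-W s)) 0).mult
          (N.aff (Matrix.diagonal fun s => u ^ W s) (Matrix.diagonal fun s => u ^ (-W s)) 0) B Z) =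
        (L j).mult := by
      funext N B Z
      exact hmult (L j) N B Z
    rw [hfun] at ha
    show cls _ S ≠ 0
    rw [← ha]
    exact hj
  have e1 := hsum _ hpush
  have e2 := hsum _ (fou_add hHSUB _ hpush)
  have e3 := hRESN ν σ φ S hφ hS
  have e4 : cls (push Sum.inr φ) S = (-1) ^ Fintype.card ν *
      cls (fun N B Z => push Sum.inr φ N.fou B Z) S := by
    refine e1.trans ?_
    rw [show cls (fun N B Z => push Sum.inr φ N.fou B Z) S = _ from e2, Finset.mul_sum]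
    refine Finset.sum_congr rfl fun j _ => ?_
    by_cases hj : cls (L j).mult S = 0
    · simp [hj]
    · rw [hFOUR ν σ φ w (L j) hφ hw (hL j).2 (hdiag j hj)]
      ring
  rw [e4, e3, ← mul_assoc, ← mul_pow]
  simp

open Classical in
/-- The splitting of the variables into those of nonzero weight and the others. -/
noncomputable def split {τ : Type} (σ : Type) (w : τ → ℤ) :
    {j // w j ≠ 0} ⊕ ({j // w j = 0} ⊕ σ) ≃ τ ⊕ σ where
  toFun := Sum.elim (fun j => Sum.inl j.1) (Sum.elim (fun j => Sum.inl j.1) Sum.inr)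
  invFun := Sum.elim (fun j => if h : w j = 0 then Sum.inr (Sum.inl ⟨j, h⟩) else Sum.inl ⟨j, h⟩)
    fun s => Sum.inr (Sum.inr s)
  left_inv := by
    rintro (j | j | s)
    · simp [j.2]
    · simp [j.2]
    · simp
  right_inv := by
    rintro (j | s)
    · by_cases h : w j = 0 <;> simp [h]
    · simp

theorem reindex (hPUSH : S_PUSH) (hRESM : S_RESM) (hCLS : S_CLS) (hAFF : S_AFF)
    {τ τ₀ : Type} [Fintype τ] [Fintype τ₀] [Fintype ν] [Fintype σ] (e : ν ⊕ (τ₀ ⊕ σ) ≃ τ ⊕ σ)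
    (he : ∀ s, e (Sum.inr (Sum.inr s)) = Sum.inr s) (φ : Fn σ) (hφ : Additive φ)
    (S : Set (τ ⊕ σ → ℂ)) (hS : Con S) :
    intg φ S = cls (push Sum.inr (push (Sum.inr : σ → τ₀ ⊕ σ) φ)) {x | x ∘ e.symm ∈ S} := by
  classical
  have h0 : Additive (push (Sum.inr : σ → τ₀ ⊕ σ) φ) :=
    (hPUSH σ _ Sum.inr Sum.inr_injective).1 φ hφ
  have h1 : Additive (push (Sum.inr : τ₀ ⊕ σ → ν ⊕ (τ₀ ⊕ σ)) (push (Sum.inr : σ → τ₀ ⊕ σ) φ)) :=
    (hPUSH _ _ Sum.inr Sum.inr_injective).1 _ h0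
  rw [← (hAFF (τ ⊕ σ) (ν ⊕ (τ₀ ⊕ σ)) _ S h1 hS).2 e]
  refine (hCLS (τ ⊕ σ)).2.2.2.2.1 _ _ S fun N hN => ?_
  have hr : (Sum.inr : σ → τ ⊕ σ) = e ∘ ((Sum.inr : τ₀ ⊕ σ → ν ⊕ (τ₀ ⊕ σ)) ∘ Sum.inr) :=
    funext fun s => (he s).symm
  have hi : Function.Injective ((Sum.inr : τ₀ ⊕ σ → ν ⊕ (τ₀ ⊕ σ)) ∘ (Sum.inr : σ → τ₀ ⊕ σ)) :=
    Sum.inr_injective.comp Sum.inr_injective
  have hN' : Hol Set.univ (N.res e) ⊥ ⊤ := (hRESM (τ ⊕ σ) _ e).2.2.2.1 N ⊥ ⊤ hN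
  have a1 := (hPUSH σ _ _ hi).2.2.1 φ (τ ⊕ σ) e hφ e.injective N ⊥ ⊤ hN
  have a2 := (hPUSH _ (τ ⊕ σ) e e.injective).2.2.2.1
    (push ((Sum.inr : τ₀ ⊕ σ → ν ⊕ (τ₀ ⊕ σ)) ∘ (Sum.inr : σ → τ₀ ⊕ σ)) φ) e.surjective N ⊥ ⊤
  have a3 := (hPUSH σ (τ₀ ⊕ σ) Sum.inr Sum.inr_injective).2.2.1 φ (ν ⊕ (τ₀ ⊕ σ)) Sum.inr hφ
    Sum.inr_injective (N.res e) ⊥ ⊤ hN'
  rw [← hr] at a1
  exact a1.trans (a2.trans a3)

end LoctAux

open LoctAux in
theorem p_LOCT (hPISO : S_PISO) (hMULT : S_MULT) (hDEC : S_DEC) (hPUSH : S_PUSH) (hINT : S_INT) (hFOUR : S_FOUR) (hAFFM : S_AFFM) (hRESM : S_RESM) (hREGH : S_REGH) (hCLS : S_CLS) (hAFF : S_AFF) (hRESN : S_RESN) (hTRANS : S_TRANS) (hHSUB : S_HSUB) :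
    S_LOCT := by
  have _ := hPISO
  have _ := hREGH
  have _ := hTRANS
  intro τ σ _ _ φ w S hφ hS hinv
  classical
  have h0 : Additive (push (Sum.inr : σ → {j // w j = 0} ⊕ σ) φ) :=
    (hPUSH σ _ Sum.inr Sum.inr_injective).1 φ hφ
  have key : ∀ S : Set (τ ⊕ σ → ℂ), Con S →
      (∀ u : ℂ, u ≠ 0 → ∀ z ∈ S, Sum.elim (fun j => u ^ w j * z (Sum.inl j)) (z ∘ Sum.inr) ∈ S) →
      intg φ S = cls (push (Sum.inr : σ → {j // w j = 0} ⊕ σ) φ)
        {x | Sum.elim (0 : {j // w j ≠ 0} → ℂ) x ∘ (split σ w).symm ∈ S} := by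
    intro S hS hinv
    rw [reindex hPUSH hRESM hCLS hAFF (split σ w) (fun _ => rfl) φ hφ S hS]
    refine main hHSUB hMULT hDEC hPUSH hINT hFOUR hAFFM hCLS hAFF hRESN _ (fun j => w j.1)
      (fun j => j.2) _ h0 (hS.comp _) fun u hu z hz => ?_
    have := hinv u hu _ hz
    show _ ∘ _ ∈ S
    convert this using 1
    funext s
    rcases s with s | s
    · by_cases h : w s = 0 <;> simp [split, h]
    · simp [split]
  have hS' : Con (S ∩ {z | ∀ j, w j ≠ 0 → z (Sum.inl j) = 0}) :=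
    hS.inter (Con.all fun j => Con.imp' fun _ => Con.eq_zero (PolyFn.coord (Sum.inl j)))
  rw [key S hS hinv, key _ hS' fun u hu z hz => ⟨hinv u hu z hz.1, fun j hj => by
    simp [hz.2 j hj]⟩]
  congr 1
  ext x
  refine ⟨fun h => ⟨h, fun j hj => ?_⟩, fun h => h.1⟩
  simp [split, hj]

end Pool.Agent.P.MP_52ab5a_al
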