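import Pool.Agent.P.MP_52ab5a_al.K.Iface
import Pool.Agent.P.MP_52ab5a_al.A.Iface

/-! Step ONE of the open orbit project. -/

namespace Pool.Agent.P.MP_52ab5a_al

open MvPolynomial WM

namespace OneAux

section lin
variable {A : Type} [AddCommGroup A] [Module ℂ A]

theorem lder_single (k : ℤ) (a : A) :
    lder A (Finsupp.single k a) = Finsupp.single (k - 1) ((k : ℂ) • a) := by
  simp [lder]

theorem lder_apply (g : ℤ →₀ A) (k : ℤ) : lder A g (k - 1) = (k : ℂ) • g k := by
  induction g using Finsupp.induction_linear with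
  | zero => simp
  | add g g' h h' => simp [h, h']
  | single j a =>
    rw [lder_single]
    by_cases h : j = k <;> simp [h]

theorem lder_comm (T : Module.End ℂ A) (g : ℤ →₀ A) :
    lder A (Finsupp.mapRange.linearMap T g) = Finsupp.mapRange.linearMap T (lder A g) := by
  ext k
  rw [← add_sub_cancel_right k 1, lder_apply, Finsupp.mapRange.linearMap_apply,
    Finsupp.mapRange.linearMap_apply, Finsupp.mapRange_apply, Finsupp.mapRange_apply, lder_apply,
    map_smul]

variable (A) in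
/-- Polynomials. -/
noncomputable abbrev Po : Submodule ℂ (ℤ →₀ A) := Finsupp.supported A ℂ {k : ℤ | 0 ≤ k}

theorem mem_of {Y : Submodule ℂ (ℤ →₀ A)} {g : ℤ →₀ A}
    (h : ∀ k, g k ≠ 0 → ∀ a, Finsupp.single k a ∈ Y) : g ∈ Y := by
  rw [← g.sum_single]
  exact Y.sum_mem fun k hk => h k (Finsupp.mem_support_iff.1 hk) _

theorem P_le {Y : Submodule ℂ (ℤ →₀ A)} (h : ∀ (n : ℕ) a, Finsupp.single (n : ℤ) a ∈ Y) :
    Po A ≤ Y := fun g hg => mem_of fun k hk a => by
  obtain ⟨n, rfl⟩ := Int.eq_ofNat_of_zero_le (hg (Finsupp.mem_support_iff.2 hk))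
  exact h n a

theorem single_mem (n : ℕ) (a : A) : Finsupp.single (n : ℤ) a ∈ Po A :=
  Finsupp.single_mem_supported ℂ a (Int.natCast_nonneg n)

theorem lder_mem {g : ℤ →₀ A} (hg : g ∈ Po A) : lder A g ∈ Po A := by
  refine (Finsupp.mem_supported' _ _).2 fun k hk => ?_
  rw [← add_sub_cancel_right k 1, lder_apply]
  by_cases h : k + 1 = 0
  · rw [h, Int.cast_zero, zero_smul]
  · have h1 : ¬0 ≤ k := hk
    rw [(Finsupp.mem_supported' _ _).1 hg (k + 1) (fun h2 => by have : 0 ≤ k + 1 := h2; omega),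
      smul_zero]

theorem single_eq {k : ℤ} (hk : k ≠ 0) (a : A) :
    Finsupp.single (k - 1) a = lder A (Finsupp.single k ((k : ℂ)⁻¹ • a)) := by
  rw [lder_single, smul_inv_smul₀ (Int.cast_ne_zero.2 hk)]

theorem map_lder : (Po A).map (lder A) = Po A := by
  refine le_antisymm (Submodule.map_le_iff_le_comap.2 fun g hg => lder_mem hg)
    (P_le fun n a => ?_)
  have h := single_eq (k := ((n + 1 : ℕ) : ℤ)) (by omega) a
  rw [show ((n + 1 : ℕ) : ℤ) - 1 = n by omega] at h
  exact ⟨_, single_mem (n + 1) _, h.symm⟩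

theorem map_lder_sub : (Po A).map (lder A - 1) = Po A := by
  refine le_antisymm (Submodule.map_le_iff_le_comap.2 fun g hg => sub_mem (lder_mem hg) hg)
    (P_le fun n => ?_)
  have key : ∀ (n : ℕ) (a : A), lder A (Finsupp.single (n : ℤ) a) ∈ (Po A).map (lder A - 1) →
      Finsupp.single (n : ℤ) a ∈ (Po A).map (lder A - 1) := fun n a h => by
    simpa using sub_mem h (Submodule.mem_map_of_mem (single_mem n a))
  induction n with
  | zero => exact fun a => key 0 a (by simp [lder_single])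
  | succ n ih => exact fun a => key _ a (by simpa [lder_single] using ih _)

theorem ker_sub (Z : Submodule ℂ (ℤ →₀ A)) : Z ⊓ (⊥ : Submodule ℂ _).comap (lder A - 1) = ⊥ := by
  refine eq_bot_iff.2 fun g hg => by_contra fun h0 => ?_
  have h1 : lder A g = g := sub_eq_zero.1 hg.2
  obtain ⟨k, hk, h2⟩ := g.support.exists_max_image id (Finsupp.support_nonempty_iff.2 h0)
  have h3 := lder_apply g (k + 1)
  have h4 : g (k + 1) = 0 := Finsupp.notMem_support_iff.1 fun h => by simpa using h2 _ h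
  rw [h1, add_sub_cancel_right, h4, smul_zero] at h3
  exact Finsupp.mem_support_iff.1 hk h3

theorem eq_zero {g : ℤ →₀ A} {a : A} (h : (lder A - 1) g = Finsupp.single (-1) a) : a = 0 := by
  have h1 : ∀ k : ℤ, (k : ℂ) • g k - g (k - 1) = Finsupp.single (-1) a (k - 1) := fun k => by
    rw [← h, ← lder_apply]
    rfl
  by_contra h0
  have h2 : -1 ∈ g.support := by
    simpa [h0, neg_eq_iff_eq_neg] using fun h3 : g (-1) = 0 => h0 (by simpa [h3] using (h1 0).symm)
  obtain ⟨k, hk, h3⟩ := g.support.exists_min_image id ⟨_, h2⟩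
  have h4 : k ≤ -1 := h3 _ h2
  have h5 := h1 k
  have h6 : g (k - 1) = 0 := Finsupp.notMem_support_iff.1 fun h => by simpa using h3 _ h
  rw [h6, sub_zero, Finsupp.single_eq_of_ne (by omega), smul_eq_zero] at h5
  exact h5.elim (Int.cast_ne_zero.2 (by omega)) (Finsupp.mem_support_iff.1 hk)

theorem onto : (⊤ : Submodule ℂ (ℤ →₀ A)) ≤
    (⊤ : Submodule ℂ A).map (Finsupp.lsingle (-1)) ⊔ (⊤ : Submodule ℂ _).map (lder A - 1) := by
  refine fun g _ => mem_of fun k h => ?_
  clear h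
  rcases k with n | n
  · exact fun a => Submodule.mem_sup_right (Submodule.map_mono le_top
      (map_lder_sub.ge (single_mem n a)))
  · induction n with
    | zero => exact fun a => Submodule.mem_sup_left ⟨a, trivial, rfl⟩
    | succ n ih =>
      intro a
      rw [show Int.negSucc (n + 1) = Int.negSucc n - 1 by omega, single_eq (by omega),
        ← sub_add_cancel (lder A _) (Finsupp.single _ _)]
      exact add_mem (Submodule.mem_sup_right ⟨_, trivial, rfl⟩) (ih _)

theorem ker_le : Po A ⊓ (⊥ : Submodule ℂ _).comap (lder A) ≤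
    (⊤ : Submodule ℂ A).map (Finsupp.lsingle 0) ⊔ ⊥ := fun g hg => mem_of fun k hk a => by
  have h1 := lder_apply g k
  rw [show lder A g = 0 from hg.2, Finsupp.zero_apply, eq_comm, smul_eq_zero] at h1
  obtain rfl : k = 0 := Int.cast_eq_zero.1 (h1.resolve_right hk)
  exact Submodule.mem_sup_left ⟨a, trivial, rfl⟩

theorem mr_zero : Finsupp.mapRange.linearMap (α := ℤ) (0 : Module.End ℂ A) = 0 := by
  ext
  simp

end lin

variable {ι : Type} {φ : Fn ι}

/-- Laurent polynomials with coefficients in a module. -/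
@[reducible] noncomputable def lp (N : WM ι) : WM ι where
  V := ℤ →₀ N.V
  X s := Finsupp.mapRange.linearMap (N.X s)
  D s := Finsupp.mapRange.linearMap (N.D s)

theorem st {N : WM ι} {Y : Submodule ℂ (ℤ →₀ N.V)}
    (h : ∀ T : Module.End ℂ N.V, ∀ g ∈ Y, Finsupp.mapRange.linearMap T g ∈ Y) :
    StOn Set.univ (lp N) Y := fun _ _ g hg => ⟨h _ g hg, h _ g hg⟩

theorem st_P {A : Type} [AddCommGroup A] [Module ℂ A] (T : Module.End ℂ A) :
    ∀ g ∈ Po A, Finsupp.mapRange.linearMap T g ∈ Po A := fun g hg =>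
  (Finsupp.mem_supported' _ _).2 fun k hk => by
    rw [Finsupp.mapRange.linearMap_apply, Finsupp.mapRange_apply,
      (Finsupp.mem_supported' _ _).1 hg k hk, map_zero]

theorem st_bot (N : WM ι) : StOn Set.univ N ⊥ := fun s _ v hv => by
  rw [(Submodule.mem_bot ℂ).1 hv, map_zero, map_zero]
  exact ⟨rfl, rfl⟩

theorem self_zero (hH : S_HSUB) (hφ : Additive φ) {N : WM ι} (hN : N.IsW) {B : Submodule ℂ N.V}
    (hB : StOn Set.univ N B) : φ N B B = 0 := by
  have := hφ.add N B B B ((hH ι _).2.2.1 N B hN hB) le_rfl le_rfl ((stOn_univ N B).1 hB)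
  omega

theorem single_iso (hφ : Additive φ) {N : WM ι} (hN : N.Holo) (hM : (lp N).IsW) (k : ℤ)
    {B Z : Submodule ℂ (ℤ →₀ N.V)} (h1 : B ≤ Z) (h2 : StOn Set.univ (lp N) B)
    (h3 : StOn Set.univ (lp N) Z) (h4 : ∀ a, Finsupp.single k a ∈ Z)
    (h5 : ∀ a, Finsupp.single k a ∈ B → a = 0)
    (h6 : Z ≤ (⊤ : Submodule ℂ N.V).map (Finsupp.lsingle k) ⊔ B) : φ (lp N) B Z = φ N ⊥ ⊤ :=
  (hφ.iso N ⊥ ⊤ (lp N) B Z hN hM ⟨Finsupp.lsingle k, bot_le, st_bot N, fun _ _ _ _ => ⟨trivial, trivial⟩,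
    h1, h2, h3, fun a _ => h4 a, fun a _ => ⟨h5 a, fun h => by
      rw [(Submodule.mem_bot ℂ).1 h, map_zero]; exact B.zero_mem⟩, h6,
    fun s _ a _ => by simp⟩).symm

theorem vals (hH : S_HSUB) (hφ : Additive φ) {N : WM ι} (hN : N.Holo)
    {D' : ι → Module.End ℂ (ℤ →₀ N.V)} (hD : D' = (lp N).D) (hM : ((lp N).ops (lp N).X D').IsW) :
    iter φ ((lp N).ops (lp N).X D') [lder N.V] ⊥ (Po N.V) = φ N ⊥ ⊤ ∧
    iter φ ((lp N).ops (lp N).X D') [lder N.V - 1] ⊥ (Po N.V) = 0 ∧
    iter φ ((lp N).ops (lp N).X D') [lder N.V - 1] ⊥ ⊤ = -φ N ⊥ ⊤ := by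
  subst hD
  have h0 := self_zero hH hφ hM (st_bot (lp N))
  have h1 := self_zero hH hφ hM (st (N := N) st_P)
  simp only [iter, bot_sup_eq, ker_sub, map_lder, map_lder_sub, h0, h1, sub_zero, zero_sub,
    neg_inj, true_and]
  refine ⟨single_iso hφ hN hM 0 bot_le (st_bot _) (st fun T g hg => ⟨st_P T g hg.1, ?_⟩)
    (fun a => ⟨single_mem 0 a, ?_⟩) (fun a h => Finsupp.single_eq_zero.1 h) ker_le,
    single_iso hφ hN hM (-1) le_top (st ?_) (fun _ _ _ _ => ⟨trivial, trivial⟩) (fun _ => trivial)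
      (fun a ⟨g, _, hg⟩ => eq_zero hg) onto⟩
  · change lder N.V _ = 0
    rw [lder_comm, show lder N.V g = 0 from hg.2, map_zero]
  · change lder N.V _ = 0
    simp [lder_single]
  · rintro T _ ⟨g, -, rfl⟩
    exact ⟨Finsupp.mapRange.linearMap T g, trivial, by simp only [LinearMap.sub_apply, lder_comm,
      map_sub, Module.End.one_apply]⟩

/-- The twisted derivatives. -/
noncomputable def twD (N : WM (Option ι)) (o : Option ι) : Module.End ℂ N.V :=
  o.elim (N.D none - 1) fun s => N.D (some s)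

/-- The exponential twist. -/
@[reducible] noncomputable def tw (N : WM (Option ι)) : WM (Option ι) := N.ops N.X (twD N)

theorem tw_D (N : WM (Option ι)) (o : Option ι) :
    twD N o = N.D o - (o.elim 1 fun _ => 0 : ℂ) • 1 := by
  cases o <;> simp [twD]

theorem tw_isW {N : WM (Option ι)} (h : N.IsW) : (tw N).IsW := by
  refine ⟨h.1, fun s t => ?_, fun s => ?_, fun s t hst => ?_⟩ <;> simp only [tw_D]
  · simp only [sub_mul, mul_sub, h.2.1 s t, smul_mul_assoc, mul_smul_comm, one_mul, mul_one]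
    module
  · rw [← h.2.2.1 s]
    simp only [sub_mul, mul_sub, smul_mul_assoc, mul_smul_comm, h.2.2.1 s, one_mul, mul_one]
    rw [← h.2.2.1 s]
    abel
  · simp only [sub_mul, mul_sub, h.2.2.2 s t hst, smul_mul_assoc, mul_smul_comm, one_mul, mul_one]

theorem tw_st {N : WM (Option ι)} {B : Submodule ℂ N.V} (h : StOn Set.univ N B) :
    StOn Set.univ (tw N) B := fun o _ v hv => by
  simp only [tw_D]
  exact ⟨(h o trivial v hv).1, sub_mem (h o trivial v hv).2 (B.smul_mem _ hv)⟩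

theorem tw_hol (hH : S_HSUB) {N : WM (Option ι)} {B Z : Submodule ℂ N.V} (h : Hol Set.univ N B Z) :
    Hol Set.univ (tw N) B Z := by
  refine (hH _ _).2.2.2.2.2 N _ _ B Z (tw_isW h.1) (fun o _ => ⟨Submodule.subset_span
    (Or.inr (Or.inl ⟨o, trivial, rfl⟩)), ?_⟩) h
  rw [tw_D]
  exact sub_mem (Submodule.subset_span (Or.inr (Or.inr ⟨o, trivial, rfl⟩)))
    (Submodule.smul_mem _ _ (Submodule.subset_span (Or.inl rfl)))

theorem add_tw (hH : S_HSUB) {ψ : Fn (Option ι)} (hψ : Additive ψ) :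
    Additive fun N B Z => ψ (tw N) B Z := by
  refine ⟨fun N B Y Z h h1 h2 h3 => hψ.add (tw N) B Y Z (tw_hol hH h) h1 h2
    ((stOn_univ (tw N) _).1 (tw_st ((stOn_univ _ _).2 h3))), fun N B Z N' B' Z' h h1 ⟨f, hf⟩ =>
    hψ.iso (tw N) B Z (tw N') B' Z' (tw_hol hH h) (tw_isW h1) ⟨f, hf.le, tw_st hf.stB,
      tw_st hf.stZ, hf.le', tw_st hf.stB', tw_st hf.stZ', hf.maps, hf.ker, hf.onto, fun o _ z hz =>
        ⟨(hf.comm o trivial z hz).1, ?_⟩⟩⟩
  simpa [tw_D] using (hf.comm o trivial z hz).2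

theorem push_eq [Fintype ι] (φ : Fn ι) :
    push some φ = fun N B Z => iter φ (N.res some) [N.D none] B Z := by
  have h : ∀ i : DecidablePred fun t : Option ι => t ∉ Set.range some,
      (Finset.univ.filter fun t : Option ι => t ∉ Set.range some) = {none} := fun _ => by
    ext t
    cases t <;> simp
  funext N B Z
  rw [push, h, Finset.toList_singleton]
  rfl

theorem sum_map {α β : Type} (c : α →₀ ℤ) (T : α → β) (F : β → ℤ) :
    ((c.mapDomain T).sum fun f n => n * F f) = c.sum fun f n => n * F (T f) :=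
  Finsupp.sum_mapDomain_index (fun _ => zero_mul _) fun _ _ _ => add_mul _ _ _

open Classical in
theorem ev_map {κ : Type} (c : MvPolynomial ι ℂ →₀ ℤ) (T : MvPolynomial ι ℂ → MvPolynomial κ ℂ)
    (z : κ → ℂ) : ev (c.mapDomain T) z = c.sum fun f n => if eval z (T f) = 0 then 0 else n :=
  Finsupp.sum_mapDomain_index (fun _ => ite_self _) fun _ _ _ => by split_ifs <;> simp

end OneAux

open OneAux in
theorem p_ONE (hPISO : S_PISO) (hHSUB : S_HSUB) (hPUSH : S_PUSH) (hREG : S_REG) (hREGH : S_REGH) (hCLS : S_CLS) (hLAUR : S_LAUR) :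
    S_ONE := by
  classical
  intro ι _ φ S hφ hS
  have a0 := (hPUSH ι _ some (Option.some_injective ι)).1 φ hφ
  have a1 : Additive fun N B Z => iter φ (N.res some) [N.D none - 1] B Z := by
    have a1 := add_tw hHSUB a0
    rw [push_eq] at a1
    exact a1
  have key : ∀ f : MvPolynomial ι ℂ,
      push some φ (reg (rename some f)) ⊥ ⊤ = φ (reg f) ⊥ ⊤ ∧
      (fun N B Z => iter φ (N.res some) [N.D none - 1] B Z : Fn _) (reg (rename some f)) ⊥ ⊤ = 0 ∧
      (fun N B Z => iter φ (N.res some) [N.D none - 1] B Z : Fn _)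
        (reg (rename some f * (rename some (1 : MvPolynomial ι ℂ) * X none - rename some 0))) ⊥ ⊤ =
        -φ (reg f) ⊥ ⊤ := fun f => by
    obtain ⟨⟨d, h1, h2⟩, -⟩ := hREG ι f
    obtain ⟨h3, h4, h5⟩ := hLAUR ι f 0 1 d 0 h2 (by simp) (by simp)
    have h6 := hREGH ι f
    rw [h1] at h6
    have h7 := vals hHSUB hφ h6 (funext fun s => by simp [mr_zero]) ⟨fun s t => h3.1 (some s) (some t),
      fun s t => h3.2.1 (some s) (some t), fun s => h3.2.2.1 (some s),
      fun s t hst => h3.2.2.2 (some s) (some t) fun e => hst (Option.some.inj e)⟩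
    rw [a0.iso _ _ _ _ _ _ (hREGH _ _) h3 h5, push_eq, h1]
    exact ⟨h7.1, (a1.iso _ _ _ _ _ _ (hREGH _ _) h3 h5).trans h7.2.1,
      (a1.iso _ _ _ _ _ _ (hREGH _ _) h3 h4).trans h7.2.2⟩
  have e1 : ∀ z : Option ι → ℂ, ev ((pres S).mapDomain (rename some)) z = ev (pres S) (z ∘ some) :=
    fun z => by rw [ev_map]; simp only [eval_rename, ev]
  have p1 : IsPres {z : Option ι → ℂ | z ∘ some ∈ S} ((pres S).mapDomain (rename some)) :=
    isPres_iff.2 fun z => (e1 z).trans (isPres_iff.1 hS.isPres _)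
  have p2 : IsPres {z : Option ι → ℂ | z ∘ some ∈ S ∧ z none = 0} ((pres S).mapDomain (rename some) -
      (pres S).mapDomain fun f =>
        rename some f * (rename some (1 : MvPolynomial ι ℂ) * X none - rename some 0)) := by
    refine isPres_iff.2 fun z => ?_
    rw [ev_sub, e1, ev_map]
    by_cases hz : z none = 0
    · simp [hz, isPres_iff.1 hS.isPres]
    · simp [hz, eval_rename, ev]
  refine ⟨?_, ?_, ?_⟩
  · rw [(hCLS _).1 _ _ _ a0 p1, sum_map]
    simp only [key, cls]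
  · rw [(hCLS _).1 _ _ _ a1 p1, sum_map]
    simp only [(key _).2.1, mul_zero, Finsupp.sum_fun_zero]
  · rw [(hCLS _).1 _ _ _ a1 p2, Finsupp.sum_sub_index fun _ _ _ => sub_mul _ _ _, sum_map, sum_map]
    simp only [(key _).2.1, (key _).2.2, mul_zero, Finsupp.sum_fun_zero, cls, mul_neg,
      Finsupp.sum_neg, zero_sub, neg_neg]

end Pool.Agent.P.MP_52ab5a_al
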