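import Pool.Agent.P.MP_52ab5a_al.K.Iface
import Pool.Agent.P.MP_52ab5a_al.A.Iface

/-! Step PROD of the open orbit project. -/

namespace Pool.Agent.P.MP_52ab5a_al

open MvPolynomial WM

namespace ProdAux

open TensorProduct

section Der

variable {A B : Type} [CommRing A] [Algebra ℂ A] [CommRing B] [Algebra ℂ B]

/-- A derivation of the left factor. -/
noncomputable def dL (B : Type) [CommRing B] [Algebra ℂ B] (d : Derivation ℂ A A) :
    Derivation ℂ (A ⊗[ℂ] B) (A ⊗[ℂ] B) :=
  Derivation.mk' (d.toLinearMap.rTensor B) fun x y => by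
    induction x using TensorProduct.induction_on with
    | zero => simp
    | add x x' hx hx' => simp only [add_mul, map_add, hx, hx', smul_eq_mul]; ring
    | tmul a b =>
      induction y using TensorProduct.induction_on with
      | zero => simp
      | add y y' hy hy' => simp only [mul_add, map_add, hy, hy', smul_eq_mul]; ring
      | tmul a' b' =>
        simp [Algebra.TensorProduct.tmul_mul_tmul, TensorProduct.add_tmul, mul_comm b' b]

/-- A derivation of the right factor. -/
noncomputable def dRt (A : Type) [CommRing A] [Algebra ℂ A] (d : Derivation ℂ B B) :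
    Derivation ℂ (A ⊗[ℂ] B) (A ⊗[ℂ] B) :=
  Derivation.mk' (d.toLinearMap.lTensor A) fun x y => by
    induction x using TensorProduct.induction_on with
    | zero => simp
    | add x x' hx hx' => simp only [add_mul, map_add, hx, hx', smul_eq_mul]; ring
    | tmul a b =>
      induction y using TensorProduct.induction_on with
      | zero => simp
      | add y y' hy hy' => simp only [mul_add, map_add, hy, hy', smul_eq_mul]; ring
      | tmul a' b' =>
        simp [Algebra.TensorProduct.tmul_mul_tmul, TensorProduct.tmul_add, mul_comm a' a]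

theorem dL_tmul (d : Derivation ℂ A A) (a : A) (b : B) : dL B d (a ⊗ₜ b) = d a ⊗ₜ b := rfl

theorem dRt_tmul (d : Derivation ℂ B B) (a : A) (b : B) : dRt A d (a ⊗ₜ b) = a ⊗ₜ d b := rfl

theorem mulLeft_tmul_one (a : A) :
    LinearMap.mulLeft ℂ (a ⊗ₜ[ℂ] (1 : B)) = (LinearMap.mulLeft ℂ a).rTensor B := by
  refine TensorProduct.ext' fun x y => ?_
  simp [Algebra.TensorProduct.tmul_mul_tmul]

theorem mulLeft_one_tmul (b : B) :
    LinearMap.mulLeft ℂ ((1 : A) ⊗ₜ[ℂ] b) = (LinearMap.mulLeft ℂ b).lTensor A := by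
  refine TensorProduct.ext' fun x y => ?_
  simp [Algebra.TensorProduct.tmul_mul_tmul]

end Der

theorem ops_eq {ι : Type} (N : WM ι) (X' D' : ι → Module.End ℂ N.V) (hX : X' = N.X)
    (hD : D' = N.D) : N.ops X' D' = N := by
  subst hX hD; rfl

variable {ι σ : Type}

theorem iso_box (hREG : S_REG) (f : MvPolynomial ι ℂ) (g : MvPolynomial σ ℂ) :
    Iso (reg (rename Sum.inl f * rename Sum.inr g)) ((reg f).box (reg g)) := by
  obtain ⟨⟨d₁, e₁, hd₁⟩, -⟩ := hREG ι f
  obtain ⟨⟨d₂, e₂, hd₂⟩, -⟩ := hREG σ g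
  set A := Localization.Away f
  set B := Localization.Away g
  let a : MvPolynomial ι ℂ →ₐ[ℂ] A := IsScalarTower.toAlgHom ℂ _ _
  let b : MvPolynomial σ ℂ →ₐ[ℂ] B := IsScalarTower.toAlgHom ℂ _ _
  have ha : ∀ p, a p = algebraMap _ A p := fun _ => rfl
  have hb : ∀ p, b p = algebraMap _ B p := fun _ => rfl
  let j : MvPolynomial (ι ⊕ σ) ℂ →ₐ[ℂ] A ⊗[ℂ] B :=
    aeval (Sum.elim (fun s => a (X s) ⊗ₜ 1) fun t => 1 ⊗ₜ b (X t))
  have jl : ∀ p, j (rename Sum.inl p) = a p ⊗ₜ 1 := by
    have : j.comp (rename Sum.inl) = Algebra.TensorProduct.includeLeft.comp a := by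
      ext s; simp [j]
    exact fun p => DFunLike.congr_fun this p
  have jr : ∀ p, j (rename Sum.inr p) = 1 ⊗ₜ b p := by
    have : j.comp (rename Sum.inr) = Algebra.TensorProduct.includeRight.comp b := by
      ext s; simp [j]
    exact fun p => DFunLike.congr_fun this p
  have jm : ∀ p q, j (rename Sum.inl p * rename Sum.inr q) = a p ⊗ₜ b q := by
    intro p q
    rw [map_mul, jl, jr, Algebra.TensorProduct.tmul_mul_tmul, mul_one, one_mul]
  have jXl : ∀ s, j (X (Sum.inl s)) = a (X s) ⊗ₜ 1 := fun s => by simp [j]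
  have jXr : ∀ s, j (X (Sum.inr s)) = 1 ⊗ₜ b (X s) := fun s => by simp [j]
  let d : ι ⊕ σ → Derivation ℂ (A ⊗[ℂ] B) (A ⊗[ℂ] B) :=
    Sum.elim (fun s => dL B (d₁ s)) fun t => dRt A (d₂ t)
  have key := ((hREG (ι ⊕ σ) (rename Sum.inl f * rename Sum.inr g)).2.2 (A ⊗[ℂ] B) j d ?_ ?_ ?_
    ?_ ?_).2
  · have e : ofDer (A ⊗[ℂ] B) (fun s => j (X s)) d = (reg f).box (reg g) := by
      rw [e₁, e₂]
      refine ops_eq ((ofDer A _ d₁).box (ofDer B _ d₂)) _ _ (funext ?_) (funext ?_)
      · rintro (s | s)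
        · show LinearMap.mulLeft ℂ (j (X (Sum.inl s))) = _
          rw [jXl, mulLeft_tmul_one]; rfl
        · show LinearMap.mulLeft ℂ (j (X (Sum.inr s))) = _
          rw [jXr, mulLeft_one_tmul]; rfl
      · rintro (s | s) <;> rfl
    rwa [e] at key
  · rw [map_mul, jl, jr]
    exact ((IsLocalization.Away.algebraMap_isUnit (S := A) f).map
      (Algebra.TensorProduct.includeLeft : A →ₐ[ℂ] A ⊗[ℂ] B)).mul
      ((IsLocalization.Away.algebraMap_isUnit (S := B) g).map
      (Algebra.TensorProduct.includeRight : B →ₐ[ℂ] A ⊗[ℂ] B))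
  · intro x
    induction x using TensorProduct.induction_on with
    | zero => exact ⟨0, 0, by simp⟩
    | add x y hx hy =>
      obtain ⟨k, p, hp⟩ := hx
      obtain ⟨l, q, hq⟩ := hy
      refine ⟨k + l, (rename Sum.inl f * rename Sum.inr g) ^ l * p +
        (rename Sum.inl f * rename Sum.inr g) ^ k * q, ?_⟩
      rw [map_add, map_mul _ _ p, map_mul _ _ q, map_pow, map_pow, ← hp, ← hq]
      ring
    | tmul x y =>
      obtain ⟨k, p, hp⟩ := IsLocalization.Away.surj f x
      obtain ⟨l, q, hq⟩ := IsLocalization.Away.surj g y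
      refine ⟨k + l, rename Sum.inl (f ^ l * p) * rename Sum.inr (g ^ k * q), ?_⟩
      rw [jm, jm, Algebra.TensorProduct.tmul_pow, Algebra.TensorProduct.tmul_mul_tmul, map_mul,
        map_mul, map_pow, map_pow, ha p, hb q, ← hp, ← hq, ← ha, ← hb]
      congr 1 <;> ring
  · intro G hG
    by_cases hf : f = 0
    · exact ⟨1, by simp [hf]⟩
    by_cases hg : g = 0
    · exact ⟨1, by simp [hg]⟩
    have ia : Function.Injective a := IsLocalization.injective A (powers_le_nonZeroDivisors_of_noZeroDivisors hf)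
    have ib : Function.Injective b := IsLocalization.injective B (powers_le_nonZeroDivisors_of_noZeroDivisors hg)
    have hj : j = (Algebra.TensorProduct.map a b).comp
        (tensorEquivSum ℂ ι σ ℂ).symm.toAlgHom := by
      ext s
      rcases s with s | s
      · have : (tensorEquivSum ℂ ι σ ℂ).symm (X (Sum.inl s)) = X s ⊗ₜ 1 := by
          rw [AlgEquiv.symm_apply_eq]; simp
        simp [jXl, this]
      · have : (tensorEquivSum ℂ ι σ ℂ).symm (X (Sum.inr s)) = 1 ⊗ₜ X s := by
          rw [AlgEquiv.symm_apply_eq]; simp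
        simp [jXr, this]
    have inj : Function.Injective j := by
      rw [hj]
      exact (TensorProduct.map_injective_of_flat_flat a.toLinearMap b.toLinearMap ia ib).comp
        (tensorEquivSum ℂ ι σ ℂ).symm.injective
    exact ⟨0, by rw [inj (hG.trans (map_zero j).symm), mul_zero]⟩
  · rintro (s | s)
    · rw [jXl]
      show dL B (d₁ s) _ = _
      rw [dL_tmul, ha, hd₁, pderiv_X_self, map_one]; rfl
    · rw [jXr]
      show dRt A (d₂ s) _ = _
      rw [dRt_tmul, hb, hd₂, pderiv_X_self, map_one]; rfl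
  · rintro (s | s) (t | t) hst
    · rw [jXl]
      show dL B (d₁ s) _ = _
      rw [dL_tmul, ha, hd₁, pderiv_X_of_ne (fun h => hst (by rw [h])), map_zero, zero_tmul]
    · rw [jXr]
      show dL B (d₁ s) _ = _
      rw [dL_tmul, Derivation.map_one_eq_zero, zero_tmul]
    · rw [jXl]
      show dRt A (d₂ s) _ = _
      rw [dRt_tmul, Derivation.map_one_eq_zero, tmul_zero]
    · rw [jXr]
      show dRt A (d₂ s) _ = _
      rw [dRt_tmul, hb, hd₂, pderiv_X_of_ne (fun h => hst (by rw [h])), map_zero, tmul_zero]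

theorem sum_eq {α : Type} (v : α → ℤ) (c : α →₀ ℤ) :
    (c.sum fun f n => n * v f) = Finsupp.linearCombination ℤ v c := by
  simp [Finsupp.linearCombination_apply]

theorem sum_prod {α β γ : Type} (F : α → β → γ) (u : α → ℤ) (v : β → ℤ) (w : γ → ℤ)
    (h : ∀ f g, w (F f g) = u f * v g) (c : α →₀ ℤ) (d : β →₀ ℤ) :
    ((∑ f ∈ c.support, ∑ g ∈ d.support, Finsupp.single (F f g) (c f * d g)).sum
      fun f n => n * w f) = (c.sum fun f n => n * u f) * d.sum fun f n => n * v f := by
  rw [sum_eq]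
  simp only [map_sum, Finsupp.linearCombination_single, smul_eq_mul, h, Finsupp.sum,
    Finset.sum_mul_sum]
  exact Finset.sum_congr rfl fun f _ => Finset.sum_congr rfl fun g _ => by ring

open Classical in
theorem ev_eq {ι : Type} (c : MvPolynomial ι ℂ →₀ ℤ) (x : ι → ℂ) :
    ev c x = c.sum fun f n => n * if eval x f = 0 then 0 else 1 := by
  unfold ev
  exact Finsupp.sum_congr fun f _ => by split_ifs <;> simp

end ProdAux

open ProdAux in
theorem p_PROD (hREG : S_REG) (hREGH : S_REGH) (hCLS : S_CLS) (hBOXH : S_BOXH) :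
    S_PROD := by
  classical
  intro ι σ _ _ φ φ₁ φ₂ S₁ S₂ hφ hP h₁ h₂
  rw [(hCLS (ι ⊕ σ)).1 φ _ (∑ f ∈ (pres S₁).support, ∑ g ∈ (pres S₂).support,
    Finsupp.single (rename Sum.inl f * rename Sum.inr g) (pres S₁ f * pres S₂ g)) hφ ?_]
  · refine sum_prod (fun f g => rename Sum.inl f * rename Sum.inr g) (fun f => φ₁ (reg f) ⊥ ⊤)
      (fun g => φ₂ (reg g) ⊥ ⊤) (fun F => φ (reg F) ⊥ ⊤) (fun f g => ?_) _ _
    rw [← hP _ _ (hREGH _ f) (hREGH _ g)]
    exact hφ.iso _ _ _ _ _ _ (hREGH _ _)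
      ((hBOXH ι σ _ _).1 (hREG ι f).2.1 (hREG σ g).2.1) (iso_box hREG f g)
  · refine isPres_iff.2 fun z => ?_
    rw [ev_eq, sum_prod (fun f g => rename Sum.inl f * rename Sum.inr g)
      (fun f => if eval (z ∘ Sum.inl) f = 0 then 0 else 1)
      (fun g => if eval (z ∘ Sum.inr) g = 0 then 0 else 1)
      (fun F => if eval z F = 0 then 0 else 1) (fun f g => ?_), ← ev_eq, ← ev_eq,
      isPres_iff.1 h₁.isPres, isPres_iff.1 h₂.isPres]
    · by_cases a : z ∘ Sum.inl ∈ S₁ <;> by_cases b : z ∘ Sum.inr ∈ S₂ <;> simp [a, b]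
    · simp only [map_mul, eval_rename, mul_eq_zero]
      by_cases a : eval (z ∘ Sum.inl) f = 0 <;> by_cases b : eval (z ∘ Sum.inr) g = 0 <;>
        simp [a, b]

end Pool.Agent.P.MP_52ab5a_al
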