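import Pool.Agent.P.MP_52ab5a_al.K.Iface
import Pool.Agent.P.MP_52ab5a_al.A.Iface

/-! Step PRODI of the open orbit project. -/

namespace Pool.Agent.P.MP_52ab5a_al

open MvPolynomial WM

theorem p_PRODI (hPUSH : S_PUSH) (hRESM : S_RESM) (hREGH : S_REGH) (hCLS : S_CLS) (hAFF : S_AFF) (hBOXP : S_BOXP) (hPROD : S_PROD) :
    S_PRODI := by
  intro τ₁ τ₂ σ₁ σ₂ _ _ _ _ φ φ₁ φ₂ S₁ S₂ a a₁ a₂ hp c₁ c₂
  classical
  let e := Equiv.sumSumSumComm τ₁ σ₁ τ₂ σ₂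
  have i₁ : Function.Injective (Sum.inr : σ₁ → τ₁ ⊕ σ₁) := Sum.inr_injective
  have i₂ : Function.Injective (Sum.inr : σ₂ → τ₂ ⊕ σ₂) := Sum.inr_injective
  have P := hPUSH _ _ _ (i₁.sumMap i₂)
  have he : (Sum.inr : σ₁ ⊕ σ₂ → (τ₁ ⊕ τ₂) ⊕ σ₁ ⊕ σ₂) = e ∘ Sum.map Sum.inr Sum.inr := by
    funext s
    cases s <;> rfl
  rw [intg, intg, intg, ← hPROD _ _ _ _ _ S₁ S₂ (P.1 φ a)
    (hBOXP _ _ _ _ _ _ φ φ₁ φ₂ i₁ i₂ a a₁ a₂ hp) c₁ c₂,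
    (hCLS _).2.2.2.2.1 _ (fun N B Z => push (Sum.map Sum.inr Sum.inr) φ (N.res e) B Z) _
      fun N hN => by
        rw [he, P.2.2.1 φ _ e a e.injective N _ _ hN,
          (hPUSH _ _ e e.injective).2.2.2.1 _ e.surjective],
    (hAFF _ _ _ _ (P.1 φ a) ((c₁.comp _).and (c₂.comp _))).2 e]
  congr 1
  ext x
  have h₁ : (x ∘ e.symm) ∘ Sum.map Sum.inl Sum.inl = x ∘ Sum.inl := by
    funext s
    cases s <;> rfl
  have h₂ : (x ∘ e.symm) ∘ Sum.map Sum.inr Sum.inr = x ∘ Sum.inr := by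
    funext s
    cases s <;> rfl
  simp only [Set.mem_ofPred_eq, h₁, h₂]

end Pool.Agent.P.MP_52ab5a_al
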