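import Pool.Agent.P.MP_52ab5a_al.K.Iface

/-! Step REG of the open orbit project. -/

namespace Pool.Agent.P.MP_52ab5a_al

open MvPolynomial WM

namespace RegAux

variable {ι A A' : Type} [CommRing A] [Algebra ℂ A] [CommRing A'] [Algebra ℂ A']
  {f : MvPolynomial ι ℂ} {j : MvPolynomial ι ℂ →ₐ[ℂ] A}

/-- A derivation along `φ` that kills the variables is zero. -/
theorem ext0 (hu : IsUnit (j f)) (hs : ∀ a, ∃ k g, j f ^ k * a = j g) (φ : A →ₐ[ℂ] A')
    (δ : A →ₗ[ℂ] A') (hδ : ∀ a b, δ (a * b) = φ a * δ b + φ b * δ a) (h0 : ∀ t, δ (j (X t)) = 0)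
    (a : A) : δ a = 0 := by
  have h1 : δ 1 = 0 := by simpa using hδ 1 1
  have h2 : ∀ g, δ (j g) = 0 := fun g => by
    induction g using MvPolynomial.induction_on with
    | C c => rw [← algebraMap_eq, j.commutes, Algebra.algebraMap_eq_smul_one, map_smul, h1, smul_zero]
    | add p q hp hq => rw [map_add, map_add, hp, hq, add_zero]
    | mul_X p s hp => rw [map_mul, hδ, hp, h0, mul_zero, mul_zero, add_zero]
  obtain ⟨k, g, e⟩ := hs a
  have h3 := h2 g
  rw [← e, hδ, ← map_pow, h2, mul_zero, add_zero, map_pow] at h3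
  exact ((hu.pow k).map φ).mul_right_eq_zero.1 h3

theorem isW (hu : IsUnit (j f)) (hs : ∀ a, ∃ k g, j f ^ k * a = j g) {d : ι → Derivation ℂ A A}
    (h1 : ∀ s, d s (j (X s)) = 1) (h0 : ∀ s t, s ≠ t → d s (j (X t)) = 0) :
    (ofDer A (fun s => j (X s)) d).IsW := by
  have h2 : ∀ s t u, d s (d t (j (X u))) = 0 := fun s t u => by
    by_cases h : t = u
    · rw [h, h1, Derivation.map_one_eq_zero]
    · rw [h0 t u h, map_zero]
  refine ⟨fun s t => LinearMap.ext fun a => mul_left_comm _ _ _, fun s t => LinearMap.ext fun a =>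
    sub_eq_zero.1 (ext0 hu hs (AlgHom.id ℂ A) ⁅d s, d t⁆.toLinearMap (fun a b => ?_) (fun u => ?_) a),
    fun s => LinearMap.ext fun a => ?_, fun s t h => LinearMap.ext fun a => ?_⟩
  · exact ⁅d s, d t⁆.leibniz a b
  · change d s (d t _) - d t (d s _) = 0
    rw [h2, h2, sub_zero]
  · change d s (j (X s) * a) - j (X s) * d s a = a
    rw [Derivation.leibniz, h1]; simp
  · change d s (j (X t) * a) = j (X t) * d s a
    rw [Derivation.leibniz, h0 s t h]; simp

theorem lift_alg (hu : IsUnit (j f)) (g : MvPolynomial ι ℂ) :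
    IsLocalization.Away.liftAlgHom (S := Localization.Away f) f hu
      (algebraMap _ (Localization.Away f) g) = j g :=
  IsLocalization.Away.lift_eq f hu g

theorem fst_lift (f : MvPolynomial ι ℂ) (s : ι) (a : Localization.Away f) :
    (IsLocalization.Away.liftAlgHom (S := Localization.Away f) f (isUnit_jet f s) a).fst = a := by
  have : ((TrivSqZeroExt.fstHom ℂ (Localization.Away f) (Localization.Away f)).comp
      (IsLocalization.Away.liftAlgHom (S := Localization.Away f) f (isUnit_jet f s))).toRingHom =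
      RingHom.id _ := IsLocalization.ringHom_ext (Submonoid.powers f) (RingHom.ext fun g =>
    (congrArg TrivSqZeroExt.fst (lift_alg (isUnit_jet f s) g)).trans (fst_jet f s g))
  exact DFunLike.congr_fun this a

/-- The derivative as a derivation. -/
noncomputable def dd (f : MvPolynomial ι ℂ) (s : ι) :
    Derivation ℂ (Localization.Away f) (Localization.Away f) :=
  Derivation.mk' ((reg f).D s) fun a b => by
    change (IsLocalization.Away.liftAlgHom (S := Localization.Away f) f (isUnit_jet f s) (a * b)).snd =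
      a * (IsLocalization.Away.liftAlgHom (S := Localization.Away f) f (isUnit_jet f s) b).snd +
      b * (IsLocalization.Away.liftAlgHom (S := Localization.Away f) f (isUnit_jet f s) a).snd
    rw [map_mul, DualNumber.snd_mul, fst_lift, fst_lift, mul_comm _ b]

theorem dd_alg (f : MvPolynomial ι ℂ) (s : ι) (g : MvPolynomial ι ℂ) :
    dd f s (algebraMap _ (Localization.Away f) g) =
      algebraMap _ (Localization.Away f) (pderiv s g) := by
  classical
  have e : ∀ t, dd f s (algebraMap _ (Localization.Away f) (X t : MvPolynomial ι ℂ)) =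
      algebraMap _ (Localization.Away f) (pderiv s (X t : MvPolynomial ι ℂ)) := fun t => by
    refine (congrArg TrivSqZeroExt.snd (lift_alg (isUnit_jet f s) (X t))).trans ?_
    by_cases h : t = s <;> simp [jet, h, pderiv_X]
  induction g using MvPolynomial.induction_on with
  | C c =>
    rw [pderiv_C, map_zero, ← algebraMap_eq, ← IsScalarTower.algebraMap_apply,
      Derivation.map_algebraMap]
  | add p q hp hq => simp only [map_add, hp, hq]
  | mul_X p t hp => simp only [map_mul, map_add, Derivation.leibniz, hp, e, smul_eq_mul]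

theorem surj (f : MvPolynomial ι ℂ) (a : Localization.Away f) :
    ∃ (k : ℕ) (g : MvPolynomial ι ℂ),
    IsScalarTower.toAlgHom ℂ _ (Localization.Away f) f ^ k * a =
      IsScalarTower.toAlgHom ℂ _ (Localization.Away f) g := by
  obtain ⟨k, g, e⟩ := IsLocalization.Away.surj f a
  exact ⟨k, g, (mul_comm _ _).trans e⟩

end RegAux

open RegAux in
theorem p_REG :
    S_REG := by
  intro ι f
  classical
  have hf : IsUnit (IsScalarTower.toAlgHom ℂ _ (Localization.Away f) f) :=
    IsLocalization.Away.algebraMap_isUnit f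
  have d1 : ∀ s, dd f s (IsScalarTower.toAlgHom ℂ _ (Localization.Away f)
      (X s : MvPolynomial ι ℂ)) = 1 := fun s => (dd_alg f s _).trans (by simp)
  have d0 : ∀ s t, s ≠ t → dd f s (IsScalarTower.toAlgHom ℂ _ (Localization.Away f)
      (X t : MvPolynomial ι ℂ)) = 0 := fun s t h => (dd_alg f s _).trans (by simp [pderiv_X, h.symm])
  refine ⟨⟨dd f, rfl, dd_alg f⟩, isW hf (surj f) d1 d0, fun A _ _ j d hu hs hi h1 h0 =>
    ⟨isW hu hs h1 h0, ?_⟩⟩
  obtain ⟨φ, hφ⟩ : ∃ φ : Localization.Away f →ₐ[ℂ] A,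
      ∀ g, φ (IsScalarTower.toAlgHom ℂ _ (Localization.Away f) g) = j g := ⟨_, lift_alg hu⟩
  have inj : ∀ a, φ a = 0 → a = 0 := fun a ha => by
    obtain ⟨k, g, e⟩ := surj f a
    obtain ⟨m, hm⟩ := hi g (by rw [← hφ, ← e, map_mul, ha, mul_zero])
    have := congrArg (IsScalarTower.toAlgHom ℂ _ (Localization.Away f)) hm
    rw [map_mul, map_pow, map_zero, ← e] at this
    exact (hf.pow k).mul_right_eq_zero.1 ((hf.pow m).mul_right_eq_zero.1 this)
  have on : ∀ a, ∃ b, φ b = a := fun a => by
    obtain ⟨k, g, e⟩ := hs a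
    obtain ⟨b, hb⟩ := (hf.pow k).exists_right_inv
    refine ⟨b * IsScalarTower.toAlgHom ℂ _ (Localization.Away f) g, ?_⟩
    rw [map_mul, hφ, ← e, ← hφ, ← map_pow, ← mul_assoc, ← map_mul, mul_comm b, hb, map_one, one_mul]
  have st : ∀ N : WM ι, StOn Set.univ N ⊥ ∧ StOn Set.univ N ⊤ := fun N =>
    ⟨fun s _ v hv => by simp [(Submodule.mem_bot ℂ).1 hv], fun _ _ _ _ => ⟨trivial, trivial⟩⟩
  refine ⟨φ.toLinearMap, le_top, (st _).1, (st _).2, le_top, (st _).1, (st _).2, fun _ _ => trivial,
    fun a _ => ⟨inj a, fun h => ?_⟩, fun a _ => Submodule.mem_sup_left ?_, fun s _ a _ => ⟨?_, ?_⟩⟩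
  · rw [(Submodule.mem_bot ℂ).1 h]; exact map_zero φ
  · obtain ⟨b, hb⟩ := on a
    exact ⟨b, trivial, hb⟩
  · refine sub_eq_zero.2 ?_
    revert a
    exact fun (a : Localization.Away f) _ =>
      (map_mul φ _ a).trans (congrArg (· * φ a) (hφ (X s)))
  · refine ext0 hf (surj f) φ (φ.toLinearMap ∘ₗ (dd f s).toLinearMap -
      (d s).toLinearMap ∘ₗ φ.toLinearMap) (fun a b => ?_) (fun t => ?_) a
    · change φ (dd f s (a * b)) - d s (φ (a * b)) =
        φ a * (φ (dd f s b) - d s (φ b)) + φ b * (φ (dd f s a) - d s (φ a))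
      simp only [Derivation.leibniz, map_mul, map_add, smul_eq_mul]
      ring
    · change φ (dd f s _) - d s (φ _) = 0
      rw [hφ]
      by_cases h : s = t
      · rw [← h, d1, h1, map_one, sub_self]
      · rw [d0 s t h, h0 s t h, map_zero, sub_self]

end Pool.Agent.P.MP_52ab5a_al
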