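import Pool.Agent.P.MP_52ab5a_al.K.Iface
import Pool.Agent.P.MP_52ab5a_al.A.Iface

/-! Step REGH of the open orbit project. -/

namespace Pool.Agent.P.MP_52ab5a_al

open MvPolynomial WM

namespace ReghAux

theorem deg_pderiv {σ : Type} (f : MvPolynomial σ ℂ) (s : σ) :
    (pderiv s f).totalDegree ≤ f.totalDegree := by
  classical
  refine Finset.sup_le fun m hm => ?_
  rw [mem_support_iff, coeff_pderiv] at hm
  have h1 := le_totalDegree (mem_support_iff.2 (left_ne_zero_of_mul hm))
  rw [Finsupp.sum_add_index' (fun _ => rfl) (fun _ _ _ => rfl),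
    Finsupp.sum_single_index rfl] at h1
  omega

theorem rank_le (ι : Type) [Fintype ι] (m : ℕ) :
    Module.rank ℂ (restrictTotalDegree ι ℂ m) ≤ (((m + 1) ^ Fintype.card ι : ℕ) : Cardinal) := by
  classical
  refine (Submodule.rank_mono (restrictTotalDegree_le_restrictDegree ι ℂ m)).trans ?_
  rw [restrictDegree, ← (basisRestrictSupport ℂ _).mk_eq_rank'']
  have : (((m + 1) ^ Fintype.card ι : ℕ) : Cardinal) = Cardinal.mk (ι → Fin (m + 1)) := by
    rw [Cardinal.mk_fintype, Fintype.card_fun, Fintype.card_fin]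
  rw [this]
  refine Cardinal.mk_le_of_injective
    (f := fun n i => ⟨n.1 i, Nat.lt_succ_of_le (n.2 i)⟩) fun a b h => ?_
  exact Subtype.ext (Finsupp.ext fun i => congrArg Fin.val (congrFun h i))

theorem main {ι : Type} [Fintype ι] (f : MvPolynomial ι ℂ) (A : Type) [CommRing A] [Algebra ℂ A]
    (j : MvPolynomial ι ℂ →ₐ[ℂ] A) (u : A) (hu : j f * u = 1) (hs : ∀ a, ∃ k g, a = j g * u ^ k)
    (d : ι → Derivation ℂ A A) (hd : ∀ s g, d s (j g) = j (pderiv s g))
    (hW : (ofDer A (fun s => j (X s)) d).IsW) : (ofDer A (fun s => j (X s)) d).Holo := by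
  set e := f.totalDegree with he
  let G : ℕ → Submodule ℂ A := fun k =>
    (restrictTotalDegree ι ℂ (k * (e + 1))).map (LinearMap.mulRight ℂ (u ^ k) ∘ₗ j.toLinearMap)
  have hG : ∀ k a, a ∈ G k ↔ ∃ g, g.totalDegree ≤ k * (e + 1) ∧ j g * u ^ k = a := fun k a => by
    simp only [G, Submodule.mem_map, mem_restrictTotalDegree]
    rfl
  have hdu : ∀ s (k : ℕ), d s (u ^ k) = -(k : A) * u ^ (k + 1) * j (pderiv s f) := by
    intro s k
    have h1 : d s u = -u ^ 2 * j (pderiv s f) := by
      have h0 := congrArg (d s) hu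
      rw [Derivation.leibniz, Derivation.map_one_eq_zero, hd, smul_eq_mul, smul_eq_mul] at h0
      linear_combination u * h0 - d s u * hu
    induction k with
    | zero => simp
    | succ k ih =>
      rw [pow_succ, Derivation.leibniz, ih, h1, smul_eq_mul, smul_eq_mul]
      push_cast
      ring
  refine ⟨hW, bot_le, fun s _ v hv => ?_, fun s _ v _ => ⟨trivial, trivial⟩, G,
    (e + 1) ^ Fintype.card ι, monotone_nat_of_le_succ fun k a ha => ?_,
    fun k => ⟨bot_le, le_top⟩, fun k s _ a ha => ?_, fun a _ => ?_, fun k => ?_⟩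
  · rw [(Submodule.mem_bot ℂ).1 hv]
    simp
  · obtain ⟨g, hg, rfl⟩ := (hG k a).1 ha
    refine (hG _ _).2 ⟨g * f, (totalDegree_mul _ _).trans (by nlinarith), ?_⟩
    rw [map_mul]
    linear_combination j g * u ^ k * hu
  · obtain ⟨g, hg, rfl⟩ := (hG k a).1 ha
    refine ⟨(hG _ _).2 ⟨X s * (g * f), ?_, ?_⟩,
      (hG _ _).2 ⟨pderiv s g * f - (k : ℂ) • (g * pderiv s f), ?_, ?_⟩⟩
    · have h1 := totalDegree_mul (X s) (g * f)
      have h2 := totalDegree_mul g f
      rw [totalDegree_X] at h1
      nlinarith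
    · rw [map_mul, map_mul]
      change _ = j (X s) * (j g * u ^ k)
      linear_combination j (X s) * j g * u ^ k * hu
    · refine (totalDegree_sub _ _).trans (max_le ?_ ((totalDegree_smul_le _ _).trans ?_))
      · have h1 := totalDegree_mul (pderiv s g) f
        have h2 := deg_pderiv g s
        nlinarith
      · have h1 := totalDegree_mul g (pderiv s f)
        have h2 := deg_pderiv f s
        nlinarith
    · change _ = d s (j g * u ^ k)
      rw [Derivation.leibniz, hdu, hd, map_sub, map_smul, map_mul, map_mul, Algebra.smul_def,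
        map_natCast, smul_eq_mul, smul_eq_mul]
      linear_combination j (pderiv s g) * u ^ k * hu
  · obtain ⟨k, g, rfl⟩ := hs a
    refine ⟨k + g.totalDegree, (hG _ _).2 ⟨g * f ^ g.totalDegree, ?_, ?_⟩⟩
    · have h1 := totalDegree_mul g (f ^ g.totalDegree)
      have h2 := totalDegree_pow f g.totalDegree
      nlinarith [Nat.zero_le (k * (e + 1))]
    · rw [map_mul, map_pow, pow_add]
      calc j g * j f ^ g.totalDegree * (u ^ k * u ^ g.totalDegree) =
            j g * u ^ k * (j f * u) ^ g.totalDegree := by ring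
        _ = _ := by rw [hu, one_pow, mul_one]
  · refine (rank_map_le _ _).trans ((rank_map_le _ _).trans
      ((rank_le ι _).trans ?_))
    rw [Set.ncard_univ, Nat.card_eq_fintype_card, Nat.cast_le, ← mul_pow]
    exact Nat.pow_le_pow_left (by nlinarith) _

end ReghAux

theorem p_REGH (hREG : S_REG) (_hRK : S_RK) :
    S_REGH := by
  intro ι _ f
  have := Fintype.ofFinite ι
  obtain ⟨⟨d, h1, h2⟩, hW, -⟩ := hREG ι f
  rw [h1] at hW ⊢
  refine ReghAux.main f (Localization.Away f)
    (IsScalarTower.toAlgHom ℂ (MvPolynomial ι ℂ) (Localization.Away f))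
    (IsLocalization.Away.invSelf f) (IsLocalization.Away.mul_invSelf f) (fun a => ?_) d h2 hW
  obtain ⟨k, g, h⟩ := IsLocalization.Away.surj f a
  refine ⟨k, g, ?_⟩
  change a = algebraMap _ _ g * _
  rw [← h, mul_assoc, ← mul_pow, IsLocalization.Away.mul_invSelf, one_pow, mul_one]

end Pool.Agent.P.MP_52ab5a_al
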