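import Pool.Agent.P.MP_52ab5a_al.K.Iface
import Pool.Agent.P.MP_52ab5a_al.A.Iface

/-! Step RES of the open orbit project. -/

namespace Pool.Agent.P.MP_52ab5a_al

open MvPolynomial WM

namespace ResAux

variable {ι : Type}

/-- Setting the extra variable to zero. -/
noncomputable def ev0 (ι : Type) : MvPolynomial (Option ι) ℂ →ₐ[ℂ] MvPolynomial ι ℂ :=
  aeval fun o => o.elim 0 X

theorem ev0_none : ev0 ι (X none) = 0 := by simp [ev0]

theorem ev0_some (s : ι) : ev0 ι (X (some s)) = X s := by simp [ev0]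

theorem eval_ev0 (x : ι → ℂ) (f : MvPolynomial (Option ι) ℂ) :
    eval x (ev0 ι f) = eval (fun o : Option ι => o.elim 0 x) f := by
  induction f using MvPolynomial.induction_on with
  | C c => simp [ev0]
  | add p q hp hq => simp only [map_add, hp, hq]
  | mul_X p o hp => cases o <;> simp [hp, ev0_none, ev0_some]

theorem pderiv_ev0 (s : ι) (f : MvPolynomial (Option ι) ℂ) :
    pderiv s (ev0 ι f) = ev0 ι (pderiv (some s) f) := by
  classical
  induction f using MvPolynomial.induction_on with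
  | C c => simp [ev0]
  | add p q hp hq => simp only [map_add, hp, hq]
  | mul_X p o hp =>
    rcases o with _ | t
    · simp [ev0_none, pderiv_X]
    · by_cases h : t = s
      · subst h; simp [hp, ev0_some]
      · simp [hp, ev0_some, pderiv_X, h]

theorem dvd_sub_ev0 (f : MvPolynomial (Option ι) ℂ) : X none ∣ f - rename some (ev0 ι f) := by
  induction f using MvPolynomial.induction_on with
  | C c => simp [ev0]
  | add p q hp hq =>
    have := dvd_add hp hq
    rw [map_add, map_add]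
    convert this using 1
    ring
  | mul_X p o hp =>
    rcases o with _ | t
    · simp [ev0_none]
    · rw [map_mul, map_mul, ev0_some, rename_X, ← sub_mul]
      exact hp.mul_right _

theorem key' (hPISO : S_PISO) (hHSUB : S_HSUB) (φ : Fn ι) (hφ : Additive φ)
    (f : MvPolynomial (Option ι) ℂ) (A B : Type) [CommRing A] [CommRing B] [Algebra ℂ A]
    [Algebra ℂ B] [Algebra (MvPolynomial (Option ι) ℂ) A] [Algebra (MvPolynomial ι ℂ) B]
    [IsScalarTower ℂ (MvPolynomial (Option ι) ℂ) A] [IsScalarTower ℂ (MvPolynomial ι ℂ) B]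
    [IsLocalization.Away f A] [IsLocalization.Away (ev0 ι f) B]
    (a : MvPolynomial (Option ι) ℂ →+* A) (ha : a = algebraMap _ A)
    (b : MvPolynomial ι ℂ →+* B) (hb : b = algebraMap _ B)
    (d : Option ι → Derivation ℂ A A) (e : ι → Derivation ℂ B B)
    (hd' : ∀ s g, d s (a g) = a (pderiv s g)) (he' : ∀ s g, e s (b g) = b (pderiv s g))
    (hW : (ofDer A (fun s => a (X s)) d).IsW) (hH : (ofDer B (fun s => b (X s)) e).Holo) :
    iter φ ((ofDer A (fun s => a (X s)) d).res some) [LinearMap.mulLeft ℂ (a (X none))] ⊥ ⊤ =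
      -φ (ofDer B (fun s => b (X s)) e) ⊥ ⊤ := by
  subst ha hb
  set a := algebraMap (MvPolynomial (Option ι) ℂ) A with ha
  set b := algebraMap (MvPolynomial ι ℂ) B with hb
  have hf : IsUnit (a f) := IsLocalization.Away.algebraMap_isUnit f
  have hf0 : IsUnit (b (ev0 ι f)) := IsLocalization.Away.algebraMap_isUnit _
  let π : A →ₐ[ℂ] B :=
    IsLocalization.Away.liftAlgHom (S := A) f
      (f := (IsScalarTower.toAlgHom ℂ _ B).comp (ev0 ι)) hf0
  have hπ : ∀ g, π (a g) = b (ev0 ι g) := fun g => IsLocalization.Away.lift_eq f hf0 g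
  have hsur : ∀ z : A, ∃ k g, z * a f ^ k = a g := by
    intro z
    obtain ⟨⟨q, _, k, rfl⟩, hq⟩ := IsLocalization.surj (Submonoid.powers f) z
    exact ⟨k, q, by rw [← map_pow]; exact hq⟩
  have hM : ((ofDer A (fun s => a (X s)) d).res some).IsW :=
    ⟨fun s t => hW.1 _ _, fun s t => hW.2.1 _ _, fun s => hW.2.2.1 _,
      fun s t h => hW.2.2.2 _ _ fun e => h (Option.some_injective _ e)⟩
  have hX : ∀ s z, π (a (X (some s)) * z) = b (X s) * π z := fun s z => by
    rw [map_mul, hπ, ev0_some]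
  have hD : ∀ s z, π (d (some s) z) = e s (π z) := by
    intro s z
    obtain ⟨k, g, hg⟩ := hsur z
    have h0 : ∀ q, π (d (some s) (a q)) = e s (π (a q)) := fun q => by
      rw [hd', hπ, hπ, he', pderiv_ev0]
    have h1 := h0 g
    rw [← hg, ← map_pow, map_mul π, Derivation.leibniz, Derivation.leibniz] at h1
    simp only [smul_eq_mul, map_add, map_mul π, h0] at h1
    have hu : IsUnit (π (a (f ^ k))) := by rw [map_pow]; exact (hf.pow k).map π
    exact hu.mul_left_cancel (add_left_cancel h1)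
  have hker : ∀ z : A, π z = 0 ↔ z ∈ (⊥ : Submodule ℂ A) ⊔
      Submodule.map (LinearMap.mulLeft ℂ (a (X none))) ⊤ := by
    intro z
    rw [bot_sup_eq]
    constructor
    · intro hz
      obtain ⟨k, g, hg⟩ := hsur z
      have h1 : b (ev0 ι g) = 0 := by rw [← hπ, ← hg, map_mul, hz, zero_mul]
      obtain ⟨⟨_, m, rfl⟩, hm⟩ :=
        (IsLocalization.map_eq_zero_iff (Submonoid.powers (ev0 ι f)) _ _).1 h1
      have h2 : ev0 ι (f ^ m * g) = 0 := by rw [map_mul, map_pow]; exact hm
      obtain ⟨q, hq⟩ := dvd_sub_ev0 (f ^ m * g)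
      rw [h2, map_zero, sub_zero] at hq
      obtain ⟨u, hu⟩ := (hf.pow (k + m)).exists_right_inv
      refine ⟨a q * u, trivial, ?_⟩
      change a (X none) * (a q * u) = z
      rw [← mul_assoc, ← map_mul, ← hq, map_mul, map_pow, ← hg]
      calc a f ^ m * (z * a f ^ k) * u = z * (a f ^ (k + m) * u) := by ring
        _ = z := by rw [hu, mul_one]
    · rintro ⟨w, -, rfl⟩
      change π (a (X none) * w) = 0
      rw [map_mul, hπ, ev0_none, map_zero, zero_mul]
  have hinj : (⊤ : Submodule ℂ A) ⊓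
      Submodule.comap (LinearMap.mulLeft ℂ (a (X none))) ⊥ = ⊥ := by
    rw [top_inf_eq, eq_bot_iff]
    intro z hz
    change a (X none) * z = 0 at hz
    obtain ⟨k, g, hg⟩ := hsur z
    have h1 : a (X none * g) = 0 := by rw [map_mul, ← hg, ← mul_assoc, hz, zero_mul]
    obtain ⟨⟨_, m, rfl⟩, hm⟩ := (IsLocalization.map_eq_zero_iff (Submonoid.powers f) _ _).1 h1
    have h2 : f ^ m * g = 0 := by
      have : X none * (f ^ m * g) = 0 := by rw [← hm]; ring
      exact (mul_eq_zero.1 this).resolve_left (X_ne_zero _)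
    have h3 : z * a f ^ (k + m) = 0 := by
      rw [pow_add, ← mul_assoc, hg, ← map_pow, ← map_mul, mul_comm, h2, map_zero]
    exact (hf.pow (k + m)).mul_left_eq_zero.1 h3
  have hbot : StOn Set.univ ((ofDer A (fun s => a (X s)) d).res some) ⊥ := by
    intro s _ v hv
    rw [Submodule.mem_bot] at hv; subst hv; simp
  have h0 : φ ((ofDer A (fun s => a (X s)) d).res some) ⊥ ⊥ = 0 := by
    have := hφ.add _ ⊥ ⊥ ⊥ ((hHSUB ι Set.univ).2.2.1 _ ⊥ hM hbot) le_rfl le_rfl
      ((stOn_univ _ _).1 hbot)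
    omega
  have hI : PIso Set.univ ((ofDer A (fun s => a (X s)) d).res some)
      (⊥ ⊔ Submodule.map (LinearMap.mulLeft ℂ (a (X none))) ⊤) ⊤
      (ofDer B (fun s => b (X s)) e) ⊥ ⊤ := by
    refine ⟨π.toLinearMap, le_top, fun s _ v hv => ?_, fun s _ v _ => ⟨trivial, trivial⟩, bot_le,
      fun s _ v hv => ?_, fun s _ v _ => ⟨trivial, trivial⟩, fun _ _ => trivial,
      fun z _ => hker z, fun w _ => Submodule.mem_sup_left ?_, fun s _ z _ => ⟨?_, ?_⟩⟩
    · have h := (hker v).2 hv
      refine ⟨(hker _).1 ?_, (hker _).1 ?_⟩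
      · exact (hX s v).trans (by rw [h, mul_zero])
      · exact (hD s v).trans (by rw [h, map_zero])
    · rw [Submodule.mem_bot] at hv; subst hv; simp
    · obtain ⟨⟨q, _, k, rfl⟩, hq⟩ := IsLocalization.surj (Submonoid.powers (ev0 ι f)) w
      obtain ⟨u, hu⟩ := (hf.pow k).exists_right_inv
      refine ⟨a (rename some q) * u, trivial, ?_⟩
      change π (a (rename some q) * u) = w
      have h1 : ev0 ι (rename some q) = q := by
        rw [ev0, aeval_rename]; exact aeval_X_left_apply q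
      have h2 : b (ev0 ι f ^ k) * π u = 1 := by
        rw [← map_pow, ← hπ, ← map_mul, map_pow, hu, map_one]
      change w * b (ev0 ι f ^ k) = b q at hq
      rw [map_mul, hπ, h1, ← hq, mul_assoc, h2, mul_one]
    · exact sub_eq_zero.2 (hX s z)
    · exact sub_eq_zero.2 (hD s z)
  have h1 := hφ.iso _ _ _ _ _ _ hH hM ((hPISO _ _).2.1 _ _ _ _ _ _ hI)
  simp only [iter]
  rw [hinj, h0, h1, zero_sub]

theorem key (hPISO : S_PISO) (hHSUB : S_HSUB) (hREG : S_REG) (hREGH : S_REGH) [Finite ι]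
    (φ : Fn ι) (hφ : Additive φ) (f : MvPolynomial (Option ι) ℂ) :
    iter φ ((reg f).res some) [(reg f).X none] ⊥ ⊤ = -φ (reg (ev0 ι f)) ⊥ ⊤ := by
  obtain ⟨⟨d, hd, hd'⟩, hW, -⟩ := hREG _ f
  obtain ⟨⟨e, he, he'⟩, -, -⟩ := hREG _ (ev0 ι f)
  have hH := hREGH ι (ev0 ι f)
  rw [he] at hH ⊢
  rw [hd] at hW ⊢
  exact key' hPISO hHSUB φ hφ f _ _ _ rfl _ rfl d e hd' he' hW hH

end ResAux

open ResAux in
theorem p_RES (hPISO : S_PISO) (hHSUB : S_HSUB) (hREG : S_REG) (hREGH : S_REGH) (hCLS : S_CLS) :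
    S_RES := by
  classical
  intro ι _ φ S hφ hS
  have hp : IsPres {x : ι → ℂ | (fun o : Option ι => o.elim 0 x) ∈ S}
      ((pres S).mapDomain (ev0 ι)) := by
    intro x
    rw [Finsupp.sum_mapDomain_index (fun _ => by simp) fun f a b => by split_ifs <;> simp]
    simp only [eval_ev0]
    exact hS.isPres _
  rw [(hCLS ι).1 φ _ _ hφ hp,
    Finsupp.sum_mapDomain_index (fun _ => by simp) fun f a b => add_mul _ _ _]
  unfold cls
  simp only [key hPISO hHSUB hREG hREGH φ hφ, mul_neg, Finsupp.sum, Finset.sum_neg_distrib]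

end Pool.Agent.P.MP_52ab5a_al
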