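import Pool.Agent.P.MP_52ab5a_al.K.Iface
import Pool.Agent.P.MP_52ab5a_al.A.Iface

/-! Step RESN of the open orbit project. -/

namespace Pool.Agent.P.MP_52ab5a_al

open MvPolynomial WM

namespace ResnAux

variable {ν σ : Type}

theorem fou_isW (N : WM (ν ⊕ σ)) (h : N.IsW) : N.fou.IsW := by
  obtain ⟨h1, h2, h3, h4⟩ := h
  refine ⟨?_, ?_, ?_, ?_⟩
  · rintro (s | s) (t | t)
    · show -N.D _ * -N.D _ = -N.D _ * -N.D _
      rw [neg_mul_neg, neg_mul_neg, h2]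
    · show -N.D _ * N.X _ = N.X _ * -N.D _
      rw [neg_mul, mul_neg, h4 _ _ (by simp)]
    · show N.X _ * -N.D _ = -N.D _ * N.X _
      rw [neg_mul, mul_neg, h4 _ _ (by simp)]
    · exact h1 _ _
  · rintro (s | s) (t | t)
    · exact h1 _ _
    · exact (h4 _ _ (by simp)).symm
    · exact h4 _ _ (by simp)
    · exact h2 _ _
  · rintro (s | s)
    · show N.X _ * -N.D _ - -N.D _ * N.X _ = 1
      rw [← h3 (Sum.inl s), mul_neg, neg_mul]
      abel
    · exact h3 _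
  · rintro (s | s) (t | t) hst
    · show N.X _ * -N.D _ = -N.D _ * N.X _
      rw [neg_mul, mul_neg, h4 _ _ (Ne.symm hst)]
    · exact h1 _ _
    · show N.D _ * -N.D _ = -N.D _ * N.D _
      rw [neg_mul, mul_neg, h2]
    · exact h4 _ _ hst

theorem fou_hol (hHSUB : S_HSUB) [Finite ν] [Finite σ] (N : WM (ν ⊕ σ)) (B Z : Submodule ℂ N.V)
    (h : Hol Set.univ N B Z) : Hol Set.univ N.fou B Z := by
  refine (hHSUB (ν ⊕ σ) Set.univ).2.2.2.2.1 (ν ⊕ σ) N _ _ B Z le_rfl inferInstance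
    (fou_isW N h.1) ?_ h
  have hX : ∀ t, N.X t ∈ Submodule.span ℂ (insert 1 (Set.range N.X ∪ Set.range N.D)) :=
    fun t => Submodule.subset_span (Or.inr (Or.inl ⟨t, rfl⟩))
  have hD : ∀ t, N.D t ∈ Submodule.span ℂ (insert 1 (Set.range N.X ∪ Set.range N.D)) :=
    fun t => Submodule.subset_span (Or.inr (Or.inr ⟨t, rfl⟩))
  rintro (s | s)
  · exact ⟨Submodule.neg_mem _ (hD _), hX _⟩
  · exact ⟨hX _, hD _⟩

theorem fou_stOn (N : WM (ν ⊕ σ)) (Y : Submodule ℂ N.V) (h : StOn Set.univ N Y) :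
    StOn Set.univ N.fou Y := by
  rintro (s | s) _ v hv
  · exact ⟨Y.neg_mem (h (Sum.inl s) trivial v hv).2, (h (Sum.inl s) trivial v hv).1⟩
  · exact h (Sum.inr s) trivial v hv

theorem fou_piso (N : WM (ν ⊕ σ)) (B Z : Submodule ℂ N.V) (N' : WM (ν ⊕ σ))
    (B' Z' : Submodule ℂ N'.V) (h : PIso Set.univ N B Z N' B' Z') :
    PIso Set.univ N.fou B Z N'.fou B' Z' := by
  obtain ⟨f, hf⟩ := h
  refine ⟨f, hf.le, fou_stOn _ _ hf.stB, fou_stOn _ _ hf.stZ, hf.le', fou_stOn _ _ hf.stB',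
    fou_stOn _ _ hf.stZ', hf.maps, hf.ker, hf.onto, ?_⟩
  rintro (s | s) _ z hz
  · refine ⟨?_, (hf.comm (Sum.inl s) trivial z hz).1⟩
    have := B'.neg_mem (hf.comm (Sum.inl s) trivial z hz).2
    show f (-(N.D (Sum.inl s) z)) - -(N'.D (Sum.inl s) (f z)) ∈ B'
    rw [map_neg, sub_neg_eq_add, neg_add_eq_sub]
    rwa [neg_sub] at this
  · exact hf.comm (Sum.inr s) trivial z hz

theorem fou_add (hHSUB : S_HSUB) [Finite ν] [Finite σ] (ψ : Fn (ν ⊕ σ)) (h : Additive ψ) :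
    Additive fun (N : WM (ν ⊕ σ)) B Z => ψ N.fou B Z := by
  refine ⟨fun N B Y Z hH hBY hYZ hY => ?_, fun N B Z N' B' Z' hH hW hI => ?_⟩
  · exact h.add N.fou B Y Z (fou_hol hHSUB N B Z hH) hBY hYZ
      ((stOn_univ _ _).1 (fou_stOn N Y ((stOn_univ _ _).2 hY)))
  · exact h.iso N.fou B Z N'.fou B' Z' (fou_hol hHSUB N B Z hH) (fou_isW N' hW)
      (fou_piso N B Z N' B' Z' hI)

theorem ops_congr {ι κ : Type} (φ : Fn κ) (N : WM ι) {X₁ X₂ D₁ D₂ : κ → Module.End ℂ N.V}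
    (hX : X₁ = X₂) (hD : D₁ = D₂) (B Z : Submodule ℂ N.V) :
    φ (N.ops X₁ D₁) B Z = φ (N.ops X₂ D₂) B Z := by
  subst hX hD; rfl

/-- Moving one variable to the front. -/
def front {ν' : Type} (e : Option ν' ≃ ν) : ν ⊕ σ ≃ Option (ν' ⊕ σ) where
  toFun := Sum.elim (fun j => (e.symm j).map Sum.inl) fun s => some (Sum.inr s)
  invFun o := o.elim (Sum.inl (e none)) (Sum.map (fun j => e (some j)) id)
  left_inv := by
    rintro (j | s)
    · obtain ⟨o, rfl⟩ := e.surjective j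
      cases o <;> simp
    · simp
  right_inv := by
    rintro (_ | j | s) <;> simp

theorem key (hHSUB : S_HSUB) (hPUSH : S_PUSH) (hRESM : S_RESM) {ν' : Type} [Fintype ν]
    [Fintype ν'] [Fintype σ] (e : Option ν' ≃ ν) (φ : Fn σ) (hφ : Additive φ)
    (N : WM (Option (ν' ⊕ σ))) (hN : N.Holo) :
    push Sum.inr φ (N.res (front e : ν ⊕ σ ≃ Option (ν' ⊕ σ))).fou ⊥ ⊤ =
      iter (fun (M : WM (ν' ⊕ σ)) B Z => push Sum.inr φ M.fou B Z) (N.res some) [N.X none] ⊥ ⊤ := by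
  have hr : Function.Injective (Sum.map (fun j => e (some j)) id : ν' ⊕ σ → ν ⊕ σ) :=
    Sum.map_injective.2 ⟨fun a b hab => Option.some_injective _ (e.injective hab),
      Function.injective_id⟩
  have hH : Hol Set.univ (N.res (front e : ν ⊕ σ ≃ Option (ν' ⊕ σ))).fou ⊥ ⊤ :=
    fou_hol hHSUB _ _ _ ((hRESM _ _ (front e)).2.2.2.1 N ⊥ ⊤ hN)
  have h1 := (hPUSH σ (ν' ⊕ σ) Sum.inr Sum.inr_injective).2.2.1 φ (ν ⊕ σ) _ hφ hr _ ⊥ ⊤ hH
  have ha := (hPUSH σ (ν' ⊕ σ) Sum.inr Sum.inr_injective).1 φ hφ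
  have h2 := (hPUSH (ν' ⊕ σ) (ν ⊕ σ) _ hr).2.1 (push Sum.inr φ) [Sum.inl (e none)] ha
    (List.nodup_singleton _) (by
      rintro (j | s)
      · obtain ⟨o, rfl⟩ := e.surjective j
        cases o <;> simp
      · simp) _ ⊥ ⊤ hH
  refine (h1.trans h2).trans ?_
  have hT : (N.res (front e : ν ⊕ σ ≃ Option (ν' ⊕ σ))).fou.D (Sum.inl (e none)) = N.X none := by
    show N.X ((e.symm (e none)).map Sum.inl) = _
    rw [Equiv.symm_apply_apply]; rfl
  have hc : ∀ B Z : Submodule ℂ N.V, push Sum.inr φ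
      ((N.res (front e : ν ⊕ σ ≃ Option (ν' ⊕ σ))).fou.res
        (Sum.map (fun j => e (some j)) id : ν' ⊕ σ → ν ⊕ σ)) B Z =
      push Sum.inr φ (N.res some).fou B Z := by
    intro B Z
    refine ops_congr (push Sum.inr φ) N ?_ ?_ B Z
    · funext t
      rcases t with j | s
      · show -N.D ((e.symm (e (some j))).map Sum.inl) = _
        rw [Equiv.symm_apply_apply]; rfl
      · rfl
    · funext t
      rcases t with j | s
      · show N.X ((e.symm (e (some j))).map Sum.inl) = _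
        rw [Equiv.symm_apply_apply]; rfl
      · rfl
  rw [List.map_cons, List.map_nil, hT]
  exact congrArg₂ (· - ·) (hc _ _) (hc _ _)

end ResnAux

open ResnAux in
theorem p_RESN (hHSUB : S_HSUB) (hPUSH : S_PUSH) (hREGH : S_REGH) (hCLS : S_CLS) (hAFF : S_AFF) (hRESM : S_RESM) (hRES : S_RES) :
    S_RESN := by
  classical
  have _ := hREGH
  intro ν σ _ _ φ S hφ hS
  induction' hn : Fintype.card ν with n ih generalizing ν
  · have : IsEmpty ν := Fintype.card_eq_zero_iff.1 hn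
    let e : σ ≃ ν ⊕ σ := ⟨Sum.inr, Sum.elim isEmptyElim id, fun _ => rfl, by
      rintro (j | s)
      · exact isEmptyElim j
      · rfl⟩
    have h1 := (hAFF (ν ⊕ σ) σ φ S hφ hS).2 e
    have h2 : (fun (N : WM (ν ⊕ σ)) B Z => push Sum.inr φ N.fou B Z) =
        fun (N : WM (ν ⊕ σ)) B Z => φ (N.res e) B Z := by
      funext N B Z
      exact (hPUSH σ (ν ⊕ σ) Sum.inr Sum.inr_injective).2.2.2.1 φ e.surjective N.fou B Z
    rw [h2, h1, pow_zero, one_mul]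
    congr 1
    ext x
    have : x ∘ e.symm = Sum.elim (0 : ν → ℂ) x := by
      funext t
      rcases t with j | s
      · exact isEmptyElim j
      · rfl
    rw [Set.mem_ofPred_eq, Set.mem_ofPred_eq, this]
  · obtain ⟨e⟩ : Nonempty (Option (Fin n) ≃ ν) := by
      apply Fintype.card_eq.1
      simp [hn]
    have hΨ : Additive fun (N : WM (ν ⊕ σ)) B Z => push Sum.inr φ N.fou B Z :=
      fou_add hHSUB _ ((hPUSH σ (ν ⊕ σ) Sum.inr Sum.inr_injective).1 φ hφ)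
    have hψ : Additive fun (N : WM (Fin n ⊕ σ)) B Z => push Sum.inr φ N.fou B Z :=
      fou_add hHSUB _ ((hPUSH σ (Fin n ⊕ σ) Sum.inr Sum.inr_injective).1 φ hφ)
    have hS' : Con {x : Option (Fin n ⊕ σ) → ℂ | x ∘ (front e : ν ⊕ σ ≃ _) ∈ S} := hS.comp _
    have h1 := (hAFF (Option (Fin n ⊕ σ)) (ν ⊕ σ) _ _ hΨ hS').2 (front e)
    have h2 : {x : ν ⊕ σ → ℂ | x ∘ (front e : ν ⊕ σ ≃ Option (Fin n ⊕ σ)).symm ∈
        {x : Option (Fin n ⊕ σ) → ℂ | x ∘ (front e : ν ⊕ σ ≃ _) ∈ S}} = S := by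
      ext x
      simp only [Set.mem_ofPred_eq, Function.comp_assoc, Equiv.symm_comp_self, Function.comp_id]
    rw [h2] at h1
    have h3 := (hCLS (Option (Fin n ⊕ σ))).2.2.2.2.1 _ _
      {x : Option (Fin n ⊕ σ) → ℂ | x ∘ (front e : ν ⊕ σ ≃ _) ∈ S}
      (fun N hN => key hHSUB hPUSH hRESM e φ hφ N hN)
    have h4 := hRES (Fin n ⊕ σ) _ _ hψ hS'
    have hS'' : Con {x : Fin n ⊕ σ → ℂ | (fun o : Option (Fin n ⊕ σ) => o.elim 0 x) ∈
        {x : Option (Fin n ⊕ σ) → ℂ | x ∘ (front e : ν ⊕ σ ≃ _) ∈ S}} := by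
      refine hS'.preimage ?_
      rintro (_ | t)
      · exact PolyFn.const 0
      · exact PolyFn.coord t
    have h5 := ih (Fin n) _ hS'' (Fintype.card_fin n)
    rw [← h1, h3, h4, h5, pow_succ, mul_neg, mul_one, neg_mul]
    congr 3
    ext x
    have : (fun o : Option (Fin n ⊕ σ) => o.elim 0 (Sum.elim (0 : Fin n → ℂ) x)) ∘
        (front e : ν ⊕ σ ≃ Option (Fin n ⊕ σ)) = Sum.elim (0 : ν → ℂ) x := by
      funext t
      rcases t with j | s
      · show ((e.symm j).map Sum.inl).elim 0 (Sum.elim (0 : Fin n → ℂ) x) = 0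
        cases e.symm j <;> rfl
      · rfl
    simp only [Set.mem_ofPred_eq, this]

end Pool.Agent.P.MP_52ab5a_al
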