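import Pool.Agent.P.MP_52ab5a_al.K.Iface
import Pool.Agent.P.MP_52ab5a_al.A.Iface

/-! Step TRANS of the open orbit project. -/

namespace Pool.Agent.P.MP_52ab5a_al

open MvPolynomial WM

namespace TransAux

theorem proj (hPUSH : S_PUSH) (hCLS : S_CLS) (hBIJ : S_BIJ) {τ ι σ : Type} [Fintype τ]
    [Fintype ι] [Fintype σ] (r : τ → ι) (hr : Function.Injective r) (Γ : Set (ι ⊕ σ → ℂ))
    (S : Set (τ ⊕ σ → ℂ)) (hΓ : Con Γ) (hinj : Set.InjOn (fun z => z ∘ Sum.map r id) Γ)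
    (him : (fun z => z ∘ Sum.map r id) '' Γ = S) :
    Con S ∧ ∀ φ : Fn σ, Additive φ → intg φ Γ = intg φ S := by
  have hr' : Function.Injective (Sum.map r (id : σ → σ)) :=
    Sum.map_injective.2 ⟨hr, Function.injective_id⟩
  obtain ⟨h1, h2⟩ := hBIJ _ _ _ Γ hr' hΓ hinj
  rw [him] at h1 h2
  refine ⟨h1, fun φ hφ => ?_⟩
  obtain ⟨p1, -, p3, -⟩ := hPUSH σ (τ ⊕ σ) Sum.inr Sum.inr_injective
  unfold intg
  rw [← h2 _ (p1 φ hφ)]
  exact (hCLS (ι ⊕ σ)).2.2.2.2.1 _ _ _ fun N hN => p3 φ (ι ⊕ σ) _ hφ hr' N ⊥ ⊤ hN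

theorem ext3 {τ τ' σ : Type} {z z' : (τ ⊕ τ') ⊕ σ → ℂ}
    (h1 : z ∘ Sum.inl ∘ Sum.inl = z' ∘ Sum.inl ∘ Sum.inl)
    (h2 : z ∘ Sum.inl ∘ Sum.inr = z' ∘ Sum.inl ∘ Sum.inr) (h3 : z ∘ Sum.inr = z' ∘ Sum.inr) :
    z = z' := by
  funext j
  rcases j with (j | j) | j
  exacts [congrFun h1 j, congrFun h2 j, congrFun h3 j]

theorem elim_map {τ ι σ : Type} (r : τ → ι) (z : ι ⊕ σ → ℂ) :
    z ∘ Sum.map r id = Sum.elim (z ∘ Sum.inl ∘ r) (z ∘ Sum.inr) := by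
  funext j; rcases j with j | j <;> rfl

theorem elim_self {τ σ : Type} (z : τ ⊕ σ → ℂ) : Sum.elim (z ∘ Sum.inl) (z ∘ Sum.inr) = z := by
  funext j; rcases j with j | j <;> rfl

end TransAux

open TransAux in
theorem p_TRANS (hPUSH : S_PUSH) (hCLS : S_CLS) (hBIJ : S_BIJ) :
    S_TRANS := by
  intro τ τ' σ _ _ _ S S'
  have part1 : ∀ R : (τ → ℂ) → (τ' → ℂ) → (σ → ℂ) → Prop,
      Con {z : (τ ⊕ τ') ⊕ σ → ℂ | R (z ∘ Sum.inl ∘ Sum.inl) (z ∘ Sum.inl ∘ Sum.inr) (z ∘ Sum.inr)} →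
      (∀ y y' x, R y y' x → Sum.elim y x ∈ S ∧ Sum.elim y' x ∈ S') →
      (∀ y x, Sum.elim y x ∈ S → ∃! y', R y y' x) → (∀ y' x, Sum.elim y' x ∈ S' → ∃! y, R y y' x) →
      Con S ∧ Con S' ∧ ∀ φ : Fn σ, Additive φ → intg φ S = intg φ S' := by
    intro R hC h0 h1 h2
    obtain ⟨a1, a2⟩ := proj hPUSH hCLS hBIJ Sum.inl Sum.inl_injective _ S hC
      (fun z hz z' hz' e => by
        have e1 : z ∘ Sum.inl ∘ Sum.inl = z' ∘ Sum.inl ∘ Sum.inl :=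
          funext fun j => congrFun e (Sum.inl j)
        have e3 : z ∘ Sum.inr = z' ∘ Sum.inr := funext fun j => congrFun e (Sum.inr j)
        refine ext3 e1 ((h1 _ _ (h0 _ _ _ hz).1).unique hz ?_) e3
        rw [e1, e3]; exact hz')
      (Set.Subset.antisymm (by
        rintro _ ⟨z, hz, rfl⟩
        simp only [elim_map]
        exact (h0 _ _ _ hz).1) fun u hu => by
        obtain ⟨y', hy', -⟩ := h1 (u ∘ Sum.inl) (u ∘ Sum.inr) (by rwa [elim_self])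
        exact ⟨Sum.elim (Sum.elim (u ∘ Sum.inl) y') (u ∘ Sum.inr), hy',
          funext fun j => by rcases j with j | j <;> rfl⟩)
    obtain ⟨b1, b2⟩ := proj hPUSH hCLS hBIJ Sum.inr Sum.inr_injective _ S' hC
      (fun z hz z' hz' e => by
        have e1 : z ∘ Sum.inl ∘ Sum.inr = z' ∘ Sum.inl ∘ Sum.inr :=
          funext fun j => congrFun e (Sum.inl j)
        have e3 : z ∘ Sum.inr = z' ∘ Sum.inr := funext fun j => congrFun e (Sum.inr j)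
        refine ext3 ((h2 _ _ (h0 _ _ _ hz).2).unique hz ?_) e1 e3
        rw [e1, e3]; exact hz')
      (Set.Subset.antisymm (by
        rintro _ ⟨z, hz, rfl⟩
        simp only [elim_map]
        exact (h0 _ _ _ hz).2) fun u hu => by
        obtain ⟨y, hy, -⟩ := h2 (u ∘ Sum.inl) (u ∘ Sum.inr) (by rwa [elim_self])
        exact ⟨Sum.elim (Sum.elim y (u ∘ Sum.inl)) (u ∘ Sum.inr), hy,
          funext fun j => by rcases j with j | j <;> rfl⟩)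
    exact ⟨a1, b1, fun φ hφ => (a2 φ hφ).symm.trans (b2 φ hφ)⟩
  refine ⟨part1, fun F hF hS' hb => ?_⟩
  obtain ⟨c1, -, c3⟩ := part1 (fun y y' x => Sum.elim y' x ∈ S' ∧ y = F (Sum.elim y' x)) (by
      simp only [← elim_map, funext_iff]
      exact (hS'.comp _).and (Con.all fun j => Con.eq (PolyFn.coord _)
        ((hF j).comp (G := fun z : (τ ⊕ τ') ⊕ σ → ℂ => z ∘ Sum.map Sum.inr id)
          fun s => PolyFn.coord _)))
    (fun y y' x h => ⟨h.2 ▸ hb.mapsTo h.1, h.1⟩)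
    (fun y x h => by
      obtain ⟨u, hu, e⟩ := hb.surjOn h
      have e1 : F u = y := funext fun j => congrFun e (Sum.inl j)
      have e2 : u ∘ Sum.inr = x := funext fun j => congrFun e (Sum.inr j)
      subst e1 e2
      refine ⟨u ∘ Sum.inl, by simp only [elim_self]; exact ⟨hu, trivial⟩, fun y' hy' => ?_⟩
      have : Sum.elim y' (u ∘ Sum.inr) = u := hb.injOn hy'.1 hu (by
        show Sum.elim _ _ = Sum.elim _ _
        rw [← hy'.2]; rfl)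
      rw [← this]; rfl)
    fun y' x h => ⟨_, ⟨h, rfl⟩, fun y hy => hy.2⟩
  exact ⟨c1, c3⟩

end Pool.Agent.P.MP_52ab5a_al
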