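import Pool.Agent.P.MP_52ab5a_al.K.Iface
import Pool.Agent.P.MP_52ab5a_al.A.Iface

/-! Step GR of the open orbit project. -/

namespace Pool.Agent.P.MP_52ab5a_al

open MvPolynomial WM

namespace GrAux

section

variable {A : Type} [AddCommGroup A] [Module ℂ A]

theorem lder_single (k : ℤ) (a : A) :
    lder A (Finsupp.single k a) = (k : ℂ) • Finsupp.single (k - 1) a := by
  simp [lder]

theorem lder_apply (u : ℤ →₀ A) (k : ℤ) : lder A u (k - 1) = (k : ℂ) • u k := by
  induction u using Finsupp.induction_linear with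
  | zero => simp
  | add u v hu hv => simp [hu, hv]
  | single j a =>
    rw [lder_single, Finsupp.smul_apply, Finsupp.single_apply, Finsupp.single_apply]
    by_cases e : j = k
    · simp [e]
    · simp [e]

theorem lder_neg (u : ℤ →₀ A) : lder A u (-1) = 0 := by simpa using lder_apply u 0

theorem mem_range (u : ℤ →₀ A) : u ∈ ⊥ ⊔ Submodule.map (lder A) ⊤ ↔ u (-1) = 0 := by
  rw [bot_sup_eq]
  refine ⟨?_, fun h => ?_⟩
  · rintro ⟨w, -, rfl⟩
    exact lder_neg w
  rw [← u.sum_single]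
  refine Submodule.sum_mem _ fun k hk => ⟨Finsupp.single (k + 1) (((k + 1 : ℤ) : ℂ)⁻¹ • u k),
    trivial, ?_⟩
  have : ((k + 1 : ℤ) : ℂ) ≠ 0 := Int.cast_ne_zero.2 fun e => Finsupp.mem_support_iff.1 hk (by
    rw [show k = -1 by omega, h])
  rw [lder_single, add_sub_cancel_right, Finsupp.smul_single, smul_inv_smul₀ this]

end

variable {ι A : Type} [CommRing A] [Algebra ℂ A] {x : ι → A} {d : ι → Derivation ℂ A A} {p : A}

theorem cm (h : (laur A x d p).IsW) (s : ι) (v : ℤ →₀ A) :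
    lder A ((laur A x d p).X (some s) v) = (laur A x d p).X (some s) (lder A v) ∧
    lder A ((laur A x d p).D (some s) v) = (laur A x d p).D (some s) (lder A v) :=
  ⟨LinearMap.congr_fun (h.2.2.2 none (some s) (by simp)) v,
    LinearMap.congr_fun (h.2.1 none (some s)) v⟩

theorem stb {N : WM ι} : StOn Set.univ N ⊥ := fun s _ v hv => by
  rw [(Submodule.mem_bot ℂ).1 hv]; simp

theorem stt {N : WM ι} : StOn Set.univ N ⊤ := fun _ _ _ _ => ⟨trivial, trivial⟩

theorem iso1 (h : (laur A x d p).IsW) : PIso Set.univ (ofDer A x d) ⊥ ⊤ ((laur A x d p).res some) ⊥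
    (⊤ ⊓ Submodule.comap (lder A) ⊥) := by
  have m : ∀ u : ℤ →₀ A, u ∈ ⊤ ⊓ Submodule.comap (lder A) ⊥ ↔ lder A u = 0 := fun u => by simp
  have z : ∀ a : A, lder A (Finsupp.single 0 a) = 0 := fun a => by simp [lder_single]
  refine ⟨Finsupp.lsingle 0, bot_le, stb, stt, bot_le, stb, fun s _ v hv => ?_,
    fun a _ => (m _).2 (z a), fun a _ => by simp, fun u hu => ?_, fun s _ a _ => ?_⟩
  · rw [m] at hv
    rw [m, m]
    exact ⟨(cm h s v).1.trans (by rw [hv, map_zero]), (cm h s v).2.trans (by rw [hv, map_zero])⟩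
  · refine Submodule.mem_sup_left ⟨u 0, trivial, Finsupp.ext fun k => ?_⟩
    by_cases e : k = 0
    · simp [e]
    · have a := lder_apply u k
      rw [(m u).1 hu, Finsupp.zero_apply, eq_comm, smul_eq_zero] at a
      simp [e, a.resolve_left (Int.cast_ne_zero.2 e)]
  · simp [z]

theorem iso2 (h : (laur A x d p).IsW) : PIso Set.univ (ofDer A x d) ⊥ ⊤ ((laur A x d p).res some)
    (⊥ ⊔ Submodule.map (lder A) ⊤) ⊤ := by
  refine ⟨Finsupp.lsingle (-1), bot_le, stb, stt, le_top, fun s _ v hv => ?_, stt,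
    fun a _ => trivial, fun a _ => by rw [mem_range]; simp, fun u _ => ?_, fun s _ a _ => ?_⟩
  · rw [bot_sup_eq] at hv ⊢
    obtain ⟨w, -, rfl⟩ := hv
    exact ⟨⟨_, trivial, (cm h s w).1⟩, _, trivial, (cm h s w).2⟩
  · rw [← add_sub_cancel (Finsupp.single (-1) (u (-1))) u]
    exact Submodule.add_mem_sup ⟨u (-1), trivial, rfl⟩ ((mem_range _).2 (by simp))
  · rw [mem_range, mem_range]
    simp [lder_neg]

end GrAux

open GrAux in
theorem p_GR (hHSUB : S_HSUB) (hPUSH : S_PUSH) (hREG : S_REG) (hREGH : S_REGH) (hCLS : S_CLS) (hLAUR : S_LAUR) (hONE : S_ONE) :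
    S_GR := by
  classical
  intro ι _ φ S g h hφ hS hh
  obtain ⟨p1, p2, -⟩ := hPUSH ι (Option ι) some (Option.some_injective ι)
  have hψ := p1 φ hφ
  obtain ⟨c1, -, c3, -⟩ := hCLS (Option ι)
  have key : ∀ f : MvPolynomial ι ℂ, push some φ (reg (rename some (f * h) *
      (rename some h * X none - rename some g))) ⊥ ⊤ = 0 := fun f => by
    obtain ⟨⟨d, e1, e2⟩, -⟩ := hREG ι (f * h)
    have u : IsUnit (algebraMap (MvPolynomial ι ℂ) (Localization.Away (f * h)) h) :=
      isUnit_of_mul_isUnit_right (map_mul (algebraMap (MvPolynomial ι ℂ) (Localization.Away (f * h)))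
        f h ▸ IsLocalization.Away.algebraMap_isUnit (f * h))
    obtain ⟨l1, l2, -⟩ := hLAUR ι (f * h) g h d (u.unit⁻¹ * algebraMap _ _ g) e2 u
      (by rw [← mul_assoc, u.mul_val_inv, one_mul])
    have w : ((laur _ _ d _).res some).IsW := ⟨fun s t => l1.1 _ _, fun s t => l1.2.1 _ _,
      fun s => l1.2.2.1 _, fun s t a => l1.2.2.2 _ _ fun b => a (Option.some_injective ι b)⟩
    have r := hREGH ι (f * h)
    rw [e1] at r
    rw [hψ.iso _ _ _ _ _ _ (hREGH _ _) l1 l2, p2 φ [none] hφ (List.nodup_singleton _)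
      (fun t => by cases t <;> simp) _ _ _ ((hHSUB _ _).2.1 _ _ _ _ _ _ (hREGH _ _) l1 l2)]
    exact sub_eq_zero.2 ((hφ.iso _ _ _ _ _ _ r w (iso1 l1)).symm.trans
      (hφ.iso _ _ _ _ _ _ r w (iso2 l1)))
  have q1 : PolyFn fun z : Option ι → ℂ => eval (z ∘ some) h * z none :=
    ((PolyFn.eval h).comp fun s => PolyFn.coord (some s)).mul (PolyFn.coord none)
  have q2 : PolyFn fun z : Option ι → ℂ => eval (z ∘ some) g :=
    (PolyFn.eval g).comp fun s => PolyFn.coord (some s)
  have a := c3 (push some φ) _ _ hψ ((hS.comp some).and (Con.eq q1 q2))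
    ((hS.comp some).and (Con.ne q1 q2)) (Set.disjoint_left.2 fun z b c => c.2 b.2)
  replace a := (hONE ι φ S hφ hS).1.symm.trans (Eq.trans (congrArg _ (Set.ext fun z =>
    ⟨fun b => (em _).imp (And.intro b) (And.intro b), fun b => b.elim And.left And.left⟩)) a)
  obtain ⟨c, hc⟩ := hS
  rw [a, c1 _ {z : Option ι → ℂ | z ∘ some ∈ S ∧ eval (z ∘ some) h * z none ≠ eval (z ∘ some) g}
    (c.mapDomain fun f => rename some (f * h) * (rename some h * X none - rename some g)) hψ
    fun z => ?_, Finsupp.sum_mapDomain_index (by simp) (fun _ _ _ => add_mul _ _ _)]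
  · simp only [key, mul_zero, Finsupp.sum_fun_zero, add_zero]
  rw [Finsupp.sum_mapDomain_index (by simp) fun _ _ _ => by split_ifs <;> simp]
  have b := hc (z ∘ some)
  simp only [map_mul, map_sub, eval_rename, eval_X, mul_eq_zero, sub_eq_zero, Set.mem_ofPred_eq]
  by_cases e : eval (z ∘ some) h = 0 ∨ eval (z ∘ some) h * z none = eval (z ∘ some) g
  · rw [if_neg fun k => e.elim (hh _ k.1) k.2]
    exact Finset.sum_eq_zero fun f _ => if_pos (by tauto)
  · push Not at e
    simpa only [e.1, e.2, or_false, ne_eq, not_false_eq_true, and_true] using b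

end Pool.Agent.P.MP_52ab5a_al
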