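import Pool.Agent.P.MP_52ab5a_al.K.Iface

/-! Step WD of the open orbit project. -/

namespace Pool.Agent.P.MP_52ab5a_al

open MvPolynomial WM

namespace WdAux

theorem conv {β : Type} (T : Finset β) (F : Finset β → ℤ) :
    ∑ I ∈ T.powerset, F I = ∑ I : Finset T, F (I.map (Function.Embedding.subtype _)) := by
  classical
  refine (Finset.sum_bij (fun I _ => I.map (Function.Embedding.subtype _)) (fun I _ => ?_)
    (fun I _ J _ e => Finset.map_injective _ e) (fun I hI => ?_) fun _ _ => rfl).symm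
  · refine Finset.mem_powerset.2 fun x hx => ?_
    obtain ⟨y, -, rfl⟩ := Finset.mem_map.1 hx
    exact y.2
  · exact ⟨I.subtype (· ∈ T), Finset.mem_univ _,
      Finset.subtype_map_of_mem (Finset.mem_powerset.1 hI)⟩

variable {ι : Type}

/-- The class of the set where `h ≠ 0` and all members of `T` vanish. -/
noncomputable def st (φ : Fn ι) (h : MvPolynomial ι ℂ) (T : Finset (MvPolynomial ι ℂ)) : ℤ :=
  ∑ I ∈ T.powerset, (-1) ^ I.card * φ (reg (h * ∏ a ∈ I, a)) ⊥ ⊤

theorem st_zero (hC : S_CECH) [Finite ι] {φ : Fn ι} (hφ : Additive φ) {h : MvPolynomial ι ℂ}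
    {T : Finset (MvPolynomial ι ℂ)} (e : ∀ x, eval x h ≠ 0 → ∃ a ∈ T, eval x a ≠ 0) :
    st φ h T = 0 := by
  rw [st, conv, ← hC ι T φ h Subtype.val hφ fun x hx =>
    let ⟨a, h1, h2⟩ := e x hx; ⟨⟨a, h1⟩, h2⟩]
  exact Finset.sum_congr rfl fun I _ => by rw [Finset.card_map, Finset.prod_map]; rfl

open Classical in
theorem st_ins (φ : Fn ι) (h : MvPolynomial ι ℂ) {T : Finset (MvPolynomial ι ℂ)}
    {g : MvPolynomial ι ℂ} (hg : g ∉ T) : st φ h T = st φ (h * g) T + st φ h (insert g T) := by
  have e : ∑ I ∈ T.powerset, (-1 : ℤ) ^ (insert g I).card *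
      φ (reg (h * ∏ a ∈ insert g I, a)) ⊥ ⊤ = -st φ (h * g) T := by
    rw [st, ← Finset.sum_neg_distrib]
    refine Finset.sum_congr rfl fun I hI => ?_
    have a : g ∉ I := fun a => hg (Finset.mem_powerset.1 hI a)
    rw [Finset.card_insert_of_notMem a, Finset.prod_insert a, mul_assoc h g, pow_succ]
    ring
  rw [st.eq_1 φ h (insert g T), Finset.sum_powerset_insert hg, e, ← st]
  ring

theorem main (hC : S_CECH) [Finite ι] {φ : Fn ι} (hφ : Additive φ) {c : MvPolynomial ι ℂ →₀ ℤ}
    (hc : ∀ x, ev c x = 0) (R : Finset (MvPolynomial ι ℂ)) :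
    ∀ (h : MvPolynomial ι ℂ) (T : Finset (MvPolynomial ι ℂ)),
      (∀ f ∈ c.support, f ∈ R ∨ (∀ x, eval x h ≠ 0 → eval x f ≠ 0) ∨ f ∈ T) →
      ∑ f ∈ c.support, c f * st φ (h * f) T = 0 := by
  classical
  induction R using Finset.induction_on with
  | empty =>
    intro h T e
    by_cases a : ∀ x, eval x h ≠ 0 → ∃ a ∈ T, eval x a ≠ 0
    · refine Finset.sum_eq_zero fun f _ => ?_
      rw [st_zero hC hφ fun x hx => a x fun b => hx (by rw [map_mul, b, zero_mul]), mul_zero]
    push Not at a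
    obtain ⟨x, h1, h2⟩ := a
    rw [← zero_mul (st φ h T), ← hc x, ev, Finsupp.sum, Finset.sum_mul]
    refine Finset.sum_congr rfl fun f hf => ?_
    rcases (e f hf).resolve_left (Finset.notMem_empty _) with b | b
    · rw [if_neg (b x h1), st_ins φ h fun k => b x h1 (h2 f k),
        st_zero hC hφ (T := insert f T) fun y hy => ⟨f, Finset.mem_insert_self _ _, b y hy⟩,
        add_zero]
    · rw [if_pos (h2 f b), zero_mul, st_zero hC hφ fun y hy =>
        ⟨f, b, fun k => hy (by rw [map_mul, k, mul_zero])⟩, mul_zero]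
  | insert g R _ ih =>
    intro h T e
    by_cases a : g ∈ T
    · refine ih h T fun f hf => (e f hf).elim (fun b => ?_) Or.inr
      exact (Finset.mem_insert.1 b).elim (fun k => Or.inr (Or.inr (k ▸ a))) Or.inl
    have h1 := ih (h * g) T fun f hf => by
      rcases e f hf with b | b | b
      · exact (Finset.mem_insert.1 b).elim
          (fun k => Or.inr (Or.inl fun x hx l => hx (by rw [map_mul, ← k, l, mul_zero]))) Or.inl
      · exact Or.inr (Or.inl fun x hx => b x fun l => hx (by rw [map_mul, l, zero_mul]))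
      · exact Or.inr (Or.inr b)
    have h2 := ih h (insert g T) fun f hf => by
      rcases e f hf with b | b | b
      · exact (Finset.mem_insert.1 b).elim
          (fun k => Or.inr (Or.inr (k ▸ Finset.mem_insert_self _ _))) Or.inl
      · exact Or.inr (Or.inl b)
      · exact Or.inr (Or.inr (Finset.mem_insert_of_mem b))
    rw [← add_zero (0 : ℤ)]
    nth_rw 1 [← h1]
    rw [← h2, ← Finset.sum_add_distrib]
    exact Finset.sum_congr rfl fun f _ => by rw [st_ins φ _ a, mul_add, mul_right_comm h f g]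

end WdAux

theorem p_WD (hCECH : S_CECH) :
    S_WD := by
  intro ι _ φ c hφ hc
  rw [← WdAux.main hCECH hφ hc c.support 1 ∅ fun f hf => Or.inl hf]
  refine Finset.sum_congr rfl fun f _ => ?_
  rw [WdAux.st, Finset.powerset_empty, Finset.sum_singleton, Finset.prod_empty, one_mul, mul_one,
    Finset.card_empty, pow_zero, one_mul]

end Pool.Agent.P.MP_52ab5a_al
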